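import Pool.Agent.Mg.F251804a.Ge2be69

section

namespace Pool.Agent.MP_251804_lc.Ed
open Finset Filter

/-- Extensions of the members of `F` by a point of `N T` outside `T`. -/
def ext_Nb (F : Finset (Finset ℕ)) (N : Finset ℕ → Finset ℕ) : Finset (Finset ℕ) :=
  F.biUnion fun T => (N T \ T).image fun v => insert v T

lemma mem_ext_Nb {F : Finset (Finset ℕ)} {N : Finset ℕ → Finset ℕ} {C : Finset ℕ} :
    C ∈ ext_Nb F N ↔ ∃ T ∈ F, ∃ v ∈ N T, v ∉ T ∧ insert v T = C := by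
  simp [ext_Nb, and_assoc]

lemma card_ext_Nb (F : Finset (Finset ℕ)) (N : Finset ℕ → Finset ℕ) (a : ℝ)
    (h : ∀ T ∈ F, ((N T).card : ℝ) ≤ a) : ((ext_Nb F N).card : ℝ) ≤ F.card * a := by
  have h1 : (ext_Nb F N).card ≤ ∑ T ∈ F, (N T).card :=
    card_biUnion_le.trans (sum_le_sum fun T _ =>
      card_image_le.trans (card_le_card sdiff_subset))
  calc ((ext_Nb F N).card : ℝ) ≤ ∑ T ∈ F, ((N T).card : ℝ) := by exact_mod_cast h1
    _ ≤ ∑ _T ∈ F, a := sum_le_sum h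
    _ = F.card * a := by rw [sum_const, nsmul_eq_mul]

/-- Points of `A` with a neighbour in `T`. -/
noncomputable def one_Nb (H : ℕ → ℕ → Prop) (A T : Finset ℕ) : Finset ℕ :=
  T.biUnion fun x => nb H {x} A

/-- Points of `A` with two neighbours in `T`. -/
noncomputable def two_Nb (H : ℕ → ℕ → Prop) (A T : Finset ℕ) : Finset ℕ :=
  T.offDiag.biUnion fun e => nb H {e.1, e.2} A

/-- Connected sets of size `t + 1` grown with `f` marked double steps. -/
noncomputable def G_Nb (H : ℕ → ℕ → Prop) (A : Finset ℕ) : ℕ → ℕ → Finset (Finset ℕ)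
  | 0, 0 => A.image fun v => {v}
  | 0, _ + 1 => ∅
  | t + 1, 0 => ext_Nb (G_Nb H A t 0) (one_Nb H A)
  | t + 1, f + 1 => ext_Nb (G_Nb H A t (f + 1)) (one_Nb H A) ∪ ext_Nb (G_Nb H A t f) (two_Nb H A)

lemma one_sub_Nb (H : ℕ → ℕ → Prop) (A T : Finset ℕ) : one_Nb H A T ⊆ A :=
  biUnion_subset.2 fun _ _ => nb_subset _ _ _

lemma two_sub_Nb (H : ℕ → ℕ → Prop) (A T : Finset ℕ) : two_Nb H A T ⊆ A :=
  biUnion_subset.2 fun _ _ => nb_subset _ _ _

lemma ext_sub_Nb {F : Finset (Finset ℕ)} {N : Finset ℕ → Finset ℕ} {A : Finset ℕ} {t : ℕ}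
    (hN : ∀ T, N T ⊆ A) (hF : ∀ T ∈ F, T ⊆ A ∧ T.card = t + 1) :
    ∀ C ∈ ext_Nb F N, C ⊆ A ∧ C.card = t + 1 + 1 := by
  intro C hC
  obtain ⟨T, hT, v, hv, hvT, rfl⟩ := mem_ext_Nb.1 hC
  exact ⟨insert_subset (hN T hv) (hF T hT).1, by rw [card_insert_of_notMem hvT, (hF T hT).2]⟩

lemma G_sub_Nb (H : ℕ → ℕ → Prop) (A : Finset ℕ) :
    ∀ t f, ∀ T ∈ G_Nb H A t f, T ⊆ A ∧ T.card = t + 1
  | 0, 0 => by
    intro T hT
    simp only [G_Nb, mem_image] at hT
    obtain ⟨v, hv, rfl⟩ := hT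
    exact ⟨singleton_subset_iff.2 hv, rfl⟩
  | 0, _ + 1 => by simp [G_Nb]
  | t + 1, 0 => ext_sub_Nb (one_sub_Nb H A) (G_sub_Nb H A t 0)
  | t + 1, f + 1 => by
    intro T hT
    rcases mem_union.1 hT with hT | hT
    · exact ext_sub_Nb (one_sub_Nb H A) (G_sub_Nb H A t (f + 1)) T hT
    · exact ext_sub_Nb (two_sub_Nb H A) (G_sub_Nb H A t f) T hT

lemma card_one_Nb {H : ℕ → ℕ → Prop} {A T : Finset ℕ} {r : ℕ} {Δ : ℝ} (h0 : 0 ≤ Δ)
    (hΔ : ∀ v ∈ A, ((nb H {v} A).card : ℝ) ≤ Δ) (hT : T ⊆ A) (hr : T.card ≤ r) :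
    ((one_Nb H A T).card : ℝ) ≤ r * Δ := by
  have h1 : (one_Nb H A T).card ≤ ∑ x ∈ T, (nb H {x} A).card := card_biUnion_le
  calc ((one_Nb H A T).card : ℝ) ≤ ∑ x ∈ T, ((nb H {x} A).card : ℝ) := by exact_mod_cast h1
    _ ≤ ∑ _x ∈ T, Δ := sum_le_sum fun x hx => hΔ x (hT hx)
    _ = T.card * Δ := by rw [sum_const, nsmul_eq_mul]
    _ ≤ r * Δ := mul_le_mul_of_nonneg_right (by exact_mod_cast hr) h0

lemma card_two_Nb {H : ℕ → ℕ → Prop} {A T : Finset ℕ} {r : ℕ} {q : ℝ} (h0 : 0 ≤ q)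
    (hq : ∀ x ∈ A, ∀ y ∈ A, x ≠ y → ((nb H {x, y} A).card : ℝ) ≤ q) (hT : T ⊆ A)
    (hr : T.card ≤ r) : ((two_Nb H A T).card : ℝ) ≤ r ^ 2 * q := by
  have h1 : (two_Nb H A T).card ≤ ∑ e ∈ T.offDiag, (nb H {e.1, e.2} A).card := card_biUnion_le
  have h2 : T.offDiag.card ≤ r ^ 2 := by
    rw [offDiag_card]
    calc T.card * T.card - T.card ≤ T.card * T.card := Nat.sub_le _ _
      _ ≤ r * r := Nat.mul_le_mul hr hr
      _ = r ^ 2 := (sq r).symm
  calc ((two_Nb H A T).card : ℝ) ≤ ∑ e ∈ T.offDiag, ((nb H {e.1, e.2} A).card : ℝ) := by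
        exact_mod_cast h1
    _ ≤ ∑ _e ∈ T.offDiag, q := sum_le_sum fun e he => by
        obtain ⟨a, b, c⟩ := mem_offDiag.1 he
        exact hq _ (hT a) _ (hT b) c
    _ = T.offDiag.card * q := by rw [sum_const, nsmul_eq_mul]
    _ ≤ r ^ 2 * q := mul_le_mul_of_nonneg_right (by exact_mod_cast h2) h0

lemma card_G_Nb {H : ℕ → ℕ → Prop} {A : Finset ℕ} {r : ℕ} {Δ q ρ d : ℝ} (h0 : 0 ≤ Δ)
    (q0 : 0 ≤ q) (ρ0 : 0 ≤ ρ) (hd : 1 ≤ d) (hr : r * Δ * ρ ≤ d)
    (hΔ : ∀ v ∈ A, ((nb H {v} A).card : ℝ) ≤ Δ)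
    (hq : ∀ x ∈ A, ∀ y ∈ A, x ≠ y → ((nb H {x, y} A).card : ℝ) ≤ q) :
    ∀ t, t ≤ r → ∀ f, ((G_Nb H A t f).card : ℝ) * ρ ^ (t + 1) ≤
      ρ * A.card * (2 * d) ^ t * (r ^ 2 * q * ρ) ^ f := by
  intro t
  induction t with
  | zero =>
    intro _ f
    rcases f with _ | f
    · have : ((G_Nb H A 0 0).card : ℝ) ≤ A.card := by
        simp only [G_Nb]; exact_mod_cast card_image_le
      simp only [zero_add, pow_one, pow_zero, mul_one]
      nlinarith
    · simp only [G_Nb, card_empty, Nat.cast_zero, zero_mul]; positivity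
  | succ t ih =>
    intro ht f
    have ih := ih (by omega)
    have e1 : ∀ f, ((ext_Nb (G_Nb H A t f) (one_Nb H A)).card : ℝ) * ρ ^ (t + 1 + 1) ≤
        d * (ρ * A.card * (2 * d) ^ t * (r ^ 2 * q * ρ) ^ f) := by
      intro f
      have h1 := card_ext_Nb (G_Nb H A t f) (one_Nb H A) (r * Δ) fun T hT =>
        card_one_Nb h0 hΔ (G_sub_Nb H A t f T hT).1 (by rw [(G_sub_Nb H A t f T hT).2]; exact ht)
      calc _ ≤ ((G_Nb H A t f).card * (r * Δ)) * ρ ^ (t + 1 + 1) :=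
            mul_le_mul_of_nonneg_right h1 (by positivity)
        _ = (r * Δ * ρ) * ((G_Nb H A t f).card * ρ ^ (t + 1)) := by ring
        _ ≤ _ := mul_le_mul hr (ih f) (by positivity) (by linarith)
    have e2 : ∀ f, ((ext_Nb (G_Nb H A t f) (two_Nb H A)).card : ℝ) * ρ ^ (t + 1 + 1) ≤
        ρ * A.card * (2 * d) ^ t * (r ^ 2 * q * ρ) ^ (f + 1) := by
      intro f
      have h1 := card_ext_Nb (G_Nb H A t f) (two_Nb H A) (r ^ 2 * q) fun T hT =>
        card_two_Nb q0 hq (G_sub_Nb H A t f T hT).1 (by rw [(G_sub_Nb H A t f T hT).2]; exact ht)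
      calc _ ≤ ((G_Nb H A t f).card * (r ^ 2 * q)) * ρ ^ (t + 1 + 1) :=
            mul_le_mul_of_nonneg_right h1 (by positivity)
        _ = (r ^ 2 * q * ρ) * ((G_Nb H A t f).card * ρ ^ (t + 1)) := by ring
        _ ≤ (r ^ 2 * q * ρ) * (ρ * A.card * (2 * d) ^ t * (r ^ 2 * q * ρ) ^ f) :=
            mul_le_mul_of_nonneg_left (ih f) (by positivity)
        _ = _ := by ring
    have d0 : 0 ≤ d := by linarith
    have key : ∀ f : ℕ, (d + 1) * (ρ * A.card * (2 * d) ^ t * (r ^ 2 * q * ρ) ^ f) ≤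
        ρ * A.card * (2 * d) ^ (t + 1) * (r ^ 2 * q * ρ) ^ f := by
      intro f
      calc _ ≤ (2 * d) * (ρ * A.card * (2 * d) ^ t * (r ^ 2 * q * ρ) ^ f) :=
            mul_le_mul_of_nonneg_right (by linarith) (by positivity)
        _ = _ := by ring
    rcases f with _ | f
    · have h1 := e1 0
      have h2 := key 0
      have h3 : 0 ≤ ρ * A.card * (2 * d) ^ t * (r ^ 2 * q * ρ) ^ 0 := by positivity
      simp only [G_Nb]
      linarith
    · have h1 := e1 (f + 1)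
      have h2 := e2 f
      have h3 := key (f + 1)
      have h4 : ((G_Nb H A (t + 1) (f + 1)).card : ℝ) ≤
          (ext_Nb (G_Nb H A t (f + 1)) (one_Nb H A)).card +
            (ext_Nb (G_Nb H A t f) (two_Nb H A)).card := by
        simp only [G_Nb]; exact_mod_cast card_union_le _ _
      have h5 := mul_le_mul_of_nonneg_right h4 (show 0 ≤ ρ ^ (t + 1 + 1) by positivity)
      linarith

lemma wt_biUnion_Nb {ι : Type} {ρ : ℝ} (h : 0 ≤ ρ) (s : Finset ι) (F : ι → Finset (Finset ℕ)) :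
    wt ρ (s.biUnion F) ≤ ∑ i ∈ s, wt ρ (F i) := by
  classical
  induction s using Finset.induction_on with
  | empty => simp [wt]
  | insert a s ha ih =>
    rw [biUnion_insert, sum_insert ha]
    exact (wt_union_le h _ _).trans (by linarith)

lemma step_one_Nb {H : ℕ → ℕ → Prop} {A C : Finset ℕ} {t f x v : ℕ} (hC : C ∈ G_Nb H A t f)
    (hv : v ∈ A) (hvC : v ∉ C) (hx : x ∈ C) (h : H x v) : insert v C ∈ G_Nb H A (t + 1) f := by
  have : insert v C ∈ ext_Nb (G_Nb H A t f) (one_Nb H A) :=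
    mem_ext_Nb.2 ⟨C, hC, v, mem_biUnion.2 ⟨x, hx, mem_nb_one.2 ⟨hv, h⟩⟩, hvC, rfl⟩
  rcases f with _ | f
  · exact this
  · exact mem_union_left _ this

lemma step_two_Nb {H : ℕ → ℕ → Prop} {A C : Finset ℕ} {t f x y v : ℕ} (hC : C ∈ G_Nb H A t f)
    (hv : v ∈ A) (hvC : v ∉ C) (hx : x ∈ C) (hy : y ∈ C) (hxy : x ≠ y) (h : H x v) (h' : H y v) :
    insert v C ∈ G_Nb H A (t + 1) (f + 1) :=
  mem_union_right _ (mem_ext_Nb.2 ⟨C, hC, v,
    mem_biUnion.2 ⟨(x, y), mem_offDiag.2 ⟨hx, hy, hxy⟩, mem_nb_two.2 ⟨hv, h, h'⟩⟩, hvC, rfl⟩)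

/-- A grown set with two independent classes covering all but `f` points. -/
def Gd_Nb (H : ℕ → ℕ → Prop) (A C : Finset ℕ) : Prop :=
  ∃ t f, ∃ I ⊆ C, ∃ J ⊆ C, C ∈ G_Nb H A t f ∧ Disjoint I J ∧ Indp H I ∧ Indp H J ∧
    I.card + J.card + f = t + 1

lemma indp_ins_Nb {H : ℕ → ℕ → Prop} (hH : Gr H) {I : Finset ℕ} {v : ℕ} (hI : Indp H I)
    (hv : ∀ x ∈ I, ¬ H x v) : Indp H (insert v I) := by
  intro x hx y hy
  rcases mem_insert.1 hx with h1 | h1 <;> rcases mem_insert.1 hy with h2 | h2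
  · rw [h1, h2]; exact hH.2 _
  · rw [h1]; exact fun h => hv y h2 (hH.1 _ _ h)
  · rw [h2]; exact hv x h1
  · exact hI x h1 y h2

lemma grow_Nb {H : ℕ → ℕ → Prop} (hH : Gr H) {A C : Finset ℕ} {x v : ℕ} (hC : Gd_Nb H A C)
    (hv : v ∈ A) (hvC : v ∉ C) (hx : x ∈ C) (h : H x v) : Gd_Nb H A (insert v C) := by
  obtain ⟨t, f, I, hI, J, hJ, hG, hd, iI, iJ, hc⟩ := hC
  have sI := hI.trans (subset_insert v C)
  have sJ := hJ.trans (subset_insert v C)
  by_cases h2 : ∃ y ∈ C, x ≠ y ∧ H y v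
  · obtain ⟨y, hy, hxy, h'⟩ := h2
    exact ⟨t + 1, f + 1, I, sI, J, sJ, step_two_Nb hG hv hvC hx hy hxy h h', hd, iI, iJ, by omega⟩
  · have hu : ∀ y ∈ C, H y v → x = y := fun y hy h' => by
      by_contra hxy
      exact h2 ⟨y, hy, hxy, h'⟩
    have hG' := step_one_Nb hG hv hvC hx h
    have vI : v ∉ I := fun h => hvC (hI h)
    have vJ : v ∉ J := fun h => hvC (hJ h)
    by_cases hxI : x ∈ I
    · refine ⟨t + 1, f, I, sI, insert v J, insert_subset_insert _ hJ, hG',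
        disjoint_insert_right.2 ⟨vI, hd⟩, iI, indp_ins_Nb hH iJ fun y hy h' => ?_, ?_⟩
      · exact disjoint_left.1 hd hxI (hu y (hJ hy) h' ▸ hy)
      · rw [card_insert_of_notMem vJ]; omega
    · refine ⟨t + 1, f, insert v I, insert_subset_insert _ hI, J, sJ, hG',
        disjoint_insert_left.2 ⟨vJ, hd⟩, indp_ins_Nb hH iI fun y hy h' => ?_, iJ, ?_⟩
      · exact hxI (hu y (hI hy) h' ▸ hy)
      · rw [card_insert_of_notMem vI]; omega

lemma comp_Nb {H : ℕ → ℕ → Prop} (hH : Gr H) {A S : Finset ℕ} (hS : S ⊆ A) (hne : S.Nonempty) :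
    ∃ C ⊆ S, Gd_Nb H A C ∧ ∀ x ∈ C, ∀ v ∈ S \ C, ¬ H x v := by
  classical
  obtain ⟨a, ha⟩ := hne
  have h0 : (S.powerset.filter (Gd_Nb H A)).Nonempty := by
    refine ⟨{a}, mem_filter.2 ⟨mem_powerset.2 (singleton_subset_iff.2 ha), 0, 0, {a}, Subset.rfl,
      ∅, empty_subset _, ?_, disjoint_empty_right _, ?_, ?_, by simp⟩⟩
    · simp only [G_Nb]; exact mem_image_of_mem _ (hS ha)
    · intro x hx y hy
      rw [mem_singleton.1 hx, mem_singleton.1 hy]; exact hH.2 a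
    · intro x hx; simp at hx
  obtain ⟨C, hC, hmax⟩ := exists_max_image _ card h0
  obtain ⟨h1, h2⟩ := mem_filter.1 hC
  rw [mem_powerset] at h1
  refine ⟨C, h1, h2, fun x hx v hv h => ?_⟩
  obtain ⟨vS, vC⟩ := mem_sdiff.1 hv
  have := hmax (insert v C) (mem_filter.2 ⟨mem_powerset.2 (insert_subset vS h1),
    grow_Nb hH h2 (hS vS) vC hx h⟩)
  rw [card_insert_of_notMem vC] at this
  omega

theorem nbP : NbP := by
  intro H hH A r g Δ q ρ d hg h0 q0 ρ0 hd hr hη hΔ hq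
  have d0 : 0 ≤ d := by linarith
  set s : Finset (ℕ × ℕ) := (range r ×ˢ range r).filter fun e => e.1 + 1 ≤ g * (e.2 + 1) with hs
  refine ⟨s.biUnion fun e => G_Nb H A e.1 (e.2 + 1), ?_, ?_, ?_⟩
  · intro T hT
    obtain ⟨e, _, he⟩ := mem_biUnion.1 hT
    exact card_pos.1 (by rw [(G_sub_Nb H A _ _ T he).2]; omega)
  · have hc : (s.card : ℝ) ≤ r ^ 2 := by
      have : s.card ≤ r ^ 2 := (card_filter_le _ _).trans (by simp [sq])
      exact_mod_cast this
    refine (wt_biUnion_Nb ρ0 _ _).trans ?_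
    calc ∑ e ∈ s, wt ρ (G_Nb H A e.1 (e.2 + 1))
        ≤ ∑ _e ∈ s, ((2 * d) ^ g * (r ^ 2 * q * ρ)) * (ρ * A.card) := by
          refine sum_le_sum fun e he => ?_
          obtain ⟨h1, h2⟩ := mem_filter.1 he
          have h3 : e.1 < r := mem_range.1 (mem_product.1 h1).1
          have h4 : wt ρ (G_Nb H A e.1 (e.2 + 1)) =
              (G_Nb H A e.1 (e.2 + 1)).card * ρ ^ (e.1 + 1) := by
            rw [wt, sum_congr rfl (g := fun _ => ρ ^ (e.1 + 1)) fun T hT => by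
              rw [(G_sub_Nb H A _ _ T hT).2], sum_const, nsmul_eq_mul]
          have h5 := card_G_Nb h0 q0 ρ0 hd hr hΔ hq e.1 h3.le (e.2 + 1)
          have h6 : (2 * d) ^ e.1 ≤ (2 * d) ^ (g * (e.2 + 1)) :=
            pow_le_pow_right₀ (by linarith) (by omega)
          have h7 : ((2 * d) ^ g * (r ^ 2 * q * ρ)) ^ (e.2 + 1) ≤ (2 * d) ^ g * (r ^ 2 * q * ρ) :=
            pow_le_of_le_one (by positivity) hη (by omega)
          rw [h4]
          calc _ ≤ ρ * A.card * (2 * d) ^ e.1 * (r ^ 2 * q * ρ) ^ (e.2 + 1) := h5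
            _ ≤ ρ * A.card * (2 * d) ^ (g * (e.2 + 1)) * (r ^ 2 * q * ρ) ^ (e.2 + 1) := by gcongr
            _ = ((2 * d) ^ g * (r ^ 2 * q * ρ)) ^ (e.2 + 1) * (ρ * A.card) := by
              rw [mul_pow ((2 * d) ^ g), ← pow_mul]; ring
            _ ≤ _ := mul_le_mul_of_nonneg_right h7 (by positivity)
      _ = s.card * (((2 * d) ^ g * (r ^ 2 * q * ρ)) * (ρ * A.card)) := by
          rw [sum_const, nsmul_eq_mul]
      _ ≤ r ^ 2 * (((2 * d) ^ g * (r ^ 2 * q * ρ)) * (ρ * A.card)) :=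
          mul_le_mul_of_nonneg_right hc (by positivity)
      _ = _ := by ring
  · intro S
    induction S using Finset.strongInduction with
    | H S ih =>
      intro hS hcard hB
      rcases S.eq_empty_or_nonempty with rfl | hne
      · exact ⟨∅, Subset.rfl, 0, fun x hx => by simp at hx, by simp, by simp⟩
      obtain ⟨C, hCS, ⟨t, f, I, hI, J, hJ, hG, -, iI, iJ, hc⟩, hno⟩ := comp_Nb hH hS hne
      have hC := (G_sub_Nb H A _ _ C hG).2
      have hle := card_le_card hCS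
      have hgf : g * f ≤ t + 1 := by
        rcases f with _ | f
        · simp
        · by_contra hlt
          refine hB C (mem_biUnion.2 ⟨(t, f), mem_filter.2 ⟨mem_product.2
            ⟨mem_range.2 ?_, mem_range.2 ?_⟩, ?_⟩, hG⟩) hCS
          · show t < r
            omega
          · show f < r
            omega
          · show t + 1 ≤ g * (f + 1)
            omega
      have hss : S \ C ⊂ S := sdiff_ssubset hCS (card_pos.1 (by omega))
      have hcd := card_sdiff_add_card_eq_card hCS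
      obtain ⟨I', hI', f', iI', h1, h2⟩ := ih (S \ C) hss (sdiff_subset.trans hS) (by omega)
        fun T hT h => hB T hT (h.trans sdiff_subset)
      have fin : ∀ K ⊆ C, Indp H K → t + 1 ≤ 2 * K.card + f →
          ∃ I ⊆ S, ∃ f : ℕ, Indp H I ∧ g * f ≤ S.card ∧ S.card ≤ 2 * I.card + f := by
        intro K hK iK hk
        have hdj : Disjoint K I' :=
          disjoint_left.2 fun x hx hx' => (mem_sdiff.1 (hI' hx')).2 (hK hx)
        refine ⟨K ∪ I', union_subset (hK.trans hCS) (hI'.trans sdiff_subset), f + f', ?_, ?_, ?_⟩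
        · intro x hx y hy
          rcases mem_union.1 hx with hx | hx <;> rcases mem_union.1 hy with hy | hy
          · exact iK x hx y hy
          · exact hno x (hK hx) y (hI' hy)
          · exact fun h => hno y (hK hy) x (hI' hx) (hH.1 _ _ h)
          · exact iI' x hx y hy
        · rw [mul_add]; omega
        · rw [card_union_of_disjoint hdj]; omega
      rcases le_total I.card J.card with h | h
      · exact fin J hJ iJ (by omega)
      · exact fin I hI iI (by omega)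

end Pool.Agent.MP_251804_lc.Ed

end

section

namespace Pool.Agent.MP_251804_lc.Ed
open Finset Filter

lemma fill_Trip {ε : ℝ} (hε3 : 1 / 3 < ε) (hε2 : ε < 1 / 2) : ∀ᶠ n : ℕ in atTop, ∀ k r : ℕ,
    2 ≤ k → 2 ≤ r → CertAt n ⌊(n : ℝ) ^ ε⌋₊ k 3 r →
      Good ⌊((n + 1 : ℕ) : ℝ) ^ (1 - ε)⌋₊ k 3 (r + 1) := by
  have hε : 0 < ε := by linarith
  have hev : ∀ᶠ n : ℕ in atTop, 400 * (4 * Real.log (3 * n) + 2 * Real.log (4 * n) + 1)
      ≤ (n : ℝ) ^ ((3 * ε - 1) / 2) := ev_log (by linarith) (by norm_num)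
  filter_upwards [hev, ev_rpow hε 2, eventually_ge_atTop 3] with n h4 h3 hn k r hk hr hc
  have n3 : (3 : ℝ) ≤ n := by exact_mod_cast hn
  have n0 : (0 : ℝ) < n := by linarith
  have hw := half_le_floor (show 1 ≤ (n : ℝ) ^ ε by linarith)
  set w := ⌊(n : ℝ) ^ ε⌋₊
  set N := ⌊((n + 1 : ℕ) : ℝ) ^ (1 - ε)⌋₊ with hNdef
  have w0 : (0 : ℝ) < w := by linarith
  have l3 : 0 ≤ Real.log (3 * n) := Real.log_nonneg (by linarith)
  have l4 : 0 ≤ Real.log (4 * n) := Real.log_nonneg (by linarith)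
  have hN2 : (N : ℝ) ≤ 2 * (n : ℝ) ^ (1 - ε) := succ_rpow_le (by omega) hε (by linarith)
  have e1 : (n : ℝ) ^ (1 - ε) * (n : ℝ) ^ ε = n := by rw [← Real.rpow_add n0]; simp
  have p1 : 0 < (n : ℝ) ^ (1 - ε) := by positivity
  have hNn : N ≤ n := by
    have : (N : ℝ) ≤ n := by nlinarith
    exact_mod_cast this
  have hN1 : 1 ≤ N := (Nat.one_le_floor_iff _).2
    (Real.one_le_rpow (by push_cast; linarith) (by linarith))
  have N1 : (1 : ℝ) ≤ N := by exact_mod_cast hN1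
  have Nn : (N : ℝ) ≤ n := by exact_mod_cast hNn
  have q0 : 0 < (n : ℝ) ^ ε := by positivity
  have hp : 150 * (N * (40 * Real.log (3 * n) / w) ^ 2) ≤ 1 := by
    have b1 : 1600 * Real.log (3 * n) ≤ (n : ℝ) ^ ((3 * ε - 1) / 2) := by linarith
    have b2 := mul_self_le_mul_self (by positivity) b1
    have b3 : (n : ℝ) ^ ((3 * ε - 1) / 2) * (n : ℝ) ^ ((3 * ε - 1) / 2) * (n : ℝ) ^ (1 - ε) =
        (n : ℝ) ^ ε * (n : ℝ) ^ ε := by
      simp only [← Real.rpow_add n0]; congr 1; ring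
    have b4 := mul_self_le_mul_self (by positivity) hw
    have b5 := mul_le_mul_of_nonneg_right b2 p1.le
    have b6 := mul_le_mul_of_nonneg_right hN2 (mul_self_nonneg (Real.log (3 * n)))
    rw [div_pow, ← mul_div_assoc, ← mul_div_assoc, div_le_one (by positivity)]
    nlinarith
  have hp1 : 40 * Real.log (3 * n) / w ≤ 1 := by
    by_contra hlt
    push Not at hlt
    nlinarith
  obtain ⟨H, hH, a1, a2⟩ := exists_trifree (N := N) (w := w) (p := 40 * Real.log (3 * n) / w)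
    hN1 (by positivity) hp1 (by
      rw [div_mul_cancel₀ _ w0.ne']
      have := Real.log_le_log (x := 3 * N) (y := 3 * n) (by positivity) (by linarith)
      linarith) hp
  refine hc.fill hNn (by exact_mod_cast w0) hk (by omega)
    (fun a b => H a b ∧ a < N ∧ b < N ∧ a ≠ b)
    (fun a b h => ⟨hH _ _ h.1, h.2.2.1, h.2.1, h.2.2.2.symm⟩) ?_ ?_ ?_
  · intro S hS hcard
    obtain ⟨x, hx, y, hy, b1, b2⟩ := a1 S hS hcard
    exact ⟨x, hx, y, hy, b1, b2, mem_range.1 (hS hx), mem_range.1 (hS hy), b1⟩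
  · intro S hS hcard
    by_contra hno
    push Not at hno
    obtain ⟨x, hx, y, hy, z, hz, b1, b2, b3⟩ := two_lt_card.1 (show 2 < S.card by omega)
    exact a2 x y z (mem_range.1 (hS hx)) (mem_range.1 (hS hy)) (mem_range.1 (hS hz)) b1 b2 b3
      (hno x hx y hy b1).1 (hno x hx z hz b2).1 (hno y hy z hz b3).1
  · intro x y z b1 b2 b3
    exact (a2 x y z b1.2.1 b1.2.2.1 b2.2.2.1 b1.2.2.2 b2.2.2.2 b3.2.2.2 b1.1 b2.1 b3.1).elim

lemma floor_le_Trip {ε : ℝ} (h1 : 49 / 100 < ε) {a b : ℕ} (hab : 51 * a ≤ 49 * b) :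
    ⌊((2 ^ a : ℕ) : ℝ) ^ (1 - ε)⌋₊ ≤ ⌊((2 ^ b : ℕ) : ℝ) ^ ε⌋₊ := by
  refine Nat.floor_le_floor ?_
  push_cast
  rw [← Real.rpow_natCast, ← Real.rpow_natCast, ← Real.rpow_mul (by norm_num),
    ← Real.rpow_mul (by norm_num)]
  refine Real.rpow_le_rpow_of_exponent_le (by norm_num) ?_
  have h2 : (51 : ℝ) * a ≤ 49 * b := by exact_mod_cast hab
  have a0 : (0 : ℝ) ≤ a := Nat.cast_nonneg _
  have b0 : (0 : ℝ) ≤ b := Nat.cast_nonneg _
  nlinarith

theorem tripP : TripP := by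
  intro ε h1 h2 k N hk hmono hev
  have hε : 0 < ε := by linarith
  obtain ⟨M, hM⟩ := eventually_atTop.1 (hev.and ((fill_Trip (by linarith) h2).and
    ((ev_rpow hε 3).and ((eventually_ge_atTop N).and (eventually_ge_atTop 1)))))
  choose! r hr using fun n hn => (hM n hn).1
  have km : ∀ x y, M ≤ x → x ≤ y → k x ≤ k y := fun x y hx hxy =>
    hmono (hM x hx).2.2.2.1 (hM y (hx.trans hxy)).2.2.2.1 hxy
  have f3 : ∀ x, M ≤ x → 3 ≤ ⌊(x : ℝ) ^ ε⌋₊ := fun x hx =>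
    Nat.le_floor (by exact_mod_cast (hM x hx).2.2.1)
  have gd : ∀ x, M ≤ x → Good ⌊(x : ℝ) ^ ε⌋₊ (k x) 3 (r x) := fun x hx =>
    (hr x hx).2.good (floor_rpow_le (hM x hx).2.2.2.2 (by linarith))
      (by have := f3 x hx; omega)
  have r3 : ∀ x, M ≤ x → 3 < r x := fun x hx => (gd x hx).lt_of_le (f3 x hx)
  have rs : ∀ x, M ≤ x → r (x + 1) ≤ r x := by
    intro x hx
    have a1 := (hM x hx).2.1 (k x) (r x) (hk x) (by have := r3 x hx; omega) (hr x hx).2
    by_contra hlt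
    exact (hr (x + 1) (by omega)).1 (a1.mono le_rfl (km x (x + 1) hx (by omega)) (by omega))
  have ra : ∀ x y, M ≤ x → x ≤ y → r y ≤ r x := by
    intro x y hx hxy
    induction y, hxy using Nat.le_induction with
    | base => exact le_rfl
    | succ y hy ih => exact (rs y (hx.trans hy)).trans ih
  have pm : ∀ a b : ℕ, a ≤ b → 2 ^ a ≤ 2 ^ b := fun a b h =>
    Nat.pow_le_pow_right (by norm_num) h
  have c1 : ∀ a b : ℕ, M ≤ 2 ^ a → 51 * a ≤ 49 * b → k (2 ^ a) < k (2 ^ b) := by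
    intro a b ha hab
    have hle : 2 ^ a ≤ 2 ^ b := pm a b (by omega)
    by_contra hlt
    exact (hr _ ha).1 ((gd _ (ha.trans hle)).mono (floor_le_Trip h1 hab) (by omega)
      (ra _ _ ha hle))
  have c2 : ∀ t : ℕ, M ≤ 2 ^ (16 * t) → ∀ i ≤ 9, k (2 ^ (16 * t)) + i ≤ k (2 ^ ((16 + i) * t)) := by
    intro t ht i
    induction i with
    | zero => intro _; simp
    | succ i ih =>
      intro hi
      have a1 := ih (by omega)
      have a2 := c1 ((16 + i) * t) ((16 + (i + 1)) * t)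
        (ht.trans (pm _ _ (Nat.mul_le_mul_right t (by omega)))) (by
          rw [← mul_assoc, ← mul_assoc]
          exact Nat.mul_le_mul_right t (by omega))
      omega
  have c3 : ∀ t : ℕ, M ≤ 2 ^ (16 * t) → k (2 ^ (16 * t)) + 9 ≤ k (2 ^ (32 * t)) := by
    intro t ht
    have a1 := c2 t ht 9 le_rfl
    have a2 := km (2 ^ ((16 + 9) * t)) (2 ^ (32 * t)) (ht.trans (pm _ _ (by omega)))
      (pm _ _ (by omega))
    omega
  have hb : ∀ j : ℕ, M ≤ 2 ^ 2 ^ (M + j + 4) := by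
    intro j
    have a1 : M + j + 4 < 2 ^ (M + j + 4) := Nat.lt_two_pow_self
    have a2 : 2 ^ (M + j + 4) < 2 ^ 2 ^ (M + j + 4) := Nat.lt_two_pow_self
    omega
  have c4 : ∀ j : ℕ, 9 * j ≤ k (2 ^ 2 ^ (M + j + 4)) := by
    intro j
    induction j with
    | zero => omega
    | succ j ih =>
      have e1 : 2 ^ (M + j + 4) = 16 * 2 ^ (M + j) := by ring
      have e2 : 2 ^ (M + (j + 1) + 4) = 32 * 2 ^ (M + j) := by ring
      have a1 := c3 (2 ^ (M + j)) (by rw [← e1]; exact hb j)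
      rw [e2]
      rw [e1] at ih
      omega
  obtain ⟨j, hj⟩ : ∃ j, j = 35 * M + 140 := ⟨_, rfl⟩
  have a1 := c4 j
  have a2 := hb j
  have a3 := r3 _ a2
  have a4 : ¬ Good (2 ^ 2 ^ (M + j + 4)) (k (2 ^ 2 ^ (M + j + 4))) 3 (r (2 ^ 2 ^ (M + j + 4))) :=
    fun h => (hr _ a2).1 (h.mono (floor_rpow_le (hM _ a2).2.2.2.2 (by linarith)) le_rfl le_rfl)
  have a5 := bound3 a4 (by omega) a3
  have a6 : (9 * j) * 4 ≤ k (2 ^ 2 ^ (M + j + 4)) * r (2 ^ 2 ^ (M + j + 4)) :=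
    Nat.mul_le_mul a1 a3
  omega

end Pool.Agent.MP_251804_lc.Ed

end

section

namespace Pool.Agent.MP_251804_lc.Ed
open Finset Filter

lemma gamma_Step (k : ℕ) : ∃ γ : ℝ, 0 < γ ∧ γ ≤ 1 / 25 ∧ (3 ≤ k →
    0 < Real.log (1001 / 1000 * ((k : ℝ) - 2)) ∧
    1 ≤ Real.log (101 / 100 * ((k : ℝ) - 2)) / Real.log (1001 / 1000 * ((k : ℝ) - 2)) *
      (1 - 10 * γ)) := by
  by_cases hk : 3 ≤ k
  · have k3 : (3 : ℝ) ≤ k := by exact_mod_cast hk
    have b0 : 0 < Real.log (1001 / 1000 * ((k : ℝ) - 2)) := Real.log_pos (by linarith)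
    have b1 : Real.log (1001 / 1000 * ((k : ℝ) - 2)) < Real.log (101 / 100 * ((k : ℝ) - 2)) :=
      Real.log_lt_log (by linarith) (by linarith)
    set β := Real.log (1001 / 1000 * ((k : ℝ) - 2))
    set lam := Real.log (101 / 100 * ((k : ℝ) - 2))
    have l0 : 0 < lam := by linarith
    have t1 : β / lam < 1 := (div_lt_one l0).2 b1
    refine ⟨min (1 / 25) ((1 - β / lam) / 10), lt_min (by norm_num) (by linarith),
      min_le_left _ _, fun _ => ⟨b0, ?_⟩⟩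
    have t2 : β / lam ≤ 1 - 10 * min (1 / 25) ((1 - β / lam) / 10) := by
      have := min_le_right (1 / 25 : ℝ) ((1 - β / lam) / 10)
      linarith
    calc (1 : ℝ) = lam / β * (β / lam) := by field_simp
      _ ≤ _ := mul_le_mul_of_nonneg_left t2 (by positivity)
  · exact ⟨1 / 25, by norm_num, le_rfl, fun h => absurd h hk⟩

theorem stepP (hR : RasP) (hI : IasP) (hWk : WalkP) (hSp : SplitP) (hW : WasP) (hD : DenseP)
    (hF : FillP) (hE : EsP) (hS : SawinP) : StepP := by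
  intro k hk
  obtain ⟨r₀, hr₀⟩ := hS
  obtain ⟨γ, γ0, γ1, γ2⟩ := gamma_Step k
  have k2 : (2 : ℝ) ≤ k := by exact_mod_cast hk
  set β := Real.log (1001 / 1000 * ((k : ℝ) - 2)) with hβ
  set lam := Real.log (101 / 100 * ((k : ℝ) - 2)) with hlam
  set g := max 200 ⌈4 * k * Real.log (2000 * k) / γ⌉₊ with hg
  have g1 : 200 ≤ g := le_max_left _ _
  have g2 : 4 * k * Real.log (2000 * k) / γ ≤ g :=
    (Nat.le_ceil _).trans (Nat.cast_le.2 (le_max_right _ _))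
  have gR : (200 : ℝ) ≤ g := by exact_mod_cast g1
  refine ⟨g, g1, min (1 / 100) (γ / (4 * g + 7)), lt_min (by norm_num) (by positivity),
    fun μ h0 h1 => ?_⟩
  have h2 : μ ≤ 1 / 100 := h1.trans (min_le_left _ _)
  have h3 : (4 * g + 7) * μ ≤ γ := by
    have := h1.trans (min_le_right _ _)
    rwa [le_div_iff₀' (by positivity)] at this
  have hD' : ∀ᶠ n : ℕ in atTop, 3 ≤ k → ∀ H, RndA μ n H →
      ∀ (k u r : ℕ) (c : Finset ℕ → ℕ) (X : Finset ℕ),
      X ⊆ range n → (n : ℝ) ^ (1 - γ) ≤ X.card → (∀ T, c T < k) → u < k → g ≤ r →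
      (r : ℝ) ≤ 4 * Real.log n → lam / β * β * r ≤ (1 / 2 + μ) * Real.log n →
      Real.exp (-β) * X.card ^ 2 ≤ ec (col H c u) X → ¬ Has (col H c u) (r - r / g) X →
      (∀ j < k, j ≠ u → ¬ Has (col H c j) r X) → Good ⌊(n : ℝ) ^ (1 / 2 + μ)⌋₊ k 2 r := by
    by_cases k3 : 3 ≤ k
    · exact (hD g β (lam / β) γ μ (by omega) (γ2 k3).1 γ0 γ1 (γ2 k3).2 h0 h3).mono
        fun n hn _ => hn
    · exact Eventually.of_forall fun n h => absurd h k3
  have l2 : 0 ≤ Real.log (2 * k) := Real.log_nonneg (by linarith)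
  filter_upwards [hR μ h0 h2, hI μ h0 h2, hW μ h0 h2, hD', r_bounds_ThA h0 h2,
    ev_logge (4 * (1 + k * (max g r₀ : ℕ) * Real.log (2 * k))), eventually_ge_atTop 1]
    with n ⟨H, hH⟩ a1 a2 a3 a4 a5 hn r hg hc
  have nR : (1 : ℝ) ≤ n := by exact_mod_cast hn
  have n0 : (0 : ℝ) < n := by linarith
  have l0 : 0 ≤ Real.log n := Real.log_nonneg nR
  obtain ⟨r3, r4, r5⟩ := a4 k r hk hg hc
  have rbig : max g r₀ ≤ r := by
    by_contra hlt
    have b1 : (r : ℝ) ≤ (max g r₀ : ℕ) := by exact_mod_cast (not_le.1 hlt).le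
    have b2 := hE k r n _ (by omega) hn r5
    have b3 : (k : ℝ) * r * Real.log (2 * k) ≤ k * (max g r₀ : ℕ) * Real.log (2 * k) := by
      gcongr
    have b4 : (0 : ℝ) ≤ k * (max g r₀ : ℕ) * Real.log (2 * k) := by positivity
    nlinarith
  obtain ⟨c, c1, c2⟩ := cert_col hH hc
  obtain ⟨X, x1, x2, x3⟩ := hWk (col H c) (col_gr hH.gr c) k r (r / g) (range n) (1 / (2000 * k))
    (by positivity) (by rw [div_le_one (by positivity)]; linarith)
    (nonempty_range_iff.2 (by omega)) (fun i _ => c2 i)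
  have x4 : (n : ℝ) ^ (1 - γ) ≤ X.card := by
    refine le_trans ?_ x2
    have l3 : 0 ≤ Real.log (2000 * k) := Real.log_nonneg (by linarith)
    have b1 : ((r / g : ℕ) : ℝ) ≤ r / g := Nat.cast_div_le
    have b2 : ((r / g : ℕ) : ℝ) * g ≤ 4 * Real.log n := by
      rw [le_div_iff₀ (by linarith)] at b1; linarith
    rw [div_le_iff₀ γ0] at g2
    have b3 : (k * (r / g : ℕ) : ℝ) * Real.log (2000 * k) ≤ γ * Real.log n := by
      have b4 : (0 : ℝ) ≤ ((r / g : ℕ) : ℝ) := Nat.cast_nonneg _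
      nlinarith [mul_le_mul_of_nonneg_left g2 b4, mul_le_mul_of_nonneg_left b2 γ0.le]
    rw [card_range, Real.rpow_sub n0, Real.rpow_one, div_eq_inv_mul, one_div, inv_pow]
    refine mul_le_mul_of_nonneg_right (inv_anti₀ (by positivity) ?_) n0.le
    rw [← Real.log_le_log_iff (by positivity) (by positivity), Real.log_pow, Real.log_rpow n0]
    push_cast
    exact b3
  have x5 : (n : ℝ) ^ (24 / 25 : ℝ) ≤ X.card :=
    (Real.rpow_le_rpow_of_exponent_le nR (by linarith)).trans x4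
  have x6 : X.Nonempty := by
    rw [← card_pos]
    have : (0 : ℝ) < X.card := lt_of_lt_of_le (by positivity) x4
    exact_mod_cast this
  rcases hSp H k (r - r / g) c X hk c1 x6 x3 ((a1 H hH).2 X x1 x5) with
    ⟨u, hu, hj⟩ | ⟨k3, u, hu, u1, u2⟩
  · have hle : r / g ≤ r / 200 := Nat.div_le_div_left g1 (by norm_num)
    have s8 : ((r + 7 * (r / g) : ℕ) : ℝ) ≤ 8 * Real.log n := by
      have : ((r + 7 * (r / g) : ℕ) : ℝ) ≤ (2 * r : ℕ) := by exact_mod_cast (by omega)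
      push_cast at this ⊢
      linarith
    rcases a2 H hH k u r (r / g) (r + 7 * (r / g)) c X x1 x5 c1 hu (by omega) (by omega) s8
      (fun h => c2 u (h.sub x1)) (fun j _ _ h => c2 j ((h.sub x1).le (by omega))) with
      ⟨Z, z1, z2, z3⟩ | h
    · obtain ⟨I, i1, i2, i3⟩ := (a1 H hH).1 Z (z1.trans x1) z2
      refine Or.inl (hF H hH.gr k u _ _ c I c1 hu i2.ge ?_
        fun j j1 j2 h => hj j j1 j2 (h.sub (i1.trans z1)))
      rintro ⟨S, s1, s2, s3⟩
      exact z3 ⟨S, s1.trans i1, s2, fun x hx y hy hxy =>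
        (s3 x hx y hy hxy).resolve_right (i3 x (s1 hx) y (s1 hy))⟩
    · exact Or.inr h
  · have k3R : (3 : ℝ) ≤ k := by exact_mod_cast k3
    have β0 := (γ2 k3).1
    refine absurd (a3 k3 H hH k u r c X x1 x4 c1 hu (le_of_max_le_left rbig) r4 ?_ ?_ u1
      (fun j _ _ h => c2 j (h.sub x1))) hg
    · rw [div_mul_cancel₀ _ β0.ne']
      have b1 : ⌈(101 / 100 * ((k : ℝ) - 2)) ^ r⌉₊ < ⌊(n : ℝ) ^ (1 / 2 + μ)⌋₊ := by
        by_contra hlt
        exact hg ((hr₀ k r k3 (le_of_max_le_right rbig)).mono (not_lt.1 hlt) le_rfl le_rfl)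
      have b2 : (101 / 100 * ((k : ℝ) - 2)) ^ r ≤ (n : ℝ) ^ (1 / 2 + μ) :=
        (Nat.le_ceil _).trans (le_trans (by exact_mod_cast b1.le) (Nat.floor_le (by positivity)))
      have b3 := Real.log_le_log (pow_pos (by linarith) r) b2
      rw [Real.log_pow, Real.log_rpow n0] at b3
      linarith
    · have b1 : (0 : ℝ) < 1001 / 1000 * ((k : ℝ) - 2) := by linarith
      rw [Real.exp_neg, hβ, Real.exp_log b1, inv_mul_le_iff₀ b1]
      exact u2

end Pool.Agent.MP_251804_lc.Ed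

end
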