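import Pool.Agent.Mg.F251804a.Ge2be69

section

namespace Pool.Agent.MP_251804_lc.Ed
open Finset Filter

/-- The increasing pair with entries `x` and `z`. -/
def mm_Rnd (x z : ℕ) : ℕ × ℕ := (min x z, max x z)

/-- The pairs joining `x` or `y` to a point of `T`. -/
def star_Rnd (x y : ℕ) (T : Finset ℕ) : Finset (ℕ × ℕ) :=
  T.image (mm_Rnd x) ∪ T.image (mm_Rnd y)

lemma card_star_Rnd {x y : ℕ} {T : Finset ℕ} (hxy : x ≠ y) (hy : y ∉ T) :
    (star_Rnd x y T).card = 2 * T.card := by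
  have inj : ∀ a, Function.Injective (mm_Rnd a) := fun a z z' h => by
    simp only [mm_Rnd, Prod.mk.injEq] at h
    omega
  rw [star_Rnd, card_union_of_disjoint, card_image_of_injective _ (inj x),
    card_image_of_injective _ (inj y), two_mul]
  refine disjoint_left.2 fun e h1 h2 => ?_
  obtain ⟨z, hz, rfl⟩ := mem_image.1 h1
  obtain ⟨z', -, h⟩ := mem_image.1 h2
  simp only [mm_Rnd, Prod.mk.injEq] at h
  have : z ≠ y := fun h' => hy (h' ▸ hz)
  omega

lemma star_sub_Rnd {n x y : ℕ} {T : Finset ℕ} (hx : x ∈ range n) (hy : y ∈ range n)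
    (hT : T ⊆ range n \ {x, y}) : star_Rnd x y T ⊆ prs (range n) := by
  intro e he
  have key : ∀ a ∈ range n, ∀ z ∈ range n, z ≠ a → mm_Rnd a z ∈ prs (range n) := by
    intro a ha z hz hne
    simp only [mem_prs, mm_Rnd, mem_range] at ha hz ⊢
    omega
  rcases mem_union.1 he with h | h <;> obtain ⟨z, hz, rfl⟩ := mem_image.1 h <;>
    obtain ⟨h1, h2⟩ := mem_sdiff.1 (hT hz) <;> simp only [mem_insert, mem_singleton, not_or] at h2
  · exact key x hx z h1 h2.1
  · exact key y hy z h1 h2.2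

lemma num_Rnd {n t : ℕ} {p q : ℝ} (hn : 1 ≤ n) (hq : 9 * n * p ^ 2 ≤ q)
    (hq' : 2 * Real.log (2 * n) ≤ q) (ht : q < t) :
    (n : ℝ) * n * (n.choose t * p ^ (2 * t)) ≤ 1 / 3 := by
  have hnR : (1 : ℝ) ≤ n := by exact_mod_cast hn
  have hf : (0 : ℝ) < t.factorial := by exact_mod_cast t.factorial_pos
  have h1 : (n.choose t : ℝ) ≤ (n : ℝ) ^ t / t.factorial := Nat.choose_le_pow_div t n
  have h2 : (t : ℝ) ^ t / t.factorial ≤ Real.exp t :=
    Real.pow_div_factorial_le_exp _ (Nat.cast_nonneg t) t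
  have h3 : ((n : ℝ) * p ^ 2) ^ t ≤ ((t : ℝ) * (1 / 9)) ^ t :=
    pow_le_pow_left₀ (by positivity) (by linarith) t
  have h4 : (1 / 9 : ℝ) ^ t ≤ Real.exp (-2) ^ t := by
    refine pow_le_pow_left₀ (by norm_num) ?_ t
    have h5 : Real.exp 2 ≤ 9 := by
      have := Real.exp_one_lt_d9
      have h6 : Real.exp 2 = Real.exp 1 * Real.exp 1 := by rw [← Real.exp_add]; norm_num
      nlinarith [Real.exp_pos 1]
    rw [Real.exp_neg, one_div]
    exact inv_anti₀ (Real.exp_pos 2) h5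
  have h5 : Real.exp t * Real.exp (-2) ^ t ≤ 1 / (2 * n) ^ 2 := by
    have h6 : (1 / (2 * n) ^ 2 : ℝ) = Real.exp (-(2 * Real.log (2 * n))) := by
      rw [Real.exp_neg, show 2 * Real.log (2 * n) = Real.log ((2 * n) ^ 2) by
        rw [Real.log_pow]; norm_num, Real.exp_log (by positivity), one_div]
    rw [← Real.exp_nat_mul, ← Real.exp_add, h6]
    exact Real.exp_le_exp.2 (by linarith)
  have h6 : (n.choose t : ℝ) * p ^ (2 * t) ≤ 1 / (2 * n) ^ 2 := by
    calc (n.choose t : ℝ) * p ^ (2 * t) = n.choose t * (p ^ 2) ^ t := by rw [pow_mul]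
      _ ≤ (n : ℝ) ^ t / t.factorial * (p ^ 2) ^ t := by gcongr
      _ = ((n : ℝ) * p ^ 2) ^ t / t.factorial := by rw [mul_pow]; ring
      _ ≤ ((t : ℝ) * (1 / 9)) ^ t / t.factorial := by gcongr
      _ = (t : ℝ) ^ t / t.factorial * (1 / 9) ^ t := by rw [mul_pow]; ring
      _ ≤ Real.exp t * Real.exp (-2) ^ t := by gcongr
      _ ≤ _ := h5
  calc (n : ℝ) * n * (n.choose t * p ^ (2 * t)) ≤ n * n * (1 / (2 * n) ^ 2) := by gcongr
    _ = 1 / 4 := by field_simp; norm_num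
    _ ≤ 1 / 3 := by norm_num

theorem rndP : RndP := by
  classical
  intro n w p q hn h0 h1 hw hq hq'
  have hnR : (1 : ℝ) ≤ n := by exact_mod_cast hn
  have hq0 : 0 ≤ q := le_trans (by positivity) hq
  set t := ⌊q⌋₊ + 1 with ht
  have htq : q < t := by rw [ht]; push_cast; exact Nat.lt_floor_add_one q
  set P := prs (range n) with hP
  set L := Real.log (4 * n) with hL
  have hL0 : 0 ≤ L := Real.log_nonneg (by linarith)
  let Z₁ : Finset (ℕ × ℕ) → ℝ := fun E => ∑ S ∈ powersetCard (w + 1) (range n),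
    ∏ e ∈ prs S, (if e ∈ E then (0 : ℝ) else 1)
  let Z₂ : Finset (ℕ × ℕ) → ℝ := fun E => ∑ a ∈ (range n).offDiag,
    ∑ T ∈ powersetCard t (range n \ {a.1, a.2}),
      ∏ e ∈ star_Rnd a.1 a.2 T, (if e ∈ E then (1 : ℝ) else 0)
  let Z₃ : Finset (ℕ × ℕ) → ℝ := fun E => ∑ X ∈ (range n).powerset.erase ∅,
    Real.exp (-(p * X.card ^ 2 + L * X.card)) * ∏ e ∈ prs X, (if e ∈ E then Real.exp 1 else 1)
  have e1 : ∑ E ∈ P.powerset, wgt p P E * Z₁ E ≤ 1 / 3 := by
    simp only [Z₁, mul_sum]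
    rw [sum_comm]
    refine (sum_card_le (x := 1 / (3 * n)) (by positivity) _ fun S hS => ?_).trans ?_
    · obtain ⟨hS1, hS2⟩ := mem_powersetCard.1 hS
      rw [exp_prod p 0 1 (prs_mono hS1), card_prs, hS2, mul_zero, zero_add, mul_one]
      calc _ ≤ Real.exp (-p) ^ (w + 1).choose 2 :=
            pow_le_pow_left₀ (by linarith) (by linarith [Real.add_one_le_exp (-p)]) _
        _ = Real.exp (-(p * w / 2)) ^ (w + 1) := by
            rw [← Real.exp_nat_mul, ← Real.exp_nat_mul, cast_choose_two]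
            congr 1
            push_cast
            ring
        _ ≤ _ := by
            refine pow_le_pow_left₀ (by positivity) ?_ _
            rw [one_div, ← Real.exp_log (show (0 : ℝ) < 3 * n by positivity), ← Real.exp_neg]
            exact Real.exp_le_exp.2 (by linarith)
    · have : (n : ℝ) * (1 / (3 * n)) = 1 / 3 := by field_simp
      rw [this]
      exact pow_le_of_le_one (by norm_num) (by norm_num) (by omega)
  have e2 : ∑ E ∈ P.powerset, wgt p P E * Z₂ E ≤ 1 / 3 := by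
    simp only [Z₂, mul_sum]
    rw [sum_comm]
    have h3 : ∀ a ∈ (range n).offDiag, ∑ E ∈ P.powerset,
        ∑ T ∈ powersetCard t (range n \ {a.1, a.2}), wgt p P E *
          ∏ e ∈ star_Rnd a.1 a.2 T, (if e ∈ E then (1 : ℝ) else 0) ≤
        n.choose t * p ^ (2 * t) := by
      intro a ha
      obtain ⟨a1, a2, a3⟩ := mem_offDiag.1 ha
      rw [sum_comm]
      refine (sum_le_card_nsmul _ _ (p ^ (2 * t)) fun T hT => ?_).trans ?_
      · obtain ⟨hT1, hT2⟩ := mem_powersetCard.1 hT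
        rw [exp_prod p 1 0 (star_sub_Rnd a1 a2 hT1), card_star_Rnd a3 fun h => by
          simpa using (mem_sdiff.1 (hT1 h)).2, hT2, mul_zero, add_zero, mul_one]
      · rw [card_powersetCard, nsmul_eq_mul]
        have h4 : (range n \ {a.1, a.2}).card ≤ n :=
          (card_le_card sdiff_subset).trans (card_range n).le
        have h5 : (((range n \ {a.1, a.2}).card.choose t : ℕ) : ℝ) ≤ n.choose t := by
          exact_mod_cast Nat.choose_le_choose t h4
        gcongr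
    refine (sum_le_card_nsmul _ _ _ h3).trans (le_trans ?_ (num_Rnd hn hq hq' htq))
    rw [nsmul_eq_mul]
    have h4 : (((range n).offDiag.card : ℕ) : ℝ) ≤ (n : ℝ) * n := by
      rw [offDiag_card, card_range]
      exact_mod_cast Nat.sub_le _ _
    gcongr
  have e3 : ∑ E ∈ P.powerset, wgt p P E * Z₃ E < 1 / 3 := by
    simp only [Z₃, mul_sum]
    rw [sum_comm]
    have hx : Real.exp (-L) = 1 / (4 * n) := by
      rw [Real.exp_neg, hL, Real.exp_log (by positivity), one_div]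
    have h3 : ∀ X ∈ (range n).powerset.erase ∅, ∑ E ∈ P.powerset, wgt p P E *
        (Real.exp (-(p * X.card ^ 2 + L * X.card)) *
          ∏ e ∈ prs X, (if e ∈ E then Real.exp 1 else 1)) ≤ (1 / (4 * n)) ^ X.card := by
      intro X hX
      have hX1 := mem_powerset.1 (mem_erase.1 hX).2
      simp only [mul_left_comm (wgt p P _)]
      rw [← mul_sum, exp_prod p _ 1 (prs_mono hX1), card_prs, ← hx]
      have h4 : p * Real.exp 1 + (1 - p) * 1 ≤ Real.exp (2 * p) := by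
        have := Real.exp_one_lt_d9
        nlinarith [Real.add_one_le_exp (2 * p)]
      have h5 : 0 ≤ p * Real.exp 1 + (1 - p) * 1 := by
        have := Real.exp_pos 1
        nlinarith
      refine (mul_le_mul_of_nonneg_left (pow_le_pow_left₀ h5 h4 _) (by positivity)).trans ?_
      rw [← Real.exp_nat_mul, ← Real.exp_nat_mul, ← Real.exp_add, cast_choose_two]
      refine Real.exp_le_exp.2 ?_
      have : (0 : ℝ) ≤ X.card := Nat.cast_nonneg _
      nlinarith [mul_nonneg h0 this]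
    refine (sum_le_sum h3).trans_lt ?_
    have h4 := sum_pow_mul_eq_add_pow (1 / (4 * n) : ℝ) 1 (range n)
    simp only [one_pow, mul_one, card_range] at h4
    rw [sum_erase_eq_sub (empty_mem_powerset _), h4, card_empty, pow_zero]
    have h5 : (1 / (4 * n) + 1 : ℝ) ^ n ≤ Real.exp (1 / 4) := by
      refine (pow_le_pow_left₀ (by positivity) (Real.add_one_le_exp _) _).trans (le_of_eq ?_)
      rw [← Real.exp_nat_mul]
      congr 1
      field_simp
    have h6 : Real.exp (1 / 4) < 4 / 3 := by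
      have := Real.exp_bound_div_one_sub_of_interval' (x := 1 / 4) (by norm_num) (by norm_num)
      norm_num at this ⊢
      exact this
    linarith
  obtain ⟨E, hE, hZ⟩ := exists_lt_one h0 h1 P (fun E => Z₁ E + Z₂ E + Z₃ E) (by
    simp only [mul_add, sum_add_distrib]; linarith)
  have n1 : ∀ S ∈ powersetCard (w + 1) (range n),
      0 ≤ ∏ e ∈ prs S, (if e ∈ E then (0 : ℝ) else 1) :=
    fun S _ => prod_nonneg fun e _ => by split_ifs <;> norm_num
  have n2' : ∀ (a : ℕ × ℕ), ∀ T ∈ powersetCard t (range n \ {a.1, a.2}),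
      0 ≤ ∏ e ∈ star_Rnd a.1 a.2 T, (if e ∈ E then (1 : ℝ) else 0) :=
    fun a T _ => prod_nonneg fun e _ => by split_ifs <;> norm_num
  have n2 : ∀ a ∈ (range n).offDiag, 0 ≤ ∑ T ∈ powersetCard t (range n \ {a.1, a.2}),
      ∏ e ∈ star_Rnd a.1 a.2 T, (if e ∈ E then (1 : ℝ) else 0) :=
    fun a _ => sum_nonneg (n2' a)
  have n3 : ∀ X ∈ (range n).powerset.erase ∅, 0 ≤ Real.exp (-(p * X.card ^ 2 + L * X.card)) *
      ∏ e ∈ prs X, (if e ∈ E then Real.exp 1 else 1) :=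
    fun S _ => mul_nonneg (Real.exp_pos _).le
      (prod_nonneg fun e _ => by split_ifs <;> positivity)
  have z1 : 0 ≤ Z₁ E := sum_nonneg n1
  have z2 : 0 ≤ Z₂ E := sum_nonneg n2
  have z3 : 0 ≤ Z₃ E := sum_nonneg n3
  have hmm : ∀ a z : ℕ, ((a, z) ∈ E ∨ (z, a) ∈ E) → a ∈ range n ∧ z ≠ a ∧ mm_Rnd a z ∈ E := by
    rintro a z (h | h) <;> obtain ⟨b1, b2, b3⟩ := mem_prs.1 (hE h) <;> simp only at b1 b2 b3
    · exact ⟨b1, b3.ne', by rwa [mm_Rnd, min_eq_left b3.le, max_eq_right b3.le]⟩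
    · exact ⟨b2, b3.ne, by rwa [mm_Rnd, min_eq_right b3.le, max_eq_left b3.le]⟩
  refine ⟨fun x y => (x, y) ∈ E ∨ (y, x) ∈ E,
    ⟨⟨fun x y h => h.symm, fun x h => (hmm x x h).2.1 rfl⟩, by linarith, by linarith, hq0,
      ?_, ?_, ?_⟩⟩
  · intro S hS hc
    by_contra hno
    push Not at hno
    have h2 := single_le_sum n1 (mem_powersetCard.2 ⟨hS, hc⟩)
    rw [prod_eq_one fun e he => by
      obtain ⟨a1, a2, a3⟩ := mem_prs.1 he
      exact if_neg (hno _ a1 _ a2 a3.ne).1] at h2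
    have : 1 ≤ Z₁ E := h2
    linarith
  · intro X hX
    rcases X.eq_empty_or_nonempty with rfl | hne
    · simp [ec]
    have h2 := single_le_sum n3 (mem_erase.2 ⟨hne.ne_empty, mem_powerset.2 hX⟩)
    have h3 : Real.exp (-(p * X.card ^ 2 + L * X.card)) *
      ∏ e ∈ prs X, (if e ∈ E then Real.exp 1 else 1) < 1 := by
      have : _ ≤ Z₃ E := h2
      linarith
    rw [prod_ite_eq_pow, ← Real.exp_nat_mul, ← Real.exp_add, Real.exp_lt_one_iff] at h3
    have h4 : ec (fun x y => (x, y) ∈ E ∨ (y, x) ∈ E) X ≤ 2 * (prs X ∩ E).card := by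
      rw [two_mul, ec]
      refine le_trans (card_le_card (t := (prs X ∩ E) ∪ (prs X ∩ E).image Prod.swap) ?_)
        ((card_union_le _ _).trans (Nat.add_le_add_left card_image_le _))
      rintro ⟨v, u⟩ hq
      simp only [mem_filter, mem_product] at hq
      obtain ⟨⟨hv, hu⟩, h | h⟩ := hq
      · exact mem_union_left _ (mem_inter.2 ⟨mem_prs.2 ⟨hv, hu, (mem_prs.1 (hE h)).2.2⟩, h⟩)
      · exact mem_union_right _ (mem_image.2 ⟨(u, v), mem_inter.2
          ⟨mem_prs.2 ⟨hu, hv, (mem_prs.1 (hE h)).2.2⟩, h⟩, rfl⟩)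
    have h5 : ((ec (fun x y => (x, y) ∈ E ∨ (y, x) ∈ E) X : ℕ) : ℝ) ≤
        ((2 * (prs X ∩ E).card : ℕ) : ℝ) := by exact_mod_cast h4
    push_cast at h5
    nlinarith
  · intro x y hxy
    by_contra hno
    have h2 : t ≤ (nb (fun x y => (x, y) ∈ E ∨ (y, x) ∈ E) {x, y} (range n)).card :=
      (Nat.floor_lt hq0).2 (not_le.1 hno)
    obtain ⟨T, hT, hTc⟩ := exists_subset_card_eq h2
    obtain ⟨z₀, hz₀⟩ : T.Nonempty := card_pos.1 (by omega)
    have hT' := fun z (hz : z ∈ T) => mem_nb_two.1 (hT hz)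
    have ha : (x, y) ∈ (range n).offDiag :=
      mem_offDiag.2 ⟨(hmm _ _ (hT' _ hz₀).2.1).1, (hmm _ _ (hT' _ hz₀).2.2).1, hxy⟩
    have hT2 : T ∈ powersetCard t (range n \ {x, y}) := by
      refine mem_powersetCard.2 ⟨fun z hz => mem_sdiff.2 ⟨(hT' z hz).1, ?_⟩, hTc⟩
      simp only [mem_insert, mem_singleton, not_or]
      exact ⟨(hmm _ _ (hT' _ hz).2.1).2.1, (hmm _ _ (hT' _ hz).2.2).2.1⟩
    have h3 := (single_le_sum (n2' (x, y)) hT2).trans (single_le_sum n2 ha)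
    rw [prod_eq_one fun e he => by
      refine if_pos ?_
      rcases mem_union.1 he with h | h <;> obtain ⟨z, hz, rfl⟩ := mem_image.1 h
      · exact (hmm _ _ (hT' _ hz).2.1).2.2
      · exact (hmm _ _ (hT' _ hz).2.2).2.2] at h3
    have : 1 ≤ Z₂ E := h3
    linarith

end Pool.Agent.MP_251804_lc.Ed

end

section

namespace Pool.Agent.MP_251804_lc.Ed

open Finset Filter

lemma l32_Base2 : (73 / 125 : ℝ) * Real.log 2 ≤ Real.log (3 / 2) := by
  have h : Real.log ((2 : ℝ) ^ 73) ≤ Real.log ((3 / 2 : ℝ) ^ 125) :=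
    Real.log_le_log (by positivity) (by norm_num)
  rw [Real.log_pow, Real.log_pow] at h
  push_cast at h
  linarith

lemma l95_Base2 : Real.log (5 / 9) ≤ -((11 / 13 : ℝ) * Real.log 2) := by
  have h : Real.log ((2 : ℝ) ^ 11) ≤ Real.log ((9 / 5 : ℝ) ^ 13) :=
    Real.log_le_log (by positivity) (by norm_num)
  rw [Real.log_pow, Real.log_pow] at h
  push_cast at h
  have h2 : Real.log (5 / 9) = -Real.log (9 / 5) := by
    rw [← Real.log_inv]; norm_num
  linarith

lemma fact_Base2 (r : ℕ) (hr : 4 ≤ r) : 2 * (3 / 2 : ℝ) ^ r < (r.factorial : ℝ) := by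
  induction r, hr using Nat.le_induction with
  | base => norm_num [Nat.factorial]
  | succ n hn ih =>
    rw [Nat.factorial_succ, pow_succ]
    push_cast
    have h4 : (4 : ℝ) ≤ n := by exact_mod_cast hn
    have h0 : (0 : ℝ) < (3 / 2 : ℝ) ^ n := by positivity
    nlinarith

lemma two_choose_Base2 (s : ℕ) : 2 * s.choose 2 + s = s * s := by
  induction s with
  | zero => simp
  | succ n ih =>
    rw [Nat.choose_succ_succ' n 1, Nat.choose_one_right]
    have : n.choose (1 + 1) = n.choose 2 := rfl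
    rw [this]
    nlinarith

lemma first_Base2 (r M : ℕ) (hr : 4 ≤ r) (hM : (M : ℝ) ≤ (3 / 2 : ℝ) ^ r) :
    2 * (M.choose r * (4 / 9 : ℝ) ^ r.choose 2) < 1 := by
  have h1 : (M.choose r : ℝ) ≤ (M : ℝ) ^ r / r.factorial := by
    have := Nat.choose_le_pow_div (α := ℝ) r M
    simpa using this
  have h2 : (M : ℝ) ^ r ≤ (3 / 2 : ℝ) ^ (2 * r.choose 2) * (3 / 2 : ℝ) ^ r := by
    rw [← pow_add, two_choose_Base2, pow_mul]
    exact pow_le_pow_left₀ (by positivity) hM r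
  have h3 : (3 / 2 : ℝ) ^ (2 * r.choose 2) * (4 / 9 : ℝ) ^ r.choose 2 = 1 := by
    rw [pow_mul, ← mul_pow]; norm_num
  have hf : (0 : ℝ) < r.factorial := by exact_mod_cast r.factorial_pos
  have h4 := fact_Base2 r hr
  have h5 : (0 : ℝ) < (4 / 9 : ℝ) ^ r.choose 2 := by positivity
  have h6 : (M.choose r : ℝ) * (4 / 9 : ℝ) ^ r.choose 2 ≤ (3 / 2 : ℝ) ^ r / r.factorial := by
    calc (M.choose r : ℝ) * (4 / 9 : ℝ) ^ r.choose 2
        ≤ ((3 / 2 : ℝ) ^ (2 * r.choose 2) * (3 / 2 : ℝ) ^ r / r.factorial) *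
            (4 / 9 : ℝ) ^ r.choose 2 := by
          apply mul_le_mul_of_nonneg_right _ h5.le
          exact h1.trans (div_le_div_of_nonneg_right h2 hf.le)
      _ = ((3 / 2 : ℝ) ^ (2 * r.choose 2) * (4 / 9 : ℝ) ^ r.choose 2) *
            ((3 / 2 : ℝ) ^ r / r.factorial) := by ring
      _ = (3 / 2 : ℝ) ^ r / r.factorial := by rw [h3, one_mul]
  have h7 : 2 * ((3 / 2 : ℝ) ^ r / r.factorial) < 1 := by
    rw [← mul_div_assoc, div_lt_one hf]; exact h4
  linarith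

lemma term_Base2 (r s : ℕ) (M : ℝ) (hr : (45000 : ℝ) ≤ r)
    (hl : Real.log r ≤ (1 / 10000 : ℝ) * r) (hs : s ≤ r) (hM : (3 / 2 : ℝ) ^ r / 2 ≤ M) :
    2 * ((r : ℝ) + 1) * (M ^ s * (r : ℝ) ^ r * (1 - 4 / 9) ^ s.choose 2) ≤
      (2 : ℝ) ^ (-(382 / 1000 : ℝ) * r ^ 2) * M ^ r := by
  have hr0 : (0 : ℝ) < r := by linarith
  have hM0 : 0 < M := lt_of_lt_of_le (by positivity) hM
  obtain ⟨t, rfl⟩ := Nat.exists_eq_add_of_le hs
  have e59 : (1 - 4 / 9 : ℝ) = 5 / 9 := by norm_num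
  rw [e59]
  set r : ℕ := s + t with hrdef
  have hrr : (r : ℝ) = s + t := by rw [hrdef]; push_cast; ring
  have key : 2 * ((r : ℝ) + 1) * ((r : ℝ) ^ r * (5 / 9 : ℝ) ^ s.choose 2) ≤
      (2 : ℝ) ^ (-(382 / 1000 : ℝ) * r ^ 2) * M ^ t := by
    rw [← Real.log_le_log_iff (by positivity) (by positivity)]
    rw [Real.log_mul (by positivity) (by positivity), Real.log_mul (x := (r : ℝ) ^ r)
      (by positivity) (by positivity),
      Real.log_mul (x := (2 : ℝ) ^ (-(382 / 1000 : ℝ) * r ^ 2)) (by positivity) (by positivity),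
      Real.log_pow, Real.log_pow, Real.log_pow, Real.log_rpow (by norm_num)]
    have hL : (69 / 100 : ℝ) ≤ Real.log 2 := by
      have := Real.log_two_gt_d9; linarith
    have hL1 : Real.log 2 ≤ 1 := by
      have := Real.log_two_lt_d9; linarith
    have h1 : Real.log (2 * ((r : ℝ) + 1)) ≤ 3 * r := by
      have := Real.log_le_sub_one_of_pos (x := 2 * ((r : ℝ) + 1)) (by positivity)
      linarith
    have h2 : (r : ℝ) * ((73 / 125 : ℝ) * Real.log 2) - Real.log 2 ≤ Real.log M := by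
      have := Real.log_le_log (by positivity) hM
      rw [Real.log_div (by positivity) (by norm_num), Real.log_pow] at this
      have h := mul_le_mul_of_nonneg_left l32_Base2 hr0.le
      linarith
    have hc : 2 * (s.choose 2 : ℝ) + s = s * s := by exact_mod_cast two_choose_Base2 s
    have hc0 : (0 : ℝ) ≤ s.choose 2 := by positivity
    have hs0 : (0 : ℝ) ≤ s := by positivity
    have ht0 : (0 : ℝ) ≤ t := by positivity
    have h3 := mul_le_mul_of_nonneg_left l95_Base2 hc0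
    have h4 := mul_le_mul_of_nonneg_left h2 ht0
    have h5 := mul_le_mul_of_nonneg_left hl hr0.le
    set L := Real.log 2 with hLdef
    have hq : (3824 / 10000 : ℝ) * (r : ℝ) ^ 2 ≤ (73 / 125 : ℝ) * r * t + (11 / 26 : ℝ) * (s * s) := by
      have ht : (t : ℝ) = r - s := by linarith
      rw [ht]
      nlinarith [sq_nonneg ((s : ℝ) - (69 / 100 : ℝ) * r), sq_nonneg (r : ℝ), mul_nonneg hs0 hr0.le]
    have hL0 : 0 ≤ L := by linarith
    have h6 := mul_le_mul_of_nonneg_left hq hL0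
    have hc' : (s.choose 2 : ℝ) = (s * s - s) / 2 := by linarith
    have h7 : L * s ≤ r := by nlinarith
    have h8 : L * t ≤ r := by nlinarith
    have h9 : (69 / 100 : ℝ) * (r : ℝ) ^ 2 ≤ L * (r : ℝ) ^ 2 :=
      mul_le_mul_of_nonneg_right hL (by positivity)
    have h10 : 45000 * (r : ℝ) ≤ (r : ℝ) ^ 2 := by nlinarith
    rw [hc'] at h3 ⊢
    nlinarith
  calc 2 * ((r : ℝ) + 1) * (M ^ s * (r : ℝ) ^ r * (5 / 9 : ℝ) ^ s.choose 2)
      = M ^ s * (2 * ((r : ℝ) + 1) * ((r : ℝ) ^ r * (5 / 9 : ℝ) ^ s.choose 2)) := by ring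
    _ ≤ M ^ s * ((2 : ℝ) ^ (-(382 / 1000 : ℝ) * r ^ 2) * M ^ t) :=
        mul_le_mul_of_nonneg_left key (by positivity)
    _ = (2 : ℝ) ^ (-(382 / 1000 : ℝ) * r ^ 2) * M ^ r := by
        rw [hrdef, pow_add]; ring

lemma logev_Base2 : ∀ᶠ r : ℕ in atTop, Real.log r ≤ (1 / 10000 : ℝ) * r := by
  have h := Real.isLittleO_log_id_atTop.bound (c := 1 / 10000) (by norm_num)
  have h2 := tendsto_natCast_atTop_atTop (R := ℝ) |>.eventually h
  filter_upwards [h2] with r hr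
  have h3 : (0 : ℝ) ≤ r := by positivity
  simp only [id, Real.norm_eq_abs, abs_of_nonneg h3] at hr
  exact (le_abs_self _).trans hr

theorem base2P : Base2P := by
  obtain ⟨r₁, hr₁⟩ := eventually_atTop.1 logev_Base2
  refine ⟨max r₁ 45000, fun r hr => ?_⟩
  have h1 : r₁ ≤ r := (le_max_left _ _).trans hr
  have h2 : 45000 ≤ r := (le_max_right _ _).trans hr
  have ha : (1 : ℝ) ≤ (3 / 2 : ℝ) ^ r := one_le_pow₀ (by norm_num)
  have hfl : (3 / 2 : ℝ) ^ r / 2 ≤ (⌊(3 / 2 : ℝ) ^ r⌋₊ : ℝ) := by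
    have h3 := Nat.lt_floor_add_one ((3 / 2 : ℝ) ^ r)
    have h4 : (1 : ℝ) ≤ (⌊(3 / 2 : ℝ) ^ r⌋₊ : ℝ) := by
      exact_mod_cast (Nat.one_le_floor_iff _).2 ha
    linarith
  refine ⟨⌊(3 / 2 : ℝ) ^ r⌋₊, Nat.floor_pos.2 ha,
    first_Base2 r _ (by omega) (Nat.floor_le (by positivity)), ?_⟩
  set M : ℝ := (⌊(3 / 2 : ℝ) ^ r⌋₊ : ℝ) with hM
  have hr1 : (0 : ℝ) < (r : ℝ) + 1 := by positivity
  have h5 : ∀ s ∈ range (r + 1), 2 * (M ^ s * (r : ℝ) ^ r * (1 - 4 / 9) ^ s.choose 2) ≤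
      (2 : ℝ) ^ (-(382 / 1000 : ℝ) * r ^ 2) * M ^ r / ((r : ℝ) + 1) := by
    intro s hs
    have := term_Base2 r s M (by exact_mod_cast h2) (hr₁ r h1)
      (Nat.lt_succ_iff.1 (mem_range.1 hs)) hfl
    rw [le_div_iff₀ hr1]
    linarith
  rw [mul_sum]
  refine (sum_le_sum h5).trans ?_
  rw [sum_const, card_range, nsmul_eq_mul]
  push_cast
  rw [mul_div_cancel₀ _ hr1.ne']

end Pool.Agent.MP_251804_lc.Ed

end

section

namespace Pool.Agent.MP_251804_lc.Ed
open Finset Filter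

lemma arith_Dense {γ μ β L ϑ r h j : ℝ} (hγ : 0 < γ) (hγ1 : γ ≤ 1 / 25) (hμ : 0 < μ)
    (hμγ : 11 * μ ≤ γ) (hβ : 0 < β) (hL : 0 ≤ L) (hϑ : 1 ≤ ϑ * (1 - 10 * γ)) (hr : 0 ≤ r)
    (hh : 2 * h ≤ r) (hrL : ϑ * β * r ≤ (1 / 2 + μ) * L)
    (hj : (1 / 2 - 3 * γ) * L / β - 1 ≤ j) (hbig : 4 * β / (3 * γ) ≤ L) :
    (1 - 2 * γ) * h ≤ (1 / 2 - 2 * γ) * j := by
  have h10 : 0 ≤ 1 - 10 * γ := by linarith
  have e1 : β * r ≤ (1 - 10 * γ) * ((1 / 2 + μ) * L) := by
    have h1 : β * r ≤ ϑ * (1 - 10 * γ) * (β * r) :=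
      le_mul_of_one_le_left (by positivity) hϑ
    have h2 := mul_le_mul_of_nonneg_left hrL h10
    nlinarith
  have e2 : (1 / 2 - 3 * γ) * L - β ≤ j * β := by
    have h1 := mul_le_mul_of_nonneg_right hj hβ.le
    have h2 : ((1 / 2 - 3 * γ) * L / β - 1) * β = (1 / 2 - 3 * γ) * L - β := by field_simp
    linarith
  have e3 : 4 * β ≤ 3 * γ * L := by
    have := (div_le_iff₀ (by positivity : 0 < 3 * γ)).1 hbig
    linarith
  have e4 : (1 - 2 * γ) * ((1 - 10 * γ) * (1 / 2 + μ)) / 2 + 3 * γ / 8 ≤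
      (1 / 2 - 2 * γ) * (1 / 2 - 3 * γ) := by
    have h1 : (1 - 2 * γ) * (1 - 10 * γ) ≥ 0 := mul_nonneg (by linarith) h10
    have h2 : (1 - 2 * γ) * (1 - 10 * γ) * (1 / 2 + μ) ≤
        (1 - 2 * γ) * (1 - 10 * γ) * (1 / 2 + γ / 4) :=
      mul_le_mul_of_nonneg_left (by linarith) h1
    have h3 : 0 ≤ γ ^ 2 * (1 - γ) := mul_nonneg (sq_nonneg _) (by linarith)
    nlinarith
  have e5 := mul_le_mul_of_nonneg_right e4 hL
  have h2γ : 0 ≤ 1 - 2 * γ := by linarith
  have h4γ : 0 ≤ 1 / 2 - 2 * γ := by linarith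
  have e6 : (1 - 2 * γ) * (β * (2 * h)) ≤ (1 - 2 * γ) * ((1 - 10 * γ) * ((1 / 2 + μ) * L)) :=
    mul_le_mul_of_nonneg_left ((mul_le_mul_of_nonneg_left hh hβ.le).trans e1) h2γ
  have e7 := mul_le_mul_of_nonneg_left e2 h4γ
  have e8 : 0 ≤ γ * β := by positivity
  refine le_of_mul_le_mul_right ?_ hβ
  nlinarith

lemma weight_Dense {C A z m D a T U V : ℝ} {h j : ℕ} (hC : 0 ≤ C) (hz : 0 < z) (hA : 0 < A)
    (ha : 0 ≤ a) (hm : 0 ≤ m) (hT : 0 ≤ T) (h1 : D * z ≤ 2 * A)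
    (h2 : D * C ≤ 2 * (z ^ h * (a / z) ^ j)) (hTD : 1 ≤ T * D) (hU : 16 * m * T ≤ U)
    (hV : a / z ≤ V) (hUV : U ^ h * V ^ j ≤ 1) (h2T : 2 * T ≤ m) :
    C * (8 * m / A) ^ h ≤ m := by
  have e1 : 8 * m / A ≤ 16 * m * T / z := by
    rw [div_le_div_iff₀ hA hz]
    have h3 : z ≤ T * D * z := le_mul_of_one_le_left hz.le hTD
    have h4 : T * (D * z) ≤ T * (2 * A) := mul_le_mul_of_nonneg_left h1 hT
    have h5 : z ≤ T * (2 * A) := by nlinarith
    have h6 := mul_le_mul_of_nonneg_left h5 (by positivity : 0 ≤ 8 * m)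
    nlinarith
  have e2 : C ≤ T * (2 * (z ^ h * (a / z) ^ j)) := by
    have h3 : C ≤ T * D * C := le_mul_of_one_le_left hC hTD
    have h4 := mul_le_mul_of_nonneg_left h2 hT
    nlinarith
  have haz : 0 ≤ a / z := by positivity
  have hU0 : 0 ≤ U := le_trans (by positivity) hU
  calc C * (8 * m / A) ^ h ≤ T * (2 * (z ^ h * (a / z) ^ j)) * (16 * m * T / z) ^ h :=
        mul_le_mul e2 (pow_le_pow_left₀ (by positivity) e1 h) (by positivity) (by positivity)
    _ = 2 * T * ((16 * m * T) ^ h * (a / z) ^ j) := by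
        rw [div_pow (16 * m * T)]; field_simp
    _ ≤ 2 * T * (U ^ h * V ^ j) :=
        mul_le_mul_of_nonneg_left (mul_le_mul (pow_le_pow_left₀ (by positivity) hU h)
          (pow_le_pow_left₀ haz hV j) (by positivity) (by positivity)) (by positivity)
    _ ≤ 2 * T * 1 := mul_le_mul_of_nonneg_left hUV (by positivity)
    _ ≤ m := by linarith

theorem denseP (hD : DrcP) (hN : NasP) : DenseP := by
  intro g β ϑ γ μ hg hβ hγ hγ1 hϑ hμ hμγ
  have hgR : (1 : ℝ) ≤ g := by exact_mod_cast hg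
  have h11 : 11 * μ ≤ γ := by nlinarith
  filter_upwards [hN g γ μ hg hμ hμγ, eventually_ge_atTop 1, ev_rpow hγ 4,
    ev_rpow (by linarith : 0 < γ - μ) 16, ev_logge (4 * β / (3 * γ))] with n hn hn1 hb4 hb16 hbL
  intro H hH k u r c X hX hXc hc hu hgr hr4 hrL hec hnu hoth
  have hnR : (1 : ℝ) ≤ n := by exact_mod_cast hn1
  have hn0 : (0 : ℝ) < n := by linarith
  have hE : Gr (col H c u) := col_gr hH.gr c u
  have hh1 : 1 ≤ r / g := (Nat.le_div_iff_mul_le (by omega)).2 (by omega)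
  have hrh : 1 ≤ r - r / g := pos_of_not_has hnu
  obtain ⟨h, hh⟩ : ∃ h, h = (r - r / g + 1) / 2 := ⟨_, rfl⟩
  by_cases hK : ∃ K ∈ cl (col H c u) h X,
      (n : ℝ) ^ (1 / 2 + γ) ≤ (nb (col H c u) K X).card
  · obtain ⟨K, hK, hKa⟩ := hK
    have h1 := not_has_nb hE hK hnu
    have h2 := pos_of_not_has h1
    refine hn H hH k u (r - r / g - h) r c _ ((nb_subset _ _ _).trans hX) hKa hc hu h2 hr4
      (by omega) (fun j hj hju hh => hoth j hj hju (hh.sub (nb_subset _ _ _))) ?_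
    rw [cl_eq_empty h1]
    simp
  · have hz : (0 : ℝ) < X.card := lt_of_lt_of_le (by positivity) hXc
    have hXne : X.Nonempty := card_pos.1 (by exact_mod_cast hz)
    have hL : 0 ≤ Real.log n := Real.log_nonneg hnR
    have ht : 0 < 1 / 2 - 3 * γ := by linarith
    obtain ⟨j, hj⟩ : ∃ j, j = ⌊(1 / 2 - 3 * γ) * Real.log n / β⌋₊ := ⟨_, rfl⟩
    have hj1 : (j : ℝ) ≤ (1 / 2 - 3 * γ) * Real.log n / β := by
      rw [hj]; exact Nat.floor_le (by positivity)
    have hj2 : (1 / 2 - 3 * γ) * Real.log n / β - 1 ≤ j := by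
      have := Nat.lt_floor_add_one ((1 / 2 - 3 * γ) * Real.log n / β)
      rw [hj]; linarith
    obtain ⟨A, hAX, hA1, hA2⟩ := hD (col H c u) hE X h j (Real.exp (-β))
      ((n : ℝ) ^ (1 / 2 + γ)) hXne (Real.exp_pos _) (by positivity) hec
      (fun K hK' => le_of_lt (not_le.1 fun h' => hK ⟨K, hK', h'⟩))
    have hTD : 1 ≤ (n : ℝ) ^ (1 / 2 - 3 * γ) * Real.exp (-β) ^ j := by
      rw [Real.rpow_def_of_pos hn0, ← Real.exp_nat_mul, ← Real.exp_add]
      refine Real.one_le_exp ?_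
      have := (le_div_iff₀ hβ).1 hj1
      nlinarith
    have hT0 : (0 : ℝ) < (n : ℝ) ^ (1 / 2 - 3 * γ) := by positivity
    have hAa : (n : ℝ) ^ (1 / 2 + γ) ≤ A.card := by
      have e1 : (n : ℝ) ^ (1 - γ) =
          (n : ℝ) ^ (1 / 2 - 3 * γ) * ((n : ℝ) ^ (1 / 2 + γ) * (n : ℝ) ^ γ) := by
        rw [← Real.rpow_add hn0, ← Real.rpow_add hn0]; congr 1; ring
      have e2 : (X.card : ℝ) ≤ (n : ℝ) ^ (1 / 2 - 3 * γ) * Real.exp (-β) ^ j * X.card :=
        le_mul_of_one_le_left hz.le hTD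
      have e3 := mul_le_mul_of_nonneg_left hA1 hT0.le
      have e4 : (n : ℝ) ^ (1 / 2 - 3 * γ) * ((n : ℝ) ^ (1 / 2 + γ) * (n : ℝ) ^ γ) ≤
          (n : ℝ) ^ (1 / 2 - 3 * γ) * (2 * A.card) := by rw [← e1]; nlinarith
      have e5 := le_of_mul_le_mul_left e4 hT0
      have e6 : (0 : ℝ) < (n : ℝ) ^ (1 / 2 + γ) := by positivity
      nlinarith
    have hA0 : (0 : ℝ) < A.card := lt_of_lt_of_le (by positivity) hAa
    refine hn H hH k u h r c A (hAX.trans hX) hAa hc hu (by omega) hr4 (by omega)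
      (fun j hj hju hh => hoth j hj hju (hh.sub hAX)) ?_
    have hm1 : ((⌊(n : ℝ) ^ (1 / 2 + μ)⌋₊ : ℕ) : ℝ) ≤ (n : ℝ) ^ (1 / 2 + μ) :=
      Nat.floor_le (by positivity)
    have hm2 := half_le_floor (Real.one_le_rpow hnR (by linarith : 0 ≤ 1 / 2 + μ))
    refine weight_Dense (T := (n : ℝ) ^ (1 / 2 - 3 * γ)) (U := (n : ℝ) ^ (1 - 2 * γ))
      (V := (n : ℝ) ^ (-(1 / 2 - 2 * γ))) (by positivity) hz hA0 (by positivity) (by positivity)
      hT0.le hA1 hA2 hTD ?_ ?_ ?_ ?_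
    · have e1 : (n : ℝ) ^ (1 - 2 * γ) =
          (n : ℝ) ^ (γ - μ) * (n : ℝ) ^ (1 / 2 + μ) * (n : ℝ) ^ (1 / 2 - 3 * γ) := by
        rw [← Real.rpow_add hn0, ← Real.rpow_add hn0]; congr 1; ring
      rw [e1]
      exact mul_le_mul_of_nonneg_right (mul_le_mul hb16 hm1 (by positivity) (by positivity)) hT0.le
    · rw [div_le_iff₀ hz]
      have e1 : (n : ℝ) ^ (1 / 2 + γ) = (n : ℝ) ^ (-(1 / 2 - 2 * γ)) * (n : ℝ) ^ (1 - γ) := by
        rw [← Real.rpow_add hn0]; congr 1; ring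
      rw [e1]
      exact mul_le_mul_of_nonneg_left hXc (by positivity)
    · rw [← Real.rpow_natCast, ← Real.rpow_natCast, ← Real.rpow_mul hn0.le,
        ← Real.rpow_mul hn0.le, ← Real.rpow_add hn0]
      refine Real.rpow_le_one_of_one_le_of_nonpos hnR ?_
      have hh2 : 2 * (h : ℝ) ≤ r := by exact_mod_cast (by omega : 2 * h ≤ r)
      have := arith_Dense hγ hγ1 hμ h11 hβ hL hϑ (by positivity) hh2 hrL hj2 hbL
      linarith
    · have e1 : (n : ℝ) ^ (1 / 2 - 3 * γ) * (n : ℝ) ^ γ ≤ (n : ℝ) ^ (1 / 2 + μ) := by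
        rw [← Real.rpow_add hn0]
        exact Real.rpow_le_rpow_of_exponent_le hnR (by linarith)
      nlinarith

end Pool.Agent.MP_251804_lc.Ed

end

section

namespace Pool.Agent.MP_251804_lc.Ed
open Finset Filter

lemma tends_Iter2 {a : ℝ} (ha : 0 < a) : Tendsto (fun n : ℕ => ⌊(n : ℝ) ^ a⌋₊) atTop atTop :=
  tendsto_nat_floor_atTop.comp ((tendsto_rpow_atTop ha).comp tendsto_natCast_atTop_atTop)

lemma floor_le_Iter2 {n : ℕ} (hn : 1 ≤ n) {a b c : ℝ} (hb : 0 ≤ b) (h : a * b ≤ c) :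
    ⌊((⌊(n : ℝ) ^ a⌋₊ : ℕ) : ℝ) ^ b⌋₊ ≤ ⌊(n : ℝ) ^ c⌋₊ := by
  have nR : (1 : ℝ) ≤ n := by exact_mod_cast hn
  refine Nat.floor_mono ((Real.rpow_le_rpow (by positivity) (Nat.floor_le (by positivity)) hb).trans ?_)
  rw [← Real.rpow_mul (by positivity)]
  exact Real.rpow_le_rpow_of_exponent_le nR h

lemma log_floor_Iter2 {n : ℕ} (hn : 1 ≤ n) {a : ℝ} (ha : 0 ≤ a) :
    a * Real.log n - 1 ≤ Real.log (⌊(n : ℝ) ^ a⌋₊ : ℕ) := by
  have nR : (1 : ℝ) ≤ n := by exact_mod_cast hn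
  have h1 := half_le_floor (Real.one_le_rpow nR ha)
  have h2 := Real.log_le_log (by positivity) h1
  rw [Real.log_div (by positivity) (by norm_num), Real.log_rpow (by positivity)] at h2
  linarith [Real.log_two_lt_d9]

lemma down_Iter2 {x y η : ℝ} (hy : 0 ≤ y) (h0 : 0 < η) (h1 : η ≤ 1 / 800)
    (h : (1 - 2 * η) * x ≤ (1 - 4 * η) * y) : (1 + η) * x ≤ y := by
  refine le_of_mul_le_mul_left ?_ (show 0 < 1 - 2 * η by linarith)
  have h2 := mul_le_mul_of_nonneg_left h (show 0 ≤ 1 + η by linarith)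
  have h3 := mul_le_mul_of_nonneg_right
    (show (1 + η) * (1 - 4 * η) ≤ 1 - 2 * η by nlinarith) hy
  linarith

lemma up_Iter2 {x y η : ℝ} (hx : 0 ≤ x) (h1 : η ≤ 1 / 800)
    (h : 107 / 100 * x ≤ 207 / 200 * y) : (1 + η) * x ≤ y := by
  have := mul_le_mul_of_nonneg_right h1 hx
  linarith

theorem iterP2 (hS : StepP) (hE : EsP) : IterP := by
  intro k hk
  obtain ⟨g, g1, μ₀, m0, hμ⟩ := hS k hk
  have gR : (200 : ℝ) ≤ g := by exact_mod_cast g1
  have k2 : (2 : ℝ) ≤ k := by exact_mod_cast hk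
  refine ⟨min μ₀ (1 / (22 * g)), lt_min m0 (by positivity), fun μ h0 h1 hex => ?_⟩
  have h2 : μ * (22 * g) ≤ 1 := by
    have := h1.trans (min_le_right _ _)
    rwa [le_div_iff₀ (by positivity)] at this
  have h3 : μ ≤ 1 / 200 := by nlinarith
  have l2 : 0 < Real.log (2 * k) := Real.log_pos (by linarith)
  set C := 4 * k * Real.log (2 * k) with hC
  have C0 : 0 < C := by positivity
  set η : ℝ := 1 / (4 * g) with hη
  have η0 : 0 < η := by positivity
  have η1 : η * g = 1 / 4 := by rw [hη]; field_simp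
  have η2 : η ≤ 1 / 800 := by nlinarith
  have c6 : 22 * μ ≤ 4 * η := by nlinarith
  have key : ∀ J : ℕ, ∀ᶠ n : ℕ in atTop, ∀ r, ¬ Good ⌊(n : ℝ) ^ (1 / 2 + μ)⌋₊ k 2 r →
      CertAt n ⌊(n : ℝ) ^ (1 / 2 - μ)⌋₊ k 2 r → (1 + η) ^ J * Real.log n ≤ C * r := by
    intro J
    induction J with
    | zero =>
      filter_upwards [r_bounds_ThA h0 (by linarith), ev_logge 5, eventually_ge_atTop 1]
        with n a1 a2 hn r hg hc
      have := hE k r n _ (by omega) hn (a1 k r hk hg hc).2.2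
      rw [pow_zero, one_mul, hC]
      nlinarith
    | succ J ih =>
      have t1 := (tends_Iter2 (a := 1 - 10 * μ) (by linarith)).eventually (hex.and ih)
      have t2 := (tends_Iter2 (a := 27 / 25) (by norm_num)).eventually (hex.and ih)
      filter_upwards [t1, t2, hμ μ h0 (h1.trans (min_le_left _ _)), ev_logge (1 / μ + 100),
        eventually_ge_atTop 1] with n ⟨⟨r₁, a1⟩, a2⟩ ⟨⟨r₂, b1⟩, b2⟩ hs hl hn r hg hc
      have p0 : (0 : ℝ) < (1 + η) ^ J := by positivity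
      have l1 : 1 ≤ μ * Real.log n := by
        have : 1 / μ ≤ Real.log n := by linarith
        rwa [div_le_iff₀' h0] at this
      have l3 : 100 ≤ Real.log n := by
        have : 0 < 1 / μ := by positivity
        linarith
      have r0 : (0 : ℝ) ≤ r := Nat.cast_nonneg r
      have e1 : (r : ℝ) = g * (r / g : ℕ) + (r % g : ℕ) := by exact_mod_cast (Nat.div_add_mod r g).symm
      have e2 : ((r % g : ℕ) : ℝ) ≤ g := by exact_mod_cast (Nat.mod_lt r (by omega)).le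
      have e3 : (0 : ℝ) ≤ (r % g : ℕ) := Nat.cast_nonneg _
      have e4 : (0 : ℝ) ≤ (r / g : ℕ) := Nat.cast_nonneg _
      rw [pow_succ]
      rcases hs r hg hc with h | h
      · have c1 : r₁ < r - r / g := by
          by_contra hlt
          exact a1.1 (h.mono (floor_le_Iter2 hn (by linarith) (by nlinarith)) le_rfl (not_lt.1 hlt))
        have c2 : (r₁ : ℝ) + 1 + (r / g : ℕ) ≤ r := by
          exact_mod_cast (by omega : r₁ + 1 + r / g ≤ r)
        have c3 : (r₁ : ℝ) ≤ (1 - 4 * η) * r := by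
          have q1 : η * r = η * g * (r / g : ℕ) + η * (r % g : ℕ) := by
            rw [mul_assoc, ← mul_add, ← e1]
          have q2 := mul_le_mul_of_nonneg_left e2 η0.le
          rw [η1] at q1 q2
          linarith
        have c4 := a2 r₁ a1.1 a1.2
        have c5 := log_floor_Iter2 hn (a := 1 - 10 * μ) (by linarith)
        have c7 : (1 - 2 * η) * Real.log n ≤ Real.log (⌊(n : ℝ) ^ (1 - 10 * μ)⌋₊ : ℕ) := by
          have := mul_le_mul_of_nonneg_right c6 (show 0 ≤ Real.log n by linarith)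
          linarith
        have c8 : (1 + η) ^ J * ((1 - 2 * η) * Real.log n) ≤ C * ((1 - 4 * η) * r) :=
          (mul_le_mul_of_nonneg_left c7 p0.le).trans
            (c4.trans (mul_le_mul_of_nonneg_left c3 C0.le))
        have := down_Iter2 (x := (1 + η) ^ J * Real.log n) (y := C * r) (by positivity) η0 η2
          (by linarith)
        linarith
      · have c1 : r₂ < r + 7 * (r / g) := by
          by_contra hlt
          exact b1.1 (h.mono (floor_le_Iter2 hn (by linarith) (by linarith)) le_rfl (not_lt.1 hlt))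
        have c2 : (r₂ : ℝ) ≤ r + 7 * (r / g : ℕ) := by exact_mod_cast c1.le
        have c3 : (r₂ : ℝ) ≤ 207 / 200 * r := by
          have := mul_le_mul_of_nonneg_right gR e4
          linarith
        have c4 := b2 r₂ b1.1 b1.2
        have c5 := log_floor_Iter2 hn (a := 27 / 25) (by norm_num)
        have c8 : (1 + η) ^ J * (107 / 100 * Real.log n) ≤ C * (207 / 200 * r) :=
          (mul_le_mul_of_nonneg_left (by linarith) p0.le).trans
            (c4.trans (mul_le_mul_of_nonneg_left c3 C0.le))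
        have := up_Iter2 (x := (1 + η) ^ J * Real.log n) (y := C * r) (by positivity) η2
          (by linarith)
        linarith
  obtain ⟨J, hJ⟩ := pow_unbounded_of_one_lt (4 * C) (show 1 < 1 + η by linarith)
  obtain ⟨n, ⟨r, a1⟩, a2, a3, a4⟩ := (hex.and ((key J).and ((r_bounds_ThA h0
    (by linarith)).and (ev_logge 1)))).exists
  have b1 := a2 r a1.1 a1.2
  have b2 := (a3 k r hk a1.1 a1.2).2.1
  nlinarith

end Pool.Agent.MP_251804_lc.Ed

end
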