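import Pool.Agent.Mg.F251804a.Ge2be69
import Pool.Agent.Mg.F251804a.Gfb2b77
import Pool.Agent.Mg.F251804a.G1e6e98

section

namespace Pool.Agent.MP_251804_lc.Ed
open Finset Filter

lemma mean_Sample {ρ : ℝ} (h0 : 0 ≤ ρ) (A T : Finset ℕ) :
    ∑ E ∈ A.powerset, wgt ρ A E * (if T ⊆ E then (1 : ℝ) else 0) =
      if T ⊆ A then ρ ^ T.card else 0 := by
  split_ifs with h
  · have h1 := exp_prod ρ 1 0 h
    simp only [mul_one, mul_zero, add_zero] at h1
    rw [← h1]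
    refine sum_congr rfl fun E _ => ?_
    congr 1
    by_cases hE : T ⊆ E
    · rw [if_pos hE]
      exact (prod_eq_one fun e he => if_pos (hE he)).symm
    · rw [if_neg hE]
      obtain ⟨e, he, he'⟩ := not_subset.1 hE
      exact (prod_eq_zero he (if_neg he')).symm
  · refine sum_eq_zero fun E hE => ?_
    rw [if_neg fun h' => h (h'.trans (mem_powerset.1 hE)), mul_zero]

lemma exists_Sample (A : Finset ℕ) (B : Finset (Finset ℕ)) {ρ : ℝ} (h0 : 0 ≤ ρ) (h1 : ρ ≤ 1) :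
    ∃ E ⊆ A, ρ * A.card - wt ρ B ≤ (E.card : ℝ) - (B.filter fun T => T ⊆ E).card := by
  by_contra hc
  push Not at hc
  have hone : ∑ E ∈ A.powerset, wgt ρ A E = 1 := by
    simpa using mean_Sample h0 A ∅
  have ha : ∑ E ∈ A.powerset, wgt ρ A E * (E.card : ℝ) = ρ * A.card := by
    have : ∀ E ∈ A.powerset, wgt ρ A E * (E.card : ℝ) =
        ∑ x ∈ A, wgt ρ A E * (if ({x} : Finset ℕ) ⊆ E then (1 : ℝ) else 0) := by
      intro E hE
      rw [← mul_sum]
      congr 1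
      simp only [singleton_subset_iff, sum_boole]
      rw [filter_mem_eq_inter, inter_eq_right.2 (mem_powerset.1 hE)]
    rw [sum_congr rfl this, sum_comm, sum_congr rfl fun x _ => mean_Sample h0 A {x},
      sum_congr rfl (g := fun _ => ρ) fun x hx => by simp [hx]]
    simp [mul_comm]
  have hb : ∑ E ∈ A.powerset, wgt ρ A E * ((B.filter fun T => T ⊆ E).card : ℝ) ≤ wt ρ B := by
    have : ∀ E ∈ A.powerset, wgt ρ A E * ((B.filter fun T => T ⊆ E).card : ℝ) =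
        ∑ T ∈ B, wgt ρ A E * (if T ⊆ E then (1 : ℝ) else 0) := by
      intro E _
      rw [← mul_sum, sum_boole]
    rw [sum_congr rfl this, sum_comm]
    refine sum_le_sum fun T _ => ?_
    rw [mean_Sample h0]
    split_ifs
    · exact le_rfl
    · positivity
  obtain ⟨E₀, hE₀, hpos⟩ : ∃ E ∈ A.powerset, wgt ρ A E ≠ 0 :=
    exists_ne_zero_of_sum_ne_zero (by rw [hone]; exact one_ne_zero)
  have hlt : ∑ E ∈ A.powerset, wgt ρ A E * ((E.card : ℝ) - (B.filter fun T => T ⊆ E).card) <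
      ∑ E ∈ A.powerset, wgt ρ A E * (ρ * A.card - wt ρ B) :=
    sum_lt_sum (fun E hE => mul_le_mul_of_nonneg_left (hc E (mem_powerset.1 hE)).le
      (wgt_nonneg h0 h1 A E)) ⟨E₀, hE₀, mul_lt_mul_of_pos_left (hc E₀ (mem_powerset.1 hE₀))
        (lt_of_le_of_ne (wgt_nonneg h0 h1 A E₀) hpos.symm)⟩
  rw [← sum_mul, hone, one_mul] at hlt
  simp only [mul_sub, sum_sub_distrib] at hlt
  linarith

theorem sampleP : SampleP := by
  intro A B ρ h0 h1 hB
  obtain ⟨E, hE, h⟩ := exists_Sample A B h0 h1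
  have hch : ∀ T : Finset ℕ, ∃ x, T ∈ B → x ∈ T := fun T => by
    by_cases hT : T ∈ B
    · obtain ⟨x, hx⟩ := hB T hT
      exact ⟨x, fun _ => hx⟩
    · exact ⟨0, fun h' => absurd h' hT⟩
  choose f hf using hch
  refine ⟨E \ (B.filter fun T => T ⊆ E).image f, sdiff_subset.trans hE, fun T hT hs => ?_, ?_⟩
  · exact (mem_sdiff.1 (hs (hf T hT))).2
      (mem_image_of_mem f (mem_filter.2 ⟨hT, hs.trans sdiff_subset⟩))
  · have h2 := le_card_sdiff ((B.filter fun T => T ⊆ E).image f) E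
    have h3 := card_image_le (s := B.filter fun T => T ⊆ E) (f := f)
    have h4 : E.card ≤ (E \ (B.filter fun T => T ⊆ E).image f).card +
        (B.filter fun T => T ⊆ E).card := by omega
    have h5 : (E.card : ℝ) ≤ (E \ (B.filter fun T => T ⊆ E).image f).card +
        (B.filter fun T => T ⊆ E).card := by exact_mod_cast h4
    linarith

end Pool.Agent.MP_251804_lc.Ed

end

section

namespace Pool.Agent.MP_251804_lc.Ed
open Finset Filter

open Classical in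
/-- The sets reached from `K` by adding `t` disjoint `H`-pairs of `X`. -/
noncomputable def fam_Heavy (H : ℕ → ℕ → Prop) (X K : Finset ℕ) : ℕ → Finset (Finset ℕ)
  | 0 => {K}
  | t + 1 => ((fam_Heavy H X K t ×ˢ ((X ×ˢ X).filter fun e => H e.1 e.2)).filter
      fun p => p.2.1 ∉ p.1 ∧ p.2.2 ∉ p.1).image fun p => insert p.2.1 (insert p.2.2 p.1)

lemma card_fam_Heavy (H : ℕ → ℕ → Prop) (X K : Finset ℕ) (t : ℕ) :
    (fam_Heavy H X K t).card ≤ ec H X ^ t := by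
  induction t with
  | zero => simp [fam_Heavy]
  | succ t ih =>
    rw [fam_Heavy]
    refine card_image_le.trans ((card_filter_le _ _).trans ?_)
    rw [card_product, pow_succ]
    exact Nat.mul_le_mul ih (le_of_eq (by rw [ec]))

lemma mem_succ_Heavy {H : ℕ → ℕ → Prop} {X K U : Finset ℕ} {t : ℕ} :
    U ∈ fam_Heavy H X K (t + 1) ↔ ∃ T ∈ fam_Heavy H X K t, ∃ x ∈ X, ∃ y ∈ X,
      H x y ∧ x ∉ T ∧ y ∉ T ∧ insert x (insert y T) = U := by
  rw [fam_Heavy]
  simp only [mem_image, mem_filter, mem_product, Prod.exists]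
  constructor
  · rintro ⟨T, x, y, ⟨⟨h1, ⟨h2, h3⟩, h4⟩, h5, h6⟩, h7⟩
    exact ⟨T, h1, x, h2, y, h3, h4, h5, h6, h7⟩
  · rintro ⟨T, h1, x, h2, y, h3, h4, h5, h6, h7⟩
    exact ⟨T, x, y, ⟨⟨h1, ⟨h2, h3⟩, h4⟩, h5, h6⟩, h7⟩

lemma mem_fam_Heavy {H : ℕ → ℕ → Prop} (hH : Gr H) {X K : Finset ℕ} {t : ℕ} :
    ∀ U ∈ fam_Heavy H X K t, K ⊆ U ∧ U.card = K.card + 2 * t := by
  induction t with
  | zero => intro U hU; simp [fam_Heavy] at hU; simp [hU]
  | succ t ih =>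
    intro U hU
    obtain ⟨T, h1, x, -, y, -, h4, h5, h6, rfl⟩ := mem_succ_Heavy.1 hU
    obtain ⟨k1, k2⟩ := ih T h1
    have hxy : x ≠ y := fun h => hH.2 y (h ▸ h4)
    refine ⟨k1.trans ((subset_insert _ _).trans (subset_insert _ _)), ?_⟩
    rw [card_insert_of_notMem (by simp [hxy, h5]), card_insert_of_notMem h6, k2]
    omega

lemma step_Heavy {E H : ℕ → ℕ → Prop} (hH : Gr H) {A K S : Finset ℕ} {v : ℕ}
    (hv : ¬ Has E v A) (hS : S ⊆ A) (hc : Clq (fun x y => E x y ∨ H x y) S) (hK : K ⊆ S)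
    (j : ℕ) : (∃ T ∈ fam_Heavy H (nb (fun x y => E x y ∨ H x y) K A) K j, T ⊆ S) ∨
      S.card + 3 ≤ K.card + v + 2 * j := by
  induction j with
  | zero => exact Or.inl ⟨K, by simp [fam_Heavy], hK⟩
  | succ j ih =>
    rcases ih with ⟨T, h1, h2⟩ | h
    · obtain ⟨k1, k2⟩ := mem_fam_Heavy hH T h1
      have hN : ∀ x ∈ S \ T, x ∈ nb (fun x y => E x y ∨ H x y) K A := fun x hx =>
        mem_nb.2 ⟨hS (mem_sdiff.1 hx).1, fun z hz => hc z (hK hz) x (mem_sdiff.1 hx).1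
          fun h => (mem_sdiff.1 hx).2 (h ▸ k1 hz)⟩
      by_cases he : ∃ x ∈ S \ T, ∃ y ∈ S \ T, H x y
      · obtain ⟨x, hx, y, hy, hxy⟩ := he
        exact Or.inl ⟨_, mem_succ_Heavy.2 ⟨T, h1, x, hN x hx, y, hN y hy, hxy, (mem_sdiff.1 hx).2,
          (mem_sdiff.1 hy).2, rfl⟩, insert_subset (mem_sdiff.1 hx).1
            (insert_subset (mem_sdiff.1 hy).1 h2)⟩
      · right
        have hh : Has E (S \ T).card A := ⟨S \ T, sdiff_subset.trans hS, rfl, fun x hx y hy hxy =>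
          (hc x (mem_sdiff.1 hx).1 y (mem_sdiff.1 hy).1 hxy).resolve_right
            fun h => he ⟨x, hx, y, hy, h⟩⟩
        have hlt : (S \ T).card < v := lt_of_not_ge fun h => hv (hh.le h)
        have := card_sdiff_add_card_eq_card h2
        omega
    · right; omega

lemma nb_card_Heavy (E H : ℕ → ℕ → Prop) (A K : Finset ℕ) :
    (nb (fun x y => E x y ∨ H x y) K A).card ≤ (nb E K A).card + ∑ x ∈ K, (nb H {x} A).card := by
  refine (card_le_card (t := nb E K A ∪ K.biUnion fun x => nb H {x} A) ?_).trans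
    ((card_union_le _ _).trans (Nat.add_le_add_left card_biUnion_le _))
  intro v hv
  obtain ⟨h1, h2⟩ := mem_nb.1 hv
  by_cases h : ∃ x ∈ K, H x v
  · obtain ⟨x, hx, h⟩ := h
    exact mem_union_right _ (mem_biUnion.2 ⟨x, hx, mem_nb_one.2 ⟨h1, h⟩⟩)
  · exact mem_union_left _ (mem_nb.2 ⟨h1, fun x hx => (h2 x hx).resolve_right
      fun h' => h ⟨x, hx, h'⟩⟩)

theorem heavyP : HeavyP := by
  intro E H _ hH A h t v a Δ P Q ρ hh ha hΔ hP hQ hρ h1 h2 h3 hv
  classical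
  have hm : ∀ T ∈ (cl E h A).biUnion fun K => fam_Heavy H (nb (fun x y => E x y ∨ H x y) K A) K t,
      T.card = h + 2 * t := by
    intro T hT
    obtain ⟨K, hK, hT⟩ := mem_biUnion.1 hT
    rw [(mem_fam_Heavy hH T hT).2, (mem_cl.1 hK).2.1]
  refine ⟨(cl E h A).biUnion fun K => fam_Heavy H (nb (fun x y => E x y ∨ H x y) K A) K t,
    fun T hT => card_pos.1 (by rw [hm T hT]; omega), ?_, ?_⟩
  · rw [wt, sum_congr rfl (g := fun _ => ρ ^ (h + 2 * t)) fun T hT => by rw [hm T hT], sum_const,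
      nsmul_eq_mul]
    set e : ℝ := (a + h * Δ) * (P * (a + h * Δ) + Q) with he
    have he0 : 0 ≤ e := by positivity
    have hF : ∀ K ∈ cl E h A,
        ((fam_Heavy H (nb (fun x y => E x y ∨ H x y) K A) K t).card : ℝ) ≤ e ^ t := by
      intro K hK
      obtain ⟨k1, k2, -⟩ := mem_cl.1 hK
      have hN : ((nb (fun x y => E x y ∨ H x y) K A).card : ℝ) ≤ a + h * Δ := by
        have h4 : (∑ x ∈ K, ((nb H {x} A).card : ℝ)) ≤ h * Δ := by
          have := sum_le_card_nsmul K (fun x => ((nb H {x} A).card : ℝ)) Δ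
            fun x hx => h2 x (k1 hx)
          rwa [nsmul_eq_mul, k2] at this
        have h5 : ((nb (fun x y => E x y ∨ H x y) K A).card : ℝ) ≤
            (nb E K A).card + ∑ x ∈ K, ((nb H {x} A).card : ℝ) := by
          exact_mod_cast nb_card_Heavy E H A K
        linarith [h1 K hK]
      have hE : (ec H (nb (fun x y => E x y ∨ H x y) K A) : ℝ) ≤ e :=
        (h3 _ (nb_subset _ _ _)).trans (by rw [he]; gcongr)
      calc _ ≤ ((ec H (nb (fun x y => E x y ∨ H x y) K A) : ℝ)) ^ t := by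
            exact_mod_cast card_fam_Heavy H _ K t
        _ ≤ e ^ t := by gcongr
    have hc : ((cl E h A).card : ℝ) ≤ (A.card : ℝ) ^ h := by
      have : (cl E h A).card ≤ A.card ^ h := by
        refine (card_filter_le _ _).trans ?_
        rw [card_powersetCard]
        exact Nat.choose_le_pow _ _
      exact_mod_cast this
    have hB : (((cl E h A).biUnion fun K =>
        fam_Heavy H (nb (fun x y => E x y ∨ H x y) K A) K t).card : ℝ) ≤ A.card ^ h * e ^ t := by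
      calc _ ≤ ((∑ K ∈ cl E h A,
            (fam_Heavy H (nb (fun x y => E x y ∨ H x y) K A) K t).card : ℕ) : ℝ) := by
            exact_mod_cast card_biUnion_le
        _ ≤ (cl E h A).card * e ^ t := by
            rw [Nat.cast_sum, ← nsmul_eq_mul]
            exact sum_le_card_nsmul _ _ _ hF
        _ ≤ _ := by gcongr
    calc _ ≤ A.card ^ h * e ^ t * ρ ^ (h + 2 * t) := by gcongr
      _ = _ := by rw [mul_pow ρ, mul_pow e, ← pow_mul, pow_add]; ring
  · intro S hS hc hB I hI hind hcard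
    obtain ⟨K, hK, hKc⟩ := exists_subset_card_eq hcard
    have hcl : K ∈ cl E h A := mem_cl.2 ⟨hK.trans (hI.trans hS), hKc, fun x hx y hy hxy =>
      (hc x (hI (hK hx)) y (hI (hK hy)) hxy).resolve_right (hind x (hK hx) y (hK hy))⟩
    rcases step_Heavy hH hv hS hc (hK.trans hI) t with ⟨T, hT, hTS⟩ | h4
    · exact absurd hTS (hB T (mem_biUnion.2 ⟨K, hcl, hT⟩))
    · rwa [hKc] at h4

end Pool.Agent.MP_251804_lc.Ed

end

section

namespace Pool.Agent.MP_251804_lc.Ed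
open Finset Filter

/-- The image of a tuple of points below `M`, as a set of naturals. -/
def im_Base1 {r M : ℕ} (φ : Fin r → Fin M) : Finset ℕ := image (fun a => (φ a : ℕ)) univ

lemma mem_im_Base1 {r M : ℕ} {φ : Fin r → Fin M} {x : ℕ} :
    x ∈ im_Base1 φ ↔ ∃ a, (φ a : ℕ) = x := by simp [im_Base1]

lemma im_sub_Base1 {r M : ℕ} (φ : Fin r → Fin M) : im_Base1 φ ⊆ range M := fun x hx => by
  obtain ⟨a, rfl⟩ := mem_im_Base1.1 hx
  exact mem_range.2 (φ a).2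

lemma im_card_Base1 {r M : ℕ} (φ : Fin r → Fin M) : (im_Base1 φ).card ≤ r :=
  card_image_le.trans (by simp)

lemma fib_card_Base1 (r M s : ℕ) (hs : s ≤ r) :
    (univ.filter fun φ : Fin r → Fin M => (im_Base1 φ).card = s).card ≤ M ^ s * r ^ r := by
  classical
  have h1 : (univ.filter fun φ : Fin r → Fin M => (im_Base1 φ).card = s) ⊆
      image (fun gh : (Fin s → Fin M) × (Fin r → Fin s) => gh.1 ∘ gh.2) univ := by
    intro φ hφ
    have hc := (mem_filter.1 hφ).2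
    let e := (im_Base1 φ).equivFinOfCardEq hc
    refine mem_image.2 ⟨(fun i => ⟨(e.symm i : ℕ), mem_range.1 (im_sub_Base1 φ (e.symm i).2)⟩,
      fun a => e ⟨φ a, mem_im_Base1.2 ⟨a, rfl⟩⟩), mem_univ _, ?_⟩
    funext a
    apply Fin.ext
    simp
  refine (card_le_card h1).trans (card_image_le.trans ?_)
  simp only [card_univ, Fintype.card_prod, Fintype.card_fun, Fintype.card_fin]
  exact Nat.mul_le_mul_left _ (Nat.pow_le_pow_left hs _)

lemma sum_im_Base1 (r M : ℕ) {x : ℝ} (hx : 0 ≤ x) :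
    ∑ φ : Fin r → Fin M, x ^ (im_Base1 φ).card.choose 2 ≤
      ∑ s ∈ range (r + 1), (M : ℝ) ^ s * (r : ℝ) ^ r * x ^ s.choose 2 := by
  classical
  rw [← sum_fiberwise_of_maps_to (s := univ) (t := range (r + 1))
    (g := fun φ : Fin r → Fin M => (im_Base1 φ).card)
    (fun φ _ => mem_range.2 (Nat.lt_succ_of_le (im_card_Base1 φ)))]
  refine sum_le_sum fun s hs => ?_
  rw [sum_congr rfl (g := fun _ => x ^ s.choose 2) fun φ hφ => by rw [(mem_filter.1 hφ).2],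
    sum_const, nsmul_eq_mul]
  refine mul_le_mul_of_nonneg_right ?_ (pow_nonneg hx _)
  exact_mod_cast fib_card_Base1 r M s (Nat.le_of_lt_succ (mem_range.1 hs))

lemma ind_le_Base1 (G : ℕ → ℕ → Prop) (r M : ℕ) (F : (Fin r → Fin M) → ℝ) (h0 : ∀ φ, 0 ≤ F φ)
    (h1 : ∀ φ : Fin r → Fin M, (∀ a b, ¬ G (φ a) (φ b)) → 1 ≤ F φ) :
    (ind G r M : ℝ) ≤ ∑ φ, F φ := by
  classical
  rw [ind, card_eq_sum_ones, Nat.cast_sum]
  refine (sum_le_sum fun φ hφ => ?_).trans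
    (sum_le_sum_of_subset_of_nonneg (filter_subset _ _) fun φ _ _ => h0 φ)
  simpa using h1 φ (mem_filter.1 hφ).2

theorem base1P : Base1P := by
  classical
  intro M r p β h0 h1 hA hB
  have hq : 0 ≤ 1 - p := by linarith
  have hβ : 0 < β := by
    have h2 := single_le_sum (s := range (r + 1))
      (f := fun s => (M : ℝ) ^ s * (r : ℝ) ^ r * (1 - p) ^ s.choose 2)
      (fun s _ => by positivity) (mem_range.2 (Nat.succ_pos r))
    have h3 : (0 : ℝ) < (r : ℝ) ^ r := by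
      rcases Nat.eq_zero_or_pos r with rfl | h
      · simp
      · positivity
    simp only [pow_zero, one_mul, Nat.choose_zero_succ, mul_one] at h2
    linarith
  set P := prs (range M) with hP
  let Z₁ : Finset (ℕ × ℕ) → ℝ := fun E => ∑ S ∈ powersetCard r (range M),
    ∏ e ∈ prs S, (if e ∈ E then (1 : ℝ) else 0)
  let Z₂ : Finset (ℕ × ℕ) → ℝ := fun E => ∑ φ : Fin r → Fin M,
    ∏ e ∈ prs (im_Base1 φ), (if e ∈ E then (0 : ℝ) else 1)
  have e1 : ∑ E ∈ P.powerset, wgt p P E * Z₁ E < 1 / 2 := by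
    simp only [Z₁, mul_sum]
    rw [sum_comm, sum_congr rfl (g := fun _ => p ^ r.choose 2) fun S hS => by
      obtain ⟨hS1, hS2⟩ := mem_powersetCard.1 hS
      rw [exp_prod p 1 0 (prs_mono hS1), card_prs, hS2, mul_zero, add_zero, mul_one],
      sum_const, card_powersetCard, card_range, nsmul_eq_mul]
    linarith
  have e2 : ∑ E ∈ P.powerset, wgt p P E * Z₂ E ≤ β / 2 := by
    simp only [Z₂, mul_sum]
    rw [sum_comm, sum_congr rfl (g := fun φ => (1 - p) ^ (im_Base1 φ).card.choose 2) fun φ _ => by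
      rw [exp_prod p 0 1 (prs_mono (im_sub_Base1 φ)), card_prs, mul_zero, zero_add, mul_one]]
    linarith [sum_im_Base1 r M hq]
  obtain ⟨E, hE, hZ⟩ := exists_lt_one h0 h1 P (fun E => Z₁ E + Z₂ E / β) (by
    simp only [mul_add, sum_add_distrib, ← mul_div_assoc]
    rw [← sum_div]
    have : (∑ E ∈ P.powerset, wgt p P E * Z₂ E) / β ≤ 1 / 2 := by
      rw [div_le_iff₀ hβ]; linarith
    linarith)
  have n1 : ∀ S ∈ powersetCard r (range M),
      0 ≤ ∏ e ∈ prs S, (if e ∈ E then (1 : ℝ) else 0) :=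
    fun S _ => prod_nonneg fun e _ => by split_ifs <;> norm_num
  have n2 : ∀ φ : Fin r → Fin M,
      0 ≤ ∏ e ∈ prs (im_Base1 φ), (if e ∈ E then (0 : ℝ) else 1) :=
    fun S => prod_nonneg fun e _ => by split_ifs <;> norm_num
  have z1 : 0 ≤ Z₁ E := sum_nonneg n1
  have z2 : 0 ≤ Z₂ E := sum_nonneg fun φ _ => n2 φ
  have z3 : 0 ≤ Z₂ E / β := div_nonneg z2 hβ.le
  refine ⟨fun x y => (x, y) ∈ E ∨ (y, x) ∈ E, ⟨fun x y h => h.symm, fun x h => ?_⟩, ?_, ?_⟩
  · have := (mem_prs.1 (hE (h.elim id id))).2.2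
    exact lt_irrefl _ this
  · rintro ⟨S, hS, hc, hno⟩
    have h2 := single_le_sum n1 (mem_powersetCard.2 ⟨hS, hc⟩)
    rw [prod_eq_one fun e he => by
      obtain ⟨a1, a2, a3⟩ := mem_prs.1 he
      by_contra hc
      have h3 : e ∉ E := fun h => hc (if_pos h)
      have := (mem_prs.1 (hE ((hno _ a1 _ a2 a3.ne).resolve_left h3))).2.2
      simp only at this
      omega] at h2
    have : 1 ≤ Z₁ E := h2
    linarith
  · have h2 : Z₂ E < β := by
      have : Z₂ E / β < 1 := by linarith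
      rwa [div_lt_one hβ] at this
    refine le_trans ?_ h2.le
    refine ind_le_Base1 _ r M _ n2 fun φ h3 => ?_
    rw [prod_eq_one fun e he => by
      obtain ⟨a1, a2, -⟩ := mem_prs.1 he
      obtain ⟨a, ha⟩ := mem_im_Base1.1 a1
      obtain ⟨b, hb⟩ := mem_im_Base1.1 a2
      refine if_neg fun h => h3 a b (Or.inl ?_)
      rw [ha, hb]
      exact h]

end Pool.Agent.MP_251804_lc.Ed

end

section

namespace Pool.Agent.MP_251804_lc.Ed
open Finset Filter

open Classical in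
lemma count_Pull {M r N : ℕ} (G : ℕ → ℕ → Prop) (S : Finset (Fin N)) (hS : S.card = r) :
    (univ.filter fun φ : Fin N → Fin M =>
      ∀ x ∈ S.image φ, ∀ y ∈ S.image φ, ¬ G x y).card ≤ ind G r M * M ^ (N - r) := by
  have hc : (univ : Finset ({i // i ∉ S} → Fin M)).card = M ^ (N - r) := by
    rw [card_univ, Fintype.card_fun, Fintype.card_fin, Fintype.card_subtype_compl,
      Fintype.card_fin, Fintype.card_coe, hS]
  rw [ind, ← hc, ← card_product]
  refine card_le_card_of_injOn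
    (fun φ => (fun a => φ (S.orderEmbOfFin hS a), fun i : {i // i ∉ S} => φ i.1)) ?_ ?_
  · intro φ hφ
    have h1 := (mem_filter.1 (mem_coe.1 hφ)).2
    refine mem_coe.2 (mem_product.2 ⟨mem_filter.2 ⟨mem_univ _, fun a b => ?_⟩, mem_univ _⟩)
    exact h1 _ (mem_image_of_mem _ (S.orderEmbOfFin_mem hS a)) _
      (mem_image_of_mem _ (S.orderEmbOfFin_mem hS b))
  · intro φ _ φ' _ h
    obtain ⟨h1, h2⟩ := Prod.mk.inj h
    funext i
    by_cases hi : i ∈ S
    · have h3 : i ∈ Set.range (S.orderEmbOfFin hS) := by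
        rw [range_orderEmbOfFin]
        exact hi
      obtain ⟨a, rfl⟩ := h3
      exact congrFun h1 a
    · exact congrFun h2 ⟨i, hi⟩

lemma fam_Pull {N r : ℕ} (hN : r ≤ N) (F : Finset (Finset ℕ))
    (hF : ∀ S ∈ F, S ⊆ range N ∧ S.card = r) (h : F.card * 2 < 2 ^ r.choose 2) :
    ∃ c : Finset ℕ → ℕ, (∀ T, c T < 2) ∧ ∀ S ∈ F, ¬ MonoN 2 c S := by
  classical
  set U := powersetCard 2 (range N) with hU
  have hbad : (F.biUnion (fun S =>
      Icc (powersetCard 2 S) U ∪ powerset (U \ powersetCard 2 S))).card < (powerset U).card := by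
    have hle : r.choose 2 ≤ U.card := by
      rw [hU, card_powersetCard, card_range]
      exact Nat.choose_le_choose 2 hN
    refine lt_of_le_of_lt card_biUnion_le ?_
    have : ∀ S ∈ F, (Icc (powersetCard 2 S) U ∪ powerset (U \ powersetCard 2 S)).card ≤
          2 * 2 ^ (U.card - r.choose 2) := by
      intro S hS
      obtain ⟨h1, h2⟩ := hF S hS
      have hsub : powersetCard 2 S ⊆ U := powersetCard_mono h1
      refine (card_union_le _ _).trans ?_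
      rw [card_Icc_finset hsub, card_powerset, card_sdiff_of_subset hsub, card_powersetCard 2 S,
        h2]
      omega
    refine lt_of_le_of_lt (sum_le_card_nsmul _ _ _ this) ?_
    rw [card_powerset, smul_eq_mul]
    obtain ⟨q, hq⟩ := Nat.exists_eq_add_of_le hle
    rw [hq, Nat.add_sub_cancel_left, pow_add, ← mul_assoc]
    exact Nat.mul_lt_mul_of_pos_right h (by positivity)
  obtain ⟨D, hD, hnot⟩ := exists_mem_notMem_of_card_lt_card hbad
  refine ⟨fun T => if T ∈ D then 1 else 0, fun T => by beta_reduce; split_ifs <;> omega, ?_⟩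
  intro S hS hm
  apply hnot
  refine mem_biUnion.2 ⟨S, hS, ?_⟩
  rw [mem_powerset] at hD
  by_cases hex : ∃ T ∈ powersetCard 2 S, T ∈ D
  · obtain ⟨T, hT, hTF⟩ := hex
    refine mem_union_left _ (mem_Icc.2 ⟨fun T' hT' => ?_, hD⟩)
    obtain ⟨a1, a2⟩ := mem_powersetCard.1 hT
    obtain ⟨b1, b2⟩ := mem_powersetCard.1 hT'
    have := hm T T' a1 b1 a2 b2
    simp only [hTF, if_true] at this
    by_contra hn
    simp [hn] at this
  · push Not at hex
    refine mem_union_right _ (mem_powerset.2 fun T hT => mem_sdiff.2 ⟨hD hT, fun h' => ?_⟩)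
    exact hex T h' hT

theorem pullP : PullP := by
  classical
  intro M r N j G β hM hG hno hβ hind hlt
  rcases lt_or_ge N r with hN | hN
  · exact good_of_lt (by omega) hN
  have : Nonempty (Fin M) := ⟨⟨0, hM⟩⟩
  obtain ⟨Φ, hΦ⟩ := cover_iter
    (fun A : Finset (Fin M) => ∀ x ∈ A, ∀ y ∈ A, ¬ G x y) (n := N) β hβ (powersetCard r univ)
    (fun S hS => by
      have h1 := count_Pull (M := M) G S (mem_powersetCard.1 hS).2
      have h2 : (M : ℝ) ^ N = (M : ℝ) ^ r * (M : ℝ) ^ (N - r) := by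
        rw [← pow_add, Nat.add_sub_cancel' hN]
      rw [Fintype.card_fin, h2, ← mul_assoc]
      refine le_trans (b := (ind G r M : ℝ) * (M : ℝ) ^ (N - r)) ?_
        (mul_le_mul_of_nonneg_right hind (by positivity))
      exact_mod_cast le_trans (le_of_eq (congrArg card (filter_congr_decidable _ _ _))) h1) j
  rw [card_powersetCard, card_univ, Fintype.card_fin] at hΦ
  obtain ⟨F, hF1, hF2⟩ : ∃ F : Finset (Finset (Fin N)), (F.card : ℝ) ≤ N.choose r * β ^ j ∧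
      ∀ S, S ∈ F ↔ S.card = r ∧ ∀ t < j, ∀ x ∈ S.image (Φ t), ∀ y ∈ S.image (Φ t), ¬ G x y :=
    ⟨_, hΦ, fun S => by
      simp only [mem_filter, mem_powersetCard, subset_univ, true_and]⟩
  obtain ⟨c, hc, hm⟩ := fam_Pull hN (F.image fun S => S.map Fin.valEmbedding)
    (fun S hS => by
      obtain ⟨T, hT, rfl⟩ := mem_image.1 hS
      refine ⟨fun a ha => ?_, by rw [card_map, ((hF2 T).1 hT).1]⟩
      obtain ⟨b, -, rfl⟩ := mem_map.1 ha
      exact mem_range.2 b.2)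
    (by
      have h1 : ((F.card * 2 : ℕ) : ℝ) < ((2 ^ r.choose 2 : ℕ) : ℝ) := by
        push_cast
        linarith
      exact lt_of_le_of_lt (Nat.mul_le_mul_right _ card_image_le) (Nat.cast_lt.1 h1))
  obtain ⟨ψ, hψ1, hψ2⟩ : ∃ ψ : ℕ → ℕ → ℕ, (∀ t a, ψ t a < M) ∧
      ∀ t (a : Fin N), ψ t a = Φ t a :=
    ⟨fun t a => if h : a < N then (Φ t ⟨a, h⟩ : ℕ) else 0, fun t a => by
      beta_reduce
      split_ifs
      · exact Fin.is_lt _
      · exact hM, fun t a => dif_pos a.2⟩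
  obtain ⟨d, hd1, hd2⟩ : ∃ d : Finset ℕ → ℕ,
      (∀ T, (∃ t < j, ∃ a ∈ T, ∃ b ∈ T, G (ψ t a) (ψ t b)) →
        d T < j ∧ ∃ a ∈ T, ∃ b ∈ T, G (ψ (d T) a) (ψ (d T) b)) ∧
      ∀ T, (¬ ∃ t < j, ∃ a ∈ T, ∃ b ∈ T, G (ψ t a) (ψ t b)) → d T = j + c T :=
    ⟨fun T => if h : ∃ t < j, ∃ a ∈ T, ∃ b ∈ T, G (ψ t a) (ψ t b) then h.choose else j + c T,
      fun T h => by
        simp only [dif_pos h]
        exact h.choose_spec, fun T h => dif_neg h⟩
  refine ⟨d, fun T => ?_, fun S hS hcard hmono => ?_⟩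
  · by_cases h : ∃ t < j, ∃ a ∈ T, ∃ b ∈ T, G (ψ t a) (ψ t b)
    · have := (hd1 T h).1
      omega
    · have := hc T
      rw [hd2 T h]
      omega
  by_cases h : ∃ t < j, ∃ a ∈ S, ∃ b ∈ S, G (ψ t a) (ψ t b)
  · obtain ⟨t, ht, a, ha, b, hb, hab⟩ := h
    have hne : a ≠ b := fun e => hG.2 _ (e ▸ hab)
    have hv : d {a, b} < j := (hd1 _ ⟨t, ht, a, by simp, b, by simp, hab⟩).1
    have key : ∀ x ∈ S, ∀ y ∈ S, x ≠ y → G (ψ (d {a, b}) x) (ψ (d {a, b}) y) := by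
      intro x hx y hy hxy
      have e : d {x, y} = d {a, b} := hmono _ _ (insert_subset hx (singleton_subset_iff.2 hy))
        (insert_subset ha (singleton_subset_iff.2 hb)) (card_pair hxy) (card_pair hne)
      by_cases h' : ∃ t < j, ∃ a ∈ ({x, y} : Finset ℕ), ∃ b ∈ ({x, y} : Finset ℕ),
          G (ψ t a) (ψ t b)
      · obtain ⟨-, u, hu, v, hv', huv⟩ := hd1 _ h'
        rw [e] at huv
        rcases mem_insert.1 hu with rfl | hu
        · rcases mem_insert.1 hv' with rfl | hv'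
          · exact absurd huv (hG.2 _)
          · rw [← mem_singleton.1 hv']
            exact huv
        · rw [mem_singleton.1 hu] at huv
          rcases mem_insert.1 hv' with rfl | hv'
          · exact hG.1 _ _ huv
          · rw [mem_singleton.1 hv'] at huv
            exact absurd huv (hG.2 _)
      · have := hd2 _ h'
        omega
    refine hno ⟨S.image (ψ (d {a, b})), fun z hz => ?_, ?_, fun z hz w hw hzw => ?_⟩
    · obtain ⟨x, -, rfl⟩ := mem_image.1 hz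
      exact mem_range.2 (hψ1 _ _)
    · rw [card_image_of_injOn, hcard]
      intro x hx y hy e
      by_contra hxy
      exact hG.2 _ (e ▸ key x hx y hy hxy)
    · obtain ⟨x, hx, rfl⟩ := mem_image.1 hz
      obtain ⟨y, hy, rfl⟩ := mem_image.1 hw
      exact key x hx y hy fun e => hzw (by rw [e])
  · have hlt' : ∀ m ∈ S, m < N := fun m hm => mem_range.1 (hS hm)
    refine hm S (mem_image.2 ⟨S.attachFin hlt', (hF2 _).2 ⟨by rw [card_attachFin, hcard], ?_⟩,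
      map_valEmbedding_attachFin hlt'⟩) ?_
    · intro t ht x hx y hy hxy
      obtain ⟨a, ha, rfl⟩ := mem_image.1 hx
      obtain ⟨b, hb, rfl⟩ := mem_image.1 hy
      rw [mem_attachFin] at ha hb
      exact h ⟨t, ht, a, ha, b, hb, by rw [hψ2, hψ2]; exact hxy⟩
    · intro T₁ T₂ h1 h2 c1 c2
      have e := hmono T₁ T₂ h1 h2 c1 c2
      rw [hd2 T₁ fun ⟨t, ht, a, ha, b, hb, hab⟩ => h ⟨t, ht, a, h1 ha, b, h1 hb, hab⟩,
        hd2 T₂ fun ⟨t, ht, a, ha, b, hb, hab⟩ => h ⟨t, ht, a, h2 ha, b, h2 hb, hab⟩] at e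
      omega

end Pool.Agent.MP_251804_lc.Ed

end

section

namespace Pool.Agent.MP_251804_lc.Ed
open Finset Filter

lemma a1_Wfin {s P Q M z d : ℝ} (hs : 0 ≤ s) (hQ : 0 ≤ Q) (hz : 0 < z)
    (hMz : 8 * M ≤ z) (hd : 16 * s * (P * M + Q) ≤ d) :
    s * (2 * (P * z + Q)) * (8 * M / z) ≤ d := by
  have h1 : s * (2 * (P * z + Q)) * (8 * M / z) = 16 * s * (P * M) + 2 * s * Q * (8 * M / z) := by
    field_simp
    ring
  have h2 : 8 * M / z ≤ 1 := (div_le_one hz).2 hMz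
  have h3 : 0 ≤ 2 * s * Q := by positivity
  have h4 : 2 * s * Q * (8 * M / z) ≤ 2 * s * Q := by nlinarith
  have h5 : 0 ≤ s * Q := by positivity
  nlinarith

lemma a2_Wfin {s q M z d : ℝ} (hz : 0 < z) (h : 16 * s ^ 4 * q * M * (2 * d) ^ 2 ≤ z) :
    s ^ 2 * ((2 * d) ^ 2 * (s ^ 2 * q * (8 * M / z))) ≤ 1 / 2 := by
  have h1 : s ^ 2 * ((2 * d) ^ 2 * (s ^ 2 * q * (8 * M / z))) =
      (16 * s ^ 4 * q * M * (2 * d) ^ 2) / (2 * z) := by
    field_simp
    ring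
  rw [h1, div_le_iff₀ (by positivity)]
  linarith

lemma a3_Wfin {M z e x y : ℝ} (h : ℕ) (hM : 0 ≤ M) (hz : 0 < z) (hx0 : 0 ≤ x) (hx : x ≤ 8 * M)
    (hy0 : 0 ≤ y) (hy : y ≤ e) (hb : 8 * M * (64 * e * M ^ 2) ^ 3 ≤ z ^ 6) :
    x ^ h * (y * (8 * M / z) ^ 2) ^ (3 * h) ≤ 1 := by
  have he : 0 ≤ e := hy0.trans hy
  rw [pow_mul, ← mul_pow]
  refine pow_le_one₀ (by positivity) ?_
  have h1 : (y * (8 * M / z) ^ 2) ^ 3 ≤ (e * (8 * M / z) ^ 2) ^ 3 := by gcongr
  have h2 : 8 * M * (e * (8 * M / z) ^ 2) ^ 3 = 8 * M * (64 * e * M ^ 2) ^ 3 / z ^ 6 := by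
    field_simp
    ring
  calc x * (y * (8 * M / z) ^ 2) ^ 3 ≤ 8 * M * (e * (8 * M / z) ^ 2) ^ 3 := by gcongr
    _ ≤ 1 := by rw [h2, div_le_one (by positivity)]; exact hb

theorem wfinP (hC : CleanP) (hS : SampleP) (hN : NbP) (hH : HeavyP) (hF : FillP) : WfinP := by
  intro n w P Q q H hR k u v h s M c A a d e hA hc hu h1 h4 h7 hv hj hK ha hM1 hM hd hsd hq he hb
  have hP := hR.P0
  have hQ := hR.Q0
  have hq0 := hR.q0
  have hM1' : (1 : ℝ) ≤ M := by exact_mod_cast hM1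
  have hM' : 8 * (M : ℝ) ≤ A.card := by exact_mod_cast hM
  have hz : (0 : ℝ) < A.card := by linarith
  have hzn : (A.card : ℝ) ≤ n := by
    have := card_le_card hA
    rw [card_range] at this
    exact_mod_cast this
  set ρ : ℝ := 8 * M / A.card with hρ
  have hρ0 : 0 ≤ ρ := by positivity
  have hρ1 : ρ ≤ 1 := (div_le_one hz).2 hM'
  obtain ⟨A', hA', hc2, hdeg⟩ := hC H A (P * A.card + Q) (by positivity) (hR.few A hA)
  have hc2' : (A.card : ℝ) ≤ 2 * A'.card := by exact_mod_cast hc2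
  have hc3 : (A'.card : ℝ) ≤ A.card := by exact_mod_cast card_le_card hA'
  have hs1 : (1 : ℝ) ≤ s := by exact_mod_cast (by omega : 1 ≤ s)
  have hξ := a2_Wfin hz hq
  have hξ0 : 0 ≤ (2 * d) ^ 2 * ((s : ℝ) ^ 2 * q * ρ) := by positivity
  have hξ1 : (2 * d) ^ 2 * ((s : ℝ) ^ 2 * q * ρ) ≤ 1 := by
    have : (1 : ℝ) ≤ (s : ℝ) ^ 2 := one_le_pow₀ hs1
    nlinarith
  obtain ⟨B1, hB1, hw1, hB1'⟩ := hN H hR.gr A' s 2 (2 * (P * A.card + Q)) q ρ d (by norm_num)
    (by positivity) hq0 hρ0 hd (a1_Wfin (by positivity) hQ hz hM' hsd) hξ1 hdeg (by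
      intro x _ y _ hxy
      refine le_trans ?_ (hR.cod x y hxy)
      exact_mod_cast card_le_card (nb_mono _ _ (hA'.trans hA)))
  obtain ⟨B2, hB2, hw2, hB2'⟩ := hH (col H c u) H (col_gr hR.gr c u) hR.gr A' h (3 * h) v a
    (2 * (P * n + Q)) P Q ρ h1 ha (by positivity) hP hQ hρ0 (by
      intro K hK'
      refine le_trans ?_ (hK K (cl_mono _ _ hA' hK'))
      exact_mod_cast card_le_card (nb_mono _ _ hA')) (by
      intro x hx
      refine (hdeg x hx).trans ?_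
      gcongr) (fun X hX => hR.few X (hX.trans (hA'.trans hA))) (fun h' => hv (h'.sub hA'))
  have hρA : ρ * A.card = 8 * M := by rw [hρ]; field_simp
  have hx : ρ * A'.card ≤ 8 * M := by rw [← hρA]; gcongr
  have hx2 : 4 * M ≤ ρ * A'.card := by nlinarith
  have hw2' : wt ρ B2 ≤ 1 :=
    hw2.trans (a3_Wfin h (by positivity) hz (by positivity) hx (by positivity) he hb)
  have hw1' : wt ρ B1 ≤ 1 / 2 * (ρ * A'.card) := hw1.trans (by gcongr)
  obtain ⟨Y, hY, hYB, hYc⟩ := hS A' (B1 ∪ B2) ρ hρ0 hρ1 (by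
    intro T hT
    rcases mem_union.1 hT with hT | hT
    · exact hB1 T hT
    · exact hB2 T hT)
  have hu' := wt_union_le hρ0 B1 B2
  have hMY : M ≤ Y.card := by
    have : (M : ℝ) ≤ Y.card := by linarith
    exact_mod_cast this
  refine hF H hR.gr k u s M c Y hc hu hMY ?_ fun j hjk hju h' =>
    hj j hjk hju (h'.sub (hY.trans hA'))
  rintro ⟨S, hSY, hSc, hSq⟩
  obtain ⟨I, hIS, f, hI, hf1, hf2⟩ := hB1' S (hSY.trans hY) hSc.le
    fun T hT h' => hYB T (mem_union_left _ hT) (h'.trans hSY)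
  have := hB2' S (hSY.trans hY) hSq (fun T hT h' => hYB T (mem_union_right _ hT) (h'.trans hSY))
    I hIS hI (by omega)
  omega

end Pool.Agent.MP_251804_lc.Ed

end

section

namespace Pool.Agent.MP_251804_lc.Ed
open Finset Filter

theorem rasP (hR : RndP) : RasP := by
  intro μ h0 h1
  filter_upwards [ev_log h0 (C := 2) (by norm_num), ev_rpow h0 3, eventually_ge_atTop 1]
    with n hl h3 hn
  have hnR : (1 : ℝ) ≤ n := by exact_mod_cast hn
  have hpos : (0 : ℝ) < n := by linarith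
  have l2 : 0 ≤ Real.log (2 * n) := Real.log_nonneg (by linarith)
  have l3 : 0 ≤ Real.log (3 * n) := Real.log_nonneg (by linarith)
  have l4 : 0 ≤ Real.log (4 * n) := Real.log_nonneg (by linarith)
  have l24 : Real.log (2 * n) ≤ Real.log (4 * n) := Real.log_le_log (by linarith) (by linarith)
  have hP0 : 0 < (n : ℝ) ^ (-(1 / 2) + 2 * μ) := Real.rpow_pos_of_pos hpos _
  have hP1 : (n : ℝ) ^ (-(1 / 2) + 2 * μ) ≤ 1 :=
    Real.rpow_le_one_of_one_le_of_nonpos hnR (by linarith)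
  have hw : (n : ℝ) ^ (1 / 2 - μ) / 2 ≤ ⌊(n : ℝ) ^ (1 / 2 - μ)⌋₊ :=
    half_le_floor (Real.one_le_rpow hnR (by linarith))
  have e1 : (n : ℝ) ^ (-(1 / 2) + 2 * μ) * (n : ℝ) ^ (1 / 2 - μ) = (n : ℝ) ^ μ := by
    rw [← Real.rpow_add hpos]; congr 1; ring
  have e2 : (n : ℝ) * ((n : ℝ) ^ (-(1 / 2) + 2 * μ)) ^ 2 = (n : ℝ) ^ (4 * μ) := by
    rw [sq, ← Real.rpow_add hpos, mul_comm, ← Real.rpow_add_one hpos.ne']; congr 1; ring
  have e3 : (n : ℝ) ^ (5 * μ) = (n : ℝ) ^ (4 * μ) * (n : ℝ) ^ μ := by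
    rw [← Real.rpow_add hpos]; congr 1; ring
  have h4 : (1 : ℝ) ≤ (n : ℝ) ^ (4 * μ) := Real.one_le_rpow hnR (by linarith)
  obtain ⟨H, hH⟩ := hR n ⌊(n : ℝ) ^ (1 / 2 - μ)⌋₊ ((n : ℝ) ^ (-(1 / 2) + 2 * μ) / 2)
    ((n : ℝ) ^ (5 * μ)) hn (by positivity) (by linarith)
    (by
      have := mul_le_mul_of_nonneg_left hw hP0.le
      nlinarith)
    (by rw [e3]; nlinarith)
    (by rw [e3]; nlinarith)
  refine ⟨H, hH.gr, hP0.le, by positivity, hH.q0, hH.hit, fun X hX => ?_, hH.cod⟩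
  refine (hH.few X hX).trans (mul_le_mul_of_nonneg_left ?_ (by positivity))
  linarith

theorem iasP (hI : IndP) : IasP := by
  intro μ h0 h1
  filter_upwards [ev_rpow h0 6, ev_rpow (η := 12 / 25) (by norm_num) 10000,
    eventually_ge_atTop 1] with n h6 hb hn H hH
  have hnR : (1 : ℝ) ≤ n := by exact_mod_cast hn
  have hpos : (0 : ℝ) < n := by linarith
  have hP0 : 0 < (n : ℝ) ^ (-(1 / 2) + 2 * μ) := Real.rpow_pos_of_pos hpos _
  refine ⟨fun Z hZ hc => ?_, fun X hX hc => ?_⟩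
  · have hz1 : (⌊(n : ℝ) ^ (1 / 2 : ℝ)⌋₊ : ℝ) ≤ (n : ℝ) ^ (1 / 2 : ℝ) :=
      Nat.floor_le (by positivity)
    have hz2 : (n : ℝ) ^ (1 / 2 : ℝ) / 2 ≤ ⌊(n : ℝ) ^ (1 / 2 : ℝ)⌋₊ :=
      half_le_floor (Real.one_le_rpow hnR (by norm_num))
    have hz3 : (n : ℝ) ^ (1 / 2 : ℝ) ≤ (n : ℝ) ^ (11 / 20 : ℝ) :=
      Real.rpow_le_rpow_of_exponent_le hnR (by norm_num)
    have hs : (⌊(n : ℝ) ^ (1 / 2 - 4 * μ)⌋₊ : ℝ) ≤ (n : ℝ) ^ (1 / 2 - 4 * μ) :=
      Nat.floor_le (by positivity)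
    have e1 : (n : ℝ) ^ (-(1 / 2) + 2 * μ) * (n : ℝ) ^ (1 / 2 : ℝ) = (n : ℝ) ^ (2 * μ) := by
      rw [← Real.rpow_add hpos]; congr 1; ring
    have e2 : (n : ℝ) ^ (2 * μ) = (n : ℝ) ^ μ * (n : ℝ) ^ μ := by
      rw [← Real.rpow_add hpos]; congr 1; ring
    have e3 : (n : ℝ) ^ (1 / 2 - 4 * μ) * (n : ℝ) ^ (2 * μ) * (n : ℝ) ^ (2 * μ) =
        (n : ℝ) ^ (1 / 2 : ℝ) := by
      rw [← Real.rpow_add hpos, ← Real.rpow_add hpos]; congr 1; ring
    refine hI n _ _ _ _ H hH Z hZ _ ⌊(n : ℝ) ^ (1 / 2 : ℝ)⌋₊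
      (by exact_mod_cast hz1.trans (hz3.trans hc)) ?_
    have a1 : (n : ℝ) ^ (-(1 / 2) + 2 * μ) * ⌊(n : ℝ) ^ (1 / 2 : ℝ)⌋₊ + (n : ℝ) ^ μ + 1 ≤
        3 * (n : ℝ) ^ (2 * μ) := by
      have := mul_le_mul_of_nonneg_left hz1 hP0.le
      nlinarith
    have a2 : (6 : ℝ) ≤ (n : ℝ) ^ (2 * μ) := by nlinarith
    have a3 : 0 ≤ (n : ℝ) ^ (1 / 2 - 4 * μ) * (n : ℝ) ^ (2 * μ) := by positivity
    calc (⌊(n : ℝ) ^ (1 / 2 - 4 * μ)⌋₊ : ℝ) * _
        ≤ (n : ℝ) ^ (1 / 2 - 4 * μ) * (3 * (n : ℝ) ^ (2 * μ)) :=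
          mul_le_mul hs a1 (by positivity) (by positivity)
      _ ≤ _ := by nlinarith
  · have p1 : (n : ℝ) ^ (-(1 / 2) + 2 * μ) * (n : ℝ) ^ (12 / 25 : ℝ) ≤ 1 := by
      rw [← Real.rpow_add hpos]
      exact Real.rpow_le_one_of_one_le_of_nonpos hnR (by linarith)
    have p2 : (n : ℝ) ^ (-(1 / 2) + 2 * μ) ≤ 1 / 10000 := by nlinarith
    have q1 : (n : ℝ) ^ μ ≤ (n : ℝ) ^ (12 / 25 : ℝ) :=
      Real.rpow_le_rpow_of_exponent_le hnR (by linarith)
    have q2 : (n : ℝ) ^ (24 / 25 : ℝ) = (n : ℝ) ^ (12 / 25 : ℝ) * (n : ℝ) ^ (12 / 25 : ℝ) := by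
      rw [← Real.rpow_add hpos]; congr 1; norm_num
    have q3 : (n : ℝ) ^ μ + 1 ≤ X.card / 5000 := by nlinarith
    have hf := hH.few X hX
    have hx : (0 : ℝ) ≤ X.card := by positivity
    have r1 := mul_le_mul_of_nonneg_left q3 hx
    have r2 := mul_le_mul_of_nonneg_left p2 (mul_nonneg hx hx)
    nlinarith

end Pool.Agent.MP_251804_lc.Ed

end

section

namespace Pool.Agent.MP_251804_lc.Ed
open Finset Filter

lemma num_Was {y x z s h M A P : ℝ} (hy : 60 ≤ y) (hz : 4 ≤ z) (hx : x = z ^ 4) (hxy : x ≤ y)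
    (hs0 : 0 ≤ s) (hs : s ≤ z / 2) (hh0 : 0 ≤ h) (hh : 4 * h ≤ s) (hM0 : 0 ≤ M) (hM : M ≤ y ^ 55)
    (hA : y ^ 96 ≤ A) (hP0 : 0 ≤ P) (hP : P * y ^ 50 = x ^ 2) :
    8 * M ≤ A ∧ 1 ≤ y ^ 5 * x ^ 3 / 2 ∧ 16 * s * (P * M + x) ≤ y ^ 5 * x ^ 3 / 2 ∧
    16 * s ^ 4 * x ^ 5 * M * (2 * (y ^ 5 * x ^ 3 / 2)) ^ 2 ≤ A ∧
    (y ^ 55 + h * (2 * (P * y ^ 100 + x))) * (P * (y ^ 55 + h * (2 * (P * y ^ 100 + x))) + x) ≤
      6 * y ^ 60 * x ^ 2 ∧
    8 * M * (64 * (6 * y ^ 60 * x ^ 2) * M ^ 2) ^ 3 ≤ A ^ 6 := by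
  have y1 : 1 ≤ y := by linarith
  have y0 : 0 ≤ y := by linarith
  have z0 : 0 ≤ z := by linarith
  have z3 : 64 ≤ z ^ 3 := le_trans (by norm_num) (pow_le_pow_left₀ (by norm_num) hz 3)
  have xz : 64 * z ≤ x := by
    rw [hx, show z ^ 4 = z ^ 3 * z by ring]; exact mul_le_mul_of_nonneg_right z3 z0
  have x1 : 1 ≤ x := by linarith
  have x0 : 0 ≤ x := by linarith
  have y5 : 777600000 ≤ y ^ 5 := le_trans (by norm_num) (pow_le_pow_left₀ (by norm_num) hy 5)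
  have yp : ∀ a b : ℕ, a ≤ b → y ^ a ≤ y ^ b := fun a b hab => pow_le_pow_right₀ y1 hab
  have xp : ∀ a : ℕ, x ^ a ≤ y ^ a := fun a => pow_le_pow_left₀ x0 hxy a
  have x1p : ∀ a : ℕ, 1 ≤ x ^ a := fun a => one_le_pow₀ x1
  have y1p : ∀ a : ℕ, 1 ≤ y ^ a := fun a => one_le_pow₀ y1
  have hxx : ∀ a : ℕ, x ≤ x ^ 2 * y ^ a := fun a => by
    calc x = x * 1 * 1 := by ring
      _ ≤ x * x * y ^ a := by gcongr; exact y1p a
      _ = x ^ 2 * y ^ a := by ring
  have hP55 : P * y ^ 55 = x ^ 2 * y ^ 5 := by rw [← hP]; ring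
  have hP100 : P * y ^ 100 = x ^ 2 * y ^ 50 := by rw [← hP]; ring
  have hPM : P * M ≤ x ^ 2 * y ^ 5 := by rw [← hP55]; gcongr
  refine ⟨?_, ?_, ?_, ?_, ?_, ?_⟩
  · calc 8 * M ≤ y ^ 5 * y ^ 55 := by gcongr; linarith
      _ = y ^ 60 := by ring
      _ ≤ y ^ 96 := yp _ _ (by norm_num)
      _ ≤ A := hA
  · have : y ^ 5 * 1 ≤ y ^ 5 * x ^ 3 := by gcongr; exact x1p 3
    linarith
  · have h1 : P * M + x ≤ 2 * (x ^ 2 * y ^ 5) := by linarith [hxx 5]
    calc 16 * s * (P * M + x) ≤ (x / 4) * (2 * (x ^ 2 * y ^ 5)) := by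
          gcongr; linarith
      _ = y ^ 5 * x ^ 3 / 2 := by ring
  · have h1 : 16 * s ^ 4 ≤ x := by
      have := pow_le_pow_left₀ hs0 hs 4
      rw [hx]; linarith [show (z / 2) ^ 4 = z ^ 4 / 16 by ring]
    calc 16 * s ^ 4 * x ^ 5 * M * (2 * (y ^ 5 * x ^ 3 / 2)) ^ 2
        ≤ x * x ^ 5 * y ^ 55 * (2 * (y ^ 5 * x ^ 3 / 2)) ^ 2 := by gcongr
      _ = x ^ 12 * y ^ 65 := by ring
      _ ≤ y ^ 12 * y ^ 65 := by gcongr
      _ = y ^ 77 := by ring
      _ ≤ y ^ 96 := yp _ _ (by norm_num)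
      _ ≤ A := hA
  · have h1 : P * y ^ 100 + x ≤ 2 * (x ^ 2 * y ^ 50) := by linarith [hxx 50]
    have h0 : 0 ≤ P * y ^ 100 + x := add_nonneg (mul_nonneg hP0 (pow_nonneg y0 _)) x0
    have h0' : 0 ≤ y ^ 55 + h * (2 * (P * y ^ 100 + x)) :=
      add_nonneg (pow_nonneg y0 _) (mul_nonneg hh0 (by linarith))
    have h2 : h * (2 * (P * y ^ 100 + x)) ≤ y ^ 55 := by
      calc h * (2 * (P * y ^ 100 + x)) ≤ (x / 4) * (2 * (2 * (x ^ 2 * y ^ 50))) :=
            mul_le_mul (by linarith) (by linarith) (by linarith) (by linarith)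
        _ = x ^ 3 * y ^ 50 := by ring
        _ ≤ y ^ 3 * y ^ 50 := by gcongr
        _ = y ^ 53 := by ring
        _ ≤ y ^ 55 := yp _ _ (by norm_num)
    have h3 : y ^ 55 + h * (2 * (P * y ^ 100 + x)) ≤ 2 * y ^ 55 := by linarith
    have h4 : P * (y ^ 55 + h * (2 * (P * y ^ 100 + x))) + x ≤ 3 * (x ^ 2 * y ^ 5) := by
      have := mul_le_mul_of_nonneg_left h3 hP0
      linarith [hxx 5]
    calc _ ≤ (2 * y ^ 55) * (3 * (x ^ 2 * y ^ 5)) :=
          mul_le_mul h3 h4 (add_nonneg (mul_nonneg hP0 h0') x0) (by linarith)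
      _ = 6 * y ^ 60 * x ^ 2 := by ring
  · calc 8 * M * (64 * (6 * y ^ 60 * x ^ 2) * M ^ 2) ^ 3
        ≤ 8 * y ^ 55 * (64 * (6 * y ^ 60 * y ^ 2) * (y ^ 55) ^ 2) ^ 3 := by gcongr
      _ = 452984832 * y ^ 571 := by ring
      _ ≤ y ^ 5 * y ^ 571 := by gcongr; linarith
      _ = (y ^ 96) ^ 6 := by ring
      _ ≤ A ^ 6 := by gcongr

theorem wasP (hW : WfinP) : WasP := by
  intro μ hμ hμ'
  filter_upwards [ev_log (η := μ / 4) (by positivity) (C := 4) (by norm_num),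
    ev_rpow (η := μ / 4) (by positivity) 4, ev_rpow (η := 1 / 100) (by norm_num) 60,
    eventually_ge_atTop 1] with n hlog hz hy hn
  intro H hR k u v h s c A hA hAc hc hu hhs hvs hs hv hj
  have n1 : (1 : ℝ) ≤ n := by exact_mod_cast hn
  have n0 : (0 : ℝ) < n := by linarith
  rcases Nat.eq_zero_or_pos h with rfl | hpos
  · exact Or.inl ⟨A, subset_rfl,
      (Real.rpow_le_rpow_of_exponent_le n1 (by norm_num)).trans hAc, hv⟩
  by_cases hex : ∃ K ∈ cl (col H c u) h A, (n : ℝ) ^ (11 / 20 : ℝ) ≤ (nb (col H c u) K A).card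
  · obtain ⟨K, hK, hK'⟩ := hex
    exact Or.inl ⟨_, nb_subset _ _ _, hK', not_has_nb (col_gr hR.gr c u) hK hv⟩
  right
  have hyp : ∀ (a : ℕ) (t : ℝ), t = a / 100 → (n : ℝ) ^ t = ((n : ℝ) ^ (1 / 100 : ℝ)) ^ a := by
    intro a t ht
    rw [← Real.rpow_natCast, ← Real.rpow_mul n0.le, ht]; congr 1; ring
  have e55 := hyp 55 (11 / 20) (by norm_num)
  have e96 := hyp 96 (24 / 25) (by norm_num)
  have e50 := hyp 50 (1 / 2) (by norm_num)
  have e100 := hyp 100 1 (by norm_num)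
  rw [Real.rpow_one] at e100
  have ex : (n : ℝ) ^ μ = ((n : ℝ) ^ (μ / 4)) ^ 4 := by
    rw [← Real.rpow_natCast, ← Real.rpow_mul n0.le]; congr 1; push_cast; ring
  have eq5 : (n : ℝ) ^ (5 * μ) = ((n : ℝ) ^ μ) ^ 5 := by
    rw [← Real.rpow_natCast, ← Real.rpow_mul n0.le]; congr 1; push_cast; ring
  have eP : (n : ℝ) ^ (-(1 / 2) + 2 * μ) * ((n : ℝ) ^ (1 / 100 : ℝ)) ^ 50 = ((n : ℝ) ^ μ) ^ 2 := by
    rw [← e50, ← Real.rpow_add n0, ← Real.rpow_natCast, ← Real.rpow_mul n0.le]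
    congr 1; push_cast; ring
  have hsz : (s : ℝ) ≤ (n : ℝ) ^ (μ / 4) / 2 := by
    have l1 : Real.log n ≤ Real.log (3 * n) := Real.log_le_log n0 (by linarith)
    have l2 : 0 ≤ Real.log (4 * n) := Real.log_nonneg (by linarith)
    linarith
  have hM : (⌊(n : ℝ) ^ (11 / 20 : ℝ)⌋₊ : ℝ) ≤ ((n : ℝ) ^ (1 / 100 : ℝ)) ^ 55 := by
    rw [← e55]; exact Nat.floor_le (by positivity)
  obtain ⟨c1, c2, c3, c4, c5, c6⟩ := num_Was (h := h) (A := A.card) hy hz ex
    (Real.rpow_le_rpow_of_exponent_le n1 hμ') (Nat.cast_nonneg s) hsz (Nat.cast_nonneg h)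
    (by exact_mod_cast hhs) (Nat.cast_nonneg _) hM (e96 ▸ hAc) (by positivity) eP
  refine hW n _ _ _ _ H hR k u v h s _ c A (((n : ℝ) ^ (1 / 100 : ℝ)) ^ 55) _ _ hA hc hu hpos hhs
    hvs hv hj (fun K hK => ?_) (by positivity)
    ((Nat.one_le_floor_iff _).2 (Real.one_le_rpow n1 (by norm_num))) (by exact_mod_cast c1) c2 c3
    (by rw [eq5]; exact c4) (by rw [← e100] at c5; exact c5) c6
  rw [← e55]
  exact (not_le.1 fun h' => hex ⟨K, hK, h'⟩).le

end Pool.Agent.MP_251804_lc.Ed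

end

section

namespace Pool.Agent.MP_251804_lc.Ed
open Finset Filter

lemma k0_Half : ∃ K₀ : ℕ, 2 ≤ K₀ ∧ ∀ k : ℕ, K₀ ≤ k → 11875 * Real.log (2 * k) ≤ k := by
  refine ⟨2 * 23750 ^ 2, by norm_num, fun k hk => ?_⟩
  have hk' : (2 * 23750 ^ 2 : ℝ) ≤ k := by exact_mod_cast hk
  have hpos : (0 : ℝ) < 2 * k := by linarith
  have hs : 0 < Real.sqrt (2 * k) := Real.sqrt_pos.2 hpos
  have hsq : Real.sqrt (2 * k) ^ 2 = 2 * k := Real.sq_sqrt hpos.le
  have h1 : Real.log (2 * k) = 2 * Real.log (Real.sqrt (2 * k)) := by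
    rw [Real.log_sqrt hpos.le]; ring
  have h2 : Real.log (Real.sqrt (2 * k)) ≤ Real.sqrt (2 * k) - 1 :=
    Real.log_le_sub_one_of_pos hs
  have h3 : 2 * 23750 ≤ Real.sqrt (2 * k) := Real.le_sqrt_of_sq_le (by linarith)
  nlinarith

lemma kr_Half {n k r : ℕ} (hn : 2 ≤ n) (hL : 12 ≤ Real.log n) (hk : 2 ≤ k) (hr : 3 ≤ r)
    (hg : ¬ Good n k 2 r) : (k : ℝ) * r ≤ 19 * Real.log n := by
  have h1 : n ≤ 2 ^ Nat.clog 2 n := Nat.le_pow_clog (by norm_num) n
  have h2 : k * r < 12 * Nat.clog 2 n :=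
    bound2 (fun h => hg (h.mono h1 le_rfl le_rfl)) hk (by omega)
  have h3 : 2 ^ (Nat.clog 2 n).pred < n := Nat.pow_pred_clog_lt_self (by norm_num) (by omega)
  have h4 : (2 : ℝ) ^ (Nat.clog 2 n - 1) ≤ n := by exact_mod_cast h3.le
  have h5 := Real.log_le_log (by positivity) h4
  rw [Real.log_pow] at h5
  have h6 : (Nat.clog 2 n : ℝ) ≤ (Nat.clog 2 n - 1 : ℕ) + 1 := by
    exact_mod_cast (by omega : Nat.clog 2 n ≤ Nat.clog 2 n - 1 + 1)
  have h7 : (k : ℝ) * r ≤ 12 * Nat.clog 2 n := by exact_mod_cast h2.le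
  have h8 := Real.log_two_gt_d9
  have h9 : (0 : ℝ) ≤ (Nat.clog 2 n - 1 : ℕ) := Nat.cast_nonneg _
  nlinarith

theorem halfP (hD : DrcP) (hC : CountP) (hI : IasP) : HalfP := by
  obtain ⟨K₀, hK2, hK⟩ := k0_Half
  refine ⟨K₀, fun μ hμ hμ' => ?_⟩
  filter_upwards [hI μ hμ hμ', ev_logge 12, ev_rpow (η := 1 / 625) (by norm_num) 2,
    eventually_ge_atTop 2] with n hIn hL ht hn H hH k r c hk hc hr hg hno
  have hn1 : (1 : ℝ) ≤ n := by exact_mod_cast (by omega : 1 ≤ n)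
  have hn0 : (0 : ℝ) < n := by linarith
  have hk2 : 2 ≤ k := hK2.trans hk
  have hkR : (2 : ℝ) ≤ k := by exact_mod_cast hk2
  have hkr := kr_Half hn hL hk2 hr hg
  have hlk := hK k hk
  have hlog0 : 0 ≤ Real.log (2 * k) := Real.log_nonneg (by linarith)
  have hrl : 625 * (r * Real.log (2 * k)) ≤ Real.log n := by
    have : (r : ℝ) * (11875 * Real.log (2 * k)) ≤ r * k :=
      mul_le_mul_of_nonneg_left hlk (Nat.cast_nonneg _)
    nlinarith
  obtain ⟨t, htd⟩ : ∃ t : ℝ, t = (n : ℝ) ^ (1 / 625 : ℝ) := ⟨_, rfl⟩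
  rw [← htd] at ht
  have ht0 : 0 < t := by linarith
  have htn : (n : ℝ) = t ^ 625 := by
    rw [htd, ← Real.rpow_natCast, ← Real.rpow_mul hn0.le]; norm_num
  have hta : (n : ℝ) ^ (24 / 25 : ℝ) = t ^ 600 := by
    rw [htd, ← Real.rpow_natCast, ← Real.rpow_mul hn0.le]; norm_num
  have htl : Real.log n = 625 * Real.log t := by
    rw [htn, Real.log_pow]; norm_num
  have hcard : ((range n).card : ℝ) = n := by simp
  have hle : (n : ℝ) ^ (24 / 25 : ℝ) ≤ (range n).card := by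
    rw [hcard]
    exact (Real.rpow_le_rpow_of_exponent_le hn1 (by norm_num)).trans (Real.rpow_one _).le
  have hec := (hIn H hH).2 (range n) Subset.rfl hle
  have hcnt : ((range n).card : ℝ) ^ 2 ≤
      ∑ i ∈ range k, (ec (col H c i) (range n) : ℝ) + ec H (range n) + (range n).card := by
    exact_mod_cast hC H k c (range n) hc
  obtain ⟨u, hu, hue⟩ : ∃ u ∈ range k, 1 / (2 * k : ℝ) * ((range n).card : ℝ) ^ 2 ≤
      ec (col H c u) (range n) := by
    refine exists_le_of_sum_le (nonempty_range_iff.2 (by omega)) ?_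
    rw [sum_const, card_range k, nsmul_eq_mul]
    have : (k : ℝ) * (1 / (2 * k : ℝ) * ((range n).card : ℝ) ^ 2) =
        ((range n).card : ℝ) ^ 2 / 2 := by
      have hk0 : (k : ℝ) ≠ 0 := by linarith
      rw [← mul_assoc, mul_one_div, mul_comm (2 : ℝ), div_mul_cancel_left₀ hk0]; ring
    rw [this]
    nlinarith [sq_nonneg ((range n).card : ℝ)]
  have hG : Gr (col H c u) := col_gr hH.gr c u
  refine ⟨u, mem_range.1 hu, ?_⟩
  by_cases hbig : ∃ K ∈ cl (col H c u) ((r + 1) / 2) (range n),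
      (n : ℝ) ^ (24 / 25 : ℝ) ≤ (nb (col H c u) K (range n)).card
  · obtain ⟨K, hK1, hK3⟩ := hbig
    exact ⟨_, nb_subset _ _ _, hK3, fun h => not_has_nb hG hK1 (hno u) (h.le (by omega))⟩
  · push Not at hbig
    obtain ⟨w, hw⟩ : ∃ w, w = (r + 1) / 2 := ⟨_, rfl⟩
    rw [← hw] at hbig ⊢
    obtain ⟨A, hA, hA1, hA2⟩ := hD _ hG (range n) w (25 * w + 1) (1 / (2 * k))
      ((n : ℝ) ^ (24 / 25 : ℝ)) (nonempty_range_iff.2 (by omega)) (by positivity) (by positivity)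
      hue (fun K hK => (hbig K hK).le)
    have hj : ((25 * w + 1 : ℕ) : ℝ) ≤ 17 * r := by
      exact_mod_cast (by omega : 25 * w + 1 ≤ 17 * r)
    have hT : (2 * k : ℝ) ^ (25 * w + 1) ≤ t ^ 17 := by
      rw [← Real.log_le_log_iff (by positivity) (by positivity), Real.log_pow, Real.log_pow]
      have := mul_le_mul_of_nonneg_right hj hlog0
      push_cast at this ⊢
      nlinarith
    have hδ : 1 / t ^ 17 ≤ (1 / (2 * k : ℝ)) ^ (25 * w + 1) := by
      rw [one_div_pow]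
      exact one_div_le_one_div_of_le (by positivity) hT
    have h8 : (2 : ℝ) < t ^ 8 := by
      have : (2 : ℝ) ^ 8 ≤ t ^ 8 := pow_le_pow_left₀ (by norm_num) ht 8
      linarith
    rw [hcard] at hA1 hA2
    rw [hta] at hA2 ⊢
    refine ⟨A, hA, ?_, fun h => ?_⟩
    · have h1 : 1 / t ^ 17 * n ≤ 2 * (A.card : ℝ) :=
        (mul_le_mul_of_nonneg_right hδ hn0.le).trans hA1
      have h2 : 1 / t ^ 17 * n = t ^ 8 * t ^ 600 := by
        rw [htn]; field_simp
      have h3 : 0 < t ^ 600 := by positivity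
      rw [h2] at h1
      nlinarith
    · have h1 : (1 : ℝ) ≤ (cl (col H c u) w A).card := by
        exact_mod_cast card_pos.2 (has_iff.1 h)
      have h2 : (n : ℝ) ^ w * (t ^ 600 / n) ^ (25 * w + 1) = 1 / t ^ 25 := by
        have h3 : t ^ 600 / n = 1 / t ^ 25 := by rw [htn]; field_simp
        rw [h3, htn, pow_succ _ (25 * w), one_div_pow, ← pow_mul, ← pow_mul, ← mul_assoc,
          show 25 * (25 * w) = 625 * w by ring, mul_one_div_cancel (by positivity), one_mul]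
      rw [h2] at hA2
      have h4 : 1 / t ^ 17 ≤ 2 * (1 / t ^ 25) :=
        (hδ.trans (le_mul_of_one_le_right (by positivity) h1)).trans hA2
      have h5 : 1 / t ^ 17 = t ^ 8 * (1 / t ^ 25) := by field_simp
      have h6 : 0 < 1 / t ^ 25 := by positivity
      rw [h5] at h4
      nlinarith

end Pool.Agent.MP_251804_lc.Ed

end

section

namespace Pool.Agent.MP_251804_lc.Ed

theorem ras_all : RasP := rasP rndP

theorem ias_all : IasP := iasP indP

theorem nas_all : NasP := nasP (nfinP cleanP sampleP nbP fillP)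

theorem was_all : WasP := wasP (wfinP cleanP sampleP nbP heavyP fillP)

theorem es_all : EsP := esP walkP countP

theorem thA_all : ThAP := thAP ras_all (halfP drcP countP ias_all) was_all nas_all

theorem step_all : StepP :=
  stepP ras_all ias_all walkP (splitP countP) was_all (denseP drcP nas_all) fillP es_all
    (sawinP base1P base2P pullP)

theorem iter_all : IterP := iterP2 step_all es_all

end Pool.Agent.MP_251804_lc.Ed

end
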