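import Pool.Agent.Mg.F251804.G62119a
import Pool.Agent.Mg.F251804.G43ddb6

section

namespace Pool.Agent.MP_251804_lc.Ed
open Finset Filter

open Classical in
/-- The common `E`-neighbourhood of `K` inside `X`. -/
noncomputable def nb (E : ℕ → ℕ → Prop) (K X : Finset ℕ) : Finset ℕ :=
  X.filter fun v => ∀ x ∈ K, E x v

/-- `K` is an `E`-clique. -/
def Clq (E : ℕ → ℕ → Prop) (K : Finset ℕ) : Prop := ∀ x ∈ K, ∀ y ∈ K, x ≠ y → E x y

/-- `I` is `H`-independent. -/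
def Indp (H : ℕ → ℕ → Prop) (I : Finset ℕ) : Prop := ∀ x ∈ I, ∀ y ∈ I, ¬ H x y

open Classical in
/-- The number of ordered `E`-related pairs of `X`. -/
noncomputable def ec (E : ℕ → ℕ → Prop) (X : Finset ℕ) : ℕ :=
  ((X ×ˢ X).filter fun e => E e.1 e.2).card

open Classical in
/-- The `E`-cliques of size `h` inside `X`. -/
noncomputable def cl (E : ℕ → ℕ → Prop) (h : ℕ) (X : Finset ℕ) : Finset (Finset ℕ) :=
  (powersetCard h X).filter (Clq E)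

open Classical in
/-- The number of `r`-tuples of points below `M` with independent image. -/
noncomputable def ind (G : ℕ → ℕ → Prop) (r M : ℕ) : ℕ :=
  (univ.filter fun φ : Fin r → Fin M => ∀ a b, ¬ G (φ a) (φ b)).card

/-- A symmetric irreflexive relation. -/
def Gr (E : ℕ → ℕ → Prop) : Prop := (∀ x y, E x y → E y x) ∧ ∀ x, ¬ E x x

/-- The pairs outside `H` with colour `i`. -/
def col (H : ℕ → ℕ → Prop) (c : Finset ℕ → ℕ) (i x y : ℕ) : Prop :=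
  x ≠ y ∧ ¬ H x y ∧ c {x, y} = i

/-- The weight of a family of sets. -/
noncomputable def wt (ρ : ℝ) (B : Finset (Finset ℕ)) : ℝ := ∑ T ∈ B, ρ ^ T.card

/-- What we use of the sparse random graph. -/
structure Rnd (n w : ℕ) (P Q q : ℝ) (H : ℕ → ℕ → Prop) : Prop where
  gr : Gr H
  P0 : 0 ≤ P
  Q0 : 0 ≤ Q
  q0 : 0 ≤ q
  hit : ∀ S ⊆ range n, S.card = w + 1 → ∃ x ∈ S, ∃ y ∈ S, x ≠ y ∧ H x y
  few : ∀ X ⊆ range n, (ec H X : ℝ) ≤ X.card * (P * X.card + Q)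
  cod : ∀ x y, x ≠ y → ((nb H {x, y} (range n)).card : ℝ) ≤ q

/-- The random graph with the parameters used for `ε = 1/2 - μ`. -/
def RndA (μ : ℝ) (n : ℕ) (H : ℕ → ℕ → Prop) : Prop :=
  Rnd n ⌊(n : ℝ) ^ (1 / 2 - μ)⌋₊ ((n : ℝ) ^ (-(1 / 2) + 2 * μ)) ((n : ℝ) ^ μ) ((n : ℝ) ^ (5 * μ)) H

lemma mem_nb {E : ℕ → ℕ → Prop} {K X : Finset ℕ} {v : ℕ} :
    v ∈ nb E K X ↔ v ∈ X ∧ ∀ x ∈ K, E x v := by
  classical
  simp [nb]

lemma mem_nb_one {E : ℕ → ℕ → Prop} {X : Finset ℕ} {x v : ℕ} :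
    v ∈ nb E {x} X ↔ v ∈ X ∧ E x v := by simp [mem_nb]

lemma mem_nb_two {E : ℕ → ℕ → Prop} {X : Finset ℕ} {x y v : ℕ} :
    v ∈ nb E {x, y} X ↔ v ∈ X ∧ E x v ∧ E y v := by simp [mem_nb]

lemma nb_subset (E : ℕ → ℕ → Prop) (K X : Finset ℕ) : nb E K X ⊆ X :=
  fun _ h => (mem_nb.1 h).1

lemma nb_mono (E : ℕ → ℕ → Prop) (K : Finset ℕ) {X Y : Finset ℕ} (h : X ⊆ Y) :
    nb E K X ⊆ nb E K Y := fun _ hv => mem_nb.2 ⟨h (mem_nb.1 hv).1, (mem_nb.1 hv).2⟩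

lemma mem_cl {E : ℕ → ℕ → Prop} {h : ℕ} {K X : Finset ℕ} :
    K ∈ cl E h X ↔ K ⊆ X ∧ K.card = h ∧ Clq E K := by
  classical
  simp [cl, mem_powersetCard, and_assoc]

lemma cl_mono (E : ℕ → ℕ → Prop) (h : ℕ) {X Y : Finset ℕ} (hXY : X ⊆ Y) :
    cl E h X ⊆ cl E h Y := fun _ hK => mem_cl.2 ⟨(mem_cl.1 hK).1.trans hXY, (mem_cl.1 hK).2⟩

lemma has_iff {E : ℕ → ℕ → Prop} {h : ℕ} {X : Finset ℕ} : Has E h X ↔ (cl E h X).Nonempty :=
  ⟨fun ⟨S, h1⟩ => ⟨S, mem_cl.2 h1⟩, fun ⟨S, h1⟩ => ⟨S, mem_cl.1 h1⟩⟩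

lemma cl_eq_empty {E : ℕ → ℕ → Prop} {h : ℕ} {X : Finset ℕ} (hn : ¬ Has E h X) :
    cl E h X = ∅ := not_nonempty_iff_eq_empty.1 fun h => hn (has_iff.2 h)

lemma ec_eq_sum (E : ℕ → ℕ → Prop) (X : Finset ℕ) : ec E X = ∑ v ∈ X, (nb E {v} X).card := by
  classical
  rw [ec, card_eq_sum_ones, sum_filter, sum_product]
  refine sum_congr rfl fun v _ => ?_
  rw [← sum_filter, ← card_eq_sum_ones]
  congr 1
  ext u
  simp [mem_nb]

lemma wt_union_le {ρ : ℝ} (h : 0 ≤ ρ) (A B : Finset (Finset ℕ)) :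
    wt ρ (A ∪ B) ≤ wt ρ A + wt ρ B := by
  have := sum_union_inter (s₁ := A) (s₂ := B) (f := fun T => ρ ^ T.card)
  have h2 : 0 ≤ ∑ T ∈ A ∩ B, ρ ^ T.card := sum_nonneg fun T _ => by positivity
  simp only [wt]
  linarith

lemma wt_cl (ρ : ℝ) (E : ℕ → ℕ → Prop) (h : ℕ) (X : Finset ℕ) :
    wt ρ (cl E h X) = (cl E h X).card * ρ ^ h := by
  rw [wt, sum_congr rfl (g := fun _ => ρ ^ h) fun T hT => by rw [(mem_cl.1 hT).2.1], sum_const,
    nsmul_eq_mul]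

lemma col_gr {H : ℕ → ℕ → Prop} (hH : Gr H) (c : Finset ℕ → ℕ) (i : ℕ) : Gr (col H c i) :=
  ⟨fun _ _ h => ⟨h.1.symm, fun h' => h.2.1 (hH.1 _ _ h'), by rw [pair_comm]; exact h.2.2⟩,
    fun _ h => h.1 rfl⟩

/-- Inside the common neighbourhood of an `h`-clique the clique number drops by `h`. -/
lemma not_has_nb {E : ℕ → ℕ → Prop} (hE : Gr E) {h b : ℕ} {K X : Finset ℕ} (hK : K ∈ cl E h X)
    (hb : ¬ Has E b X) : ¬ Has E (b - h) (nb E K X) := by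
  rintro ⟨S, h1, h2, h3⟩
  obtain ⟨k1, k2, k3⟩ := mem_cl.1 hK
  have hd : Disjoint K S := disjoint_left.2 fun x hx hS => hE.2 x ((mem_nb.1 (h1 hS)).2 x hx)
  refine hb (Has.le ⟨K ∪ S, union_subset k1 (h1.trans (nb_subset _ _ _)), rfl, ?_⟩ ?_)
  · intro x hx y hy hxy
    rcases mem_union.1 hx with hx | hx <;> rcases mem_union.1 hy with hy | hy
    · exact k3 x hx y hy hxy
    · exact (mem_nb.1 (h1 hy)).2 x hx
    · exact hE.1 _ _ ((mem_nb.1 (h1 hx)).2 y hy)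
    · exact h3 x hx y hy hxy
  · rw [card_union_of_disjoint hd]; omega

lemma pos_of_not_has {E : ℕ → ℕ → Prop} {b : ℕ} {X : Finset ℕ} (hb : ¬ Has E b X) : 1 ≤ b := by
  rcases Nat.eq_zero_or_pos b with rfl | h
  · exact absurd (Has.zero E X) hb
  · exact h

/-- A certificate on the complement of `H`. -/
lemma cert_col {n w k r : ℕ} {P Q q : ℝ} {H : ℕ → ℕ → Prop} (hR : Rnd n w P Q q H)
    (hc : CertAt n w k 2 r) :
    ∃ c : Finset ℕ → ℕ, (∀ T, c T < k) ∧ ∀ i, ¬ Has (col H c i) r (range n) := by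
  obtain ⟨c, hc2, hg⟩ := hc (fun x y => ¬ H x y) (fun x y h h' => h (hR.gr.1 _ _ h')) (by
    intro S hS hcard
    obtain ⟨x, hx, y, hy, hxy, h⟩ := hR.hit S hS hcard
    exact ⟨x, hx, y, hy, hxy, fun h' => h' h⟩)
  refine ⟨c, hc2, fun i ⟨S, h1, h2, h3⟩ => hg S h1 h2 (fun a ha b hb hab => (h3 a ha b hb hab).2.1)
    (monoN_of (v := i) fun a ha b hb hab => (h3 a ha b hb hab).2.2)⟩

def RndP : Prop := ∀ (n w : ℕ) (p q : ℝ), 1 ≤ n → 0 ≤ p → p ≤ 1 →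
  2 * Real.log (3 * n) ≤ p * w → 9 * n * p ^ 2 ≤ q → 2 * Real.log (2 * n) ≤ q →
  ∃ H, Rnd n w (2 * p) (2 * Real.log (4 * n)) q H

def CleanP : Prop := ∀ (H : ℕ → ℕ → Prop) (A : Finset ℕ) (d : ℝ), 0 ≤ d →
  (ec H A : ℝ) ≤ A.card * d →
  ∃ A' ⊆ A, A.card ≤ 2 * A'.card ∧ ∀ v ∈ A', ((nb H {v} A').card : ℝ) ≤ 2 * d

def IndP : Prop := ∀ (n w : ℕ) (P Q q : ℝ) (H : ℕ → ℕ → Prop), Rnd n w P Q q H →
  ∀ Z ⊆ range n, ∀ s z : ℕ, z ≤ Z.card → s * (P * z + Q + 1) ≤ z →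
  ∃ I ⊆ Z, I.card = s ∧ Indp H I

def SampleP : Prop := ∀ (A : Finset ℕ) (B : Finset (Finset ℕ)) (ρ : ℝ), 0 ≤ ρ → ρ ≤ 1 →
  (∀ T ∈ B, T.Nonempty) → ∃ Y ⊆ A, (∀ T ∈ B, ¬ T ⊆ Y) ∧ ρ * A.card - wt ρ B ≤ Y.card

def NbP : Prop := ∀ (H : ℕ → ℕ → Prop), Gr H → ∀ (A : Finset ℕ) (r g : ℕ) (Δ q ρ d : ℝ),
  1 ≤ g → 0 ≤ Δ → 0 ≤ q → 0 ≤ ρ → 1 ≤ d → r * Δ * ρ ≤ d → (2 * d) ^ g * (r ^ 2 * q * ρ) ≤ 1 →
  (∀ v ∈ A, ((nb H {v} A).card : ℝ) ≤ Δ) →
  (∀ x ∈ A, ∀ y ∈ A, x ≠ y → ((nb H {x, y} A).card : ℝ) ≤ q) →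
  ∃ B : Finset (Finset ℕ), (∀ T ∈ B, T.Nonempty) ∧
    wt ρ B ≤ r ^ 2 * ((2 * d) ^ g * (r ^ 2 * q * ρ)) * (ρ * A.card) ∧
    ∀ S ⊆ A, S.card ≤ r → (∀ T ∈ B, ¬ T ⊆ S) →
      ∃ I ⊆ S, ∃ f : ℕ, Indp H I ∧ g * f ≤ S.card ∧ S.card ≤ 2 * I.card + f

def HeavyP : Prop := ∀ (E H : ℕ → ℕ → Prop), Gr E → Gr H →
  ∀ (A : Finset ℕ) (h t v : ℕ) (a Δ P Q ρ : ℝ), 1 ≤ h → 0 ≤ a → 0 ≤ Δ → 0 ≤ P → 0 ≤ Q → 0 ≤ ρ →
  (∀ K ∈ cl E h A, ((nb E K A).card : ℝ) ≤ a) →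
  (∀ x ∈ A, ((nb H {x} A).card : ℝ) ≤ Δ) →
  (∀ X ⊆ A, (ec H X : ℝ) ≤ X.card * (P * X.card + Q)) → ¬ Has E v A →
  ∃ B : Finset (Finset ℕ), (∀ T ∈ B, T.Nonempty) ∧
    wt ρ B ≤ (ρ * A.card) ^ h * ((a + h * Δ) * (P * (a + h * Δ) + Q) * ρ ^ 2) ^ t ∧
    ∀ S ⊆ A, Clq (fun x y => E x y ∨ H x y) S → (∀ T ∈ B, ¬ T ⊆ S) →
      ∀ I ⊆ S, Indp H I → h ≤ I.card → S.card + 3 ≤ h + v + 2 * t

def DrcP : Prop := ∀ (E : ℕ → ℕ → Prop), Gr E → ∀ (X : Finset ℕ) (h j : ℕ) (δ a : ℝ),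
  X.Nonempty → 0 < δ → 0 < a → δ * X.card ^ 2 ≤ ec E X →
  (∀ K ∈ cl E h X, ((nb E K X).card : ℝ) ≤ a) →
  ∃ A ⊆ X, δ ^ j * X.card ≤ 2 * A.card ∧
    δ ^ j * (cl E h A).card ≤ 2 * ((X.card : ℝ) ^ h * (a / X.card) ^ j)

def WalkP : Prop := ∀ (E : ℕ → ℕ → ℕ → Prop), (∀ i, Gr (E i)) →
  ∀ (k r h : ℕ) (X₀ : Finset ℕ) (δ : ℝ), 0 < δ → δ ≤ 1 → X₀.Nonempty →
  (∀ i < k, ¬ Has (E i) r X₀) →
  ∃ X ⊆ X₀, δ ^ (k * h) * X₀.card ≤ X.card ∧
    ∀ i < k, ¬ Has (E i) (r - h) X ∨ (ec (E i) X : ℝ) < δ * X.card ^ 2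

def CountP : Prop := ∀ (H : ℕ → ℕ → Prop) (k : ℕ) (c : Finset ℕ → ℕ) (X : Finset ℕ),
  (∀ T, c T < k) → X.card ^ 2 ≤ ∑ i ∈ range k, ec (col H c i) X + ec H X + X.card

def SplitP : Prop := ∀ (H : ℕ → ℕ → Prop) (k s : ℕ) (c : Finset ℕ → ℕ) (X : Finset ℕ),
  2 ≤ k → (∀ T, c T < k) → X.Nonempty →
  (∀ i < k, ¬ Has (col H c i) s X ∨ (ec (col H c i) X : ℝ) < 1 / (2000 * k) * X.card ^ 2) →
  (ec H X : ℝ) + X.card ≤ X.card ^ 2 / 2500 →
  (∃ u < k, ∀ j < k, j ≠ u → ¬ Has (col H c j) s X) ∨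
    (3 ≤ k ∧ ∃ u < k, ¬ Has (col H c u) s X ∧
      (X.card : ℝ) ^ 2 ≤ 1001 / 1000 * (k - 2) * ec (col H c u) X)

def FillP : Prop := ∀ (H : ℕ → ℕ → Prop), Gr H → ∀ (k u s M : ℕ) (c : Finset ℕ → ℕ)
  (Y : Finset ℕ), (∀ T, c T < k) → u < k → M ≤ Y.card →
  ¬ Has (fun x y => col H c u x y ∨ H x y) s Y → (∀ j < k, j ≠ u → ¬ Has (col H c j) s Y) →
  Good M k 2 s

def EsP : Prop := ∀ (k r n : ℕ) (ε : ℝ), 1 ≤ k → 1 ≤ n → Good ⌊(n : ℝ) ^ ε⌋₊ k 2 r →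
  ε * Real.log n ≤ 1 + k * r * Real.log (2 * k)

def Base1P : Prop := ∀ (M r : ℕ) (p β : ℝ), 0 ≤ p → p ≤ 1 →
  2 * (M.choose r * p ^ r.choose 2) < 1 →
  2 * ∑ s ∈ range (r + 1), (M : ℝ) ^ s * (r : ℝ) ^ r * (1 - p) ^ s.choose 2 ≤ β →
  ∃ G, Gr G ∧ ¬ Has G r (range M) ∧ (ind G r M : ℝ) ≤ β

def Base2P : Prop := ∃ r₀ : ℕ, ∀ r, r₀ ≤ r → ∃ M : ℕ, 0 < M ∧
  2 * (M.choose r * (4 / 9 : ℝ) ^ r.choose 2) < 1 ∧
  2 * ∑ s ∈ range (r + 1), (M : ℝ) ^ s * (r : ℝ) ^ r * (1 - 4 / 9) ^ s.choose 2 ≤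
    (2 : ℝ) ^ (-(382 / 1000 : ℝ) * r ^ 2) * (M : ℝ) ^ r

def PullP : Prop := ∀ (M r N j : ℕ) (G : ℕ → ℕ → Prop) (β : ℝ), 0 < M → Gr G →
  ¬ Has G r (range M) → 0 ≤ β → (ind G r M : ℝ) ≤ β * (M : ℝ) ^ r →
  2 * (N.choose r * β ^ j) < 2 ^ r.choose 2 → Good N (j + 2) 2 r

def SawinP : Prop := ∃ r₀ : ℕ, ∀ k r : ℕ, 3 ≤ k → r₀ ≤ r →
  Good ⌈(101 / 100 * ((k : ℝ) - 2)) ^ r⌉₊ k 2 r

def NfinP : Prop := ∀ (n w : ℕ) (P Q q : ℝ) (H : ℕ → ℕ → Prop), Rnd n w P Q q H →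
  ∀ (k u b r g M : ℕ) (c : Finset ℕ → ℕ) (Z : Finset ℕ) (d : ℝ), Z ⊆ range n →
  (∀ T, c T < k) → u < k → 1 ≤ b → 1 ≤ g → 2 * b + r / g < r + 2 →
  (∀ j < k, j ≠ u → ¬ Has (col H c j) r Z) →
  (cl (col H c u) b Z).card * (8 * M / Z.card : ℝ) ^ b ≤ M →
  8 * M ≤ Z.card → 1 ≤ d → 16 * r * (P * M + Q) ≤ d →
  16 * r ^ 4 * q * M * (2 * d) ^ g ≤ Z.card → Good M k 2 r

def WfinP : Prop := ∀ (n w : ℕ) (P Q q : ℝ) (H : ℕ → ℕ → Prop), Rnd n w P Q q H →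
  ∀ (k u v h s M : ℕ) (c : Finset ℕ → ℕ) (A : Finset ℕ) (a d e : ℝ), A ⊆ range n →
  (∀ T, c T < k) → u < k → 1 ≤ h → 4 * h ≤ s → 7 * h + v ≤ s + 2 →
  ¬ Has (col H c u) v A → (∀ j < k, j ≠ u → ¬ Has (col H c j) s A) →
  (∀ K ∈ cl (col H c u) h A, ((nb (col H c u) K A).card : ℝ) ≤ a) → 0 ≤ a →
  1 ≤ M → 8 * M ≤ A.card → 1 ≤ d → 16 * s * (P * M + Q) ≤ d →
  16 * s ^ 4 * q * M * (2 * d) ^ 2 ≤ A.card →
  (a + h * (2 * (P * n + Q))) * (P * (a + h * (2 * (P * n + Q))) + Q) ≤ e →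
  8 * M * (64 * e * M ^ 2) ^ 3 ≤ (A.card : ℝ) ^ 6 → Good M k 2 s

def RasP : Prop := ∀ μ : ℝ, 0 < μ → μ ≤ 1 / 100 → ∀ᶠ n : ℕ in atTop, ∃ H, RndA μ n H

def IasP : Prop := ∀ μ : ℝ, 0 < μ → μ ≤ 1 / 100 → ∀ᶠ n : ℕ in atTop, ∀ H, RndA μ n H →
  (∀ Z ⊆ range n, (n : ℝ) ^ (11 / 20 : ℝ) ≤ Z.card →
    ∃ I ⊆ Z, I.card = ⌊(n : ℝ) ^ (1 / 2 - 4 * μ)⌋₊ ∧ Indp H I) ∧
  ∀ X ⊆ range n, (n : ℝ) ^ (24 / 25 : ℝ) ≤ X.card → (ec H X : ℝ) + X.card ≤ X.card ^ 2 / 2500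

def NasP : Prop := ∀ (g : ℕ) (γ μ : ℝ), 1 ≤ g → 0 < μ → (4 * g + 7) * μ ≤ γ →
  ∀ᶠ n : ℕ in atTop, ∀ H, RndA μ n H → ∀ (k u b r : ℕ) (c : Finset ℕ → ℕ) (Z : Finset ℕ),
  Z ⊆ range n → (n : ℝ) ^ (1 / 2 + γ) ≤ Z.card → (∀ T, c T < k) → u < k → 1 ≤ b →
  (r : ℝ) ≤ 4 * Real.log n → 2 * b + r / g < r + 2 →
  (∀ j < k, j ≠ u → ¬ Has (col H c j) r Z) →
  (cl (col H c u) b Z).card * (8 * ⌊(n : ℝ) ^ (1 / 2 + μ)⌋₊ / Z.card : ℝ) ^ b ≤
    ⌊(n : ℝ) ^ (1 / 2 + μ)⌋₊ →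
  Good ⌊(n : ℝ) ^ (1 / 2 + μ)⌋₊ k 2 r

def WasP : Prop := ∀ μ : ℝ, 0 < μ → μ ≤ 1 / 100 →
  ∀ᶠ n : ℕ in atTop, ∀ H, RndA μ n H → ∀ (k u v h s : ℕ) (c : Finset ℕ → ℕ) (A : Finset ℕ),
  A ⊆ range n → (n : ℝ) ^ (24 / 25 : ℝ) ≤ A.card → (∀ T, c T < k) → u < k →
  4 * h ≤ s → 7 * h + v ≤ s + 2 → (s : ℝ) ≤ 8 * Real.log n →
  ¬ Has (col H c u) v A → (∀ j < k, j ≠ u → ¬ Has (col H c j) s A) →
  (∃ Z ⊆ A, (n : ℝ) ^ (11 / 20 : ℝ) ≤ Z.card ∧ ¬ Has (col H c u) (v - h) Z) ∨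
    Good ⌊(n : ℝ) ^ (11 / 20 : ℝ)⌋₊ k 2 s

def HalfP : Prop := ∃ K₀ : ℕ, ∀ μ : ℝ, 0 < μ → μ ≤ 1 / 100 →
  ∀ᶠ n : ℕ in atTop, ∀ H, RndA μ n H → ∀ (k r : ℕ) (c : Finset ℕ → ℕ), K₀ ≤ k →
  (∀ T, c T < k) → 3 ≤ r → ¬ Good n k 2 r → (∀ i, ¬ Has (col H c i) r (range n)) →
  ∃ u < k, ∃ Z ⊆ range n, (n : ℝ) ^ (24 / 25 : ℝ) ≤ Z.card ∧ ¬ Has (col H c u) ((r + 1) / 2) Z

def ThAP : Prop := ∃ K₀ : ℕ, ∀ μ : ℝ, 0 < μ → μ ≤ 1 / 10000 →
  ∀ᶠ n : ℕ in atTop, ∀ k r : ℕ, K₀ ≤ k → ¬ Good ⌊(n : ℝ) ^ (1 / 2 + μ)⌋₊ k 2 r →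
  ¬ CertAt n ⌊(n : ℝ) ^ (1 / 2 - μ)⌋₊ k 2 r

def DenseP : Prop := ∀ (g : ℕ) (β ϑ γ μ : ℝ), 1 ≤ g → 0 < β → 0 < γ → γ ≤ 1 / 25 →
  1 ≤ ϑ * (1 - 10 * γ) → 0 < μ → (4 * g + 7) * μ ≤ γ →
  ∀ᶠ n : ℕ in atTop, ∀ H, RndA μ n H → ∀ (k u r : ℕ) (c : Finset ℕ → ℕ) (X : Finset ℕ),
  X ⊆ range n → (n : ℝ) ^ (1 - γ) ≤ X.card → (∀ T, c T < k) → u < k → g ≤ r →
  (r : ℝ) ≤ 4 * Real.log n → ϑ * β * r ≤ (1 / 2 + μ) * Real.log n →
  Real.exp (-β) * X.card ^ 2 ≤ ec (col H c u) X → ¬ Has (col H c u) (r - r / g) X →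
  (∀ j < k, j ≠ u → ¬ Has (col H c j) r X) → Good ⌊(n : ℝ) ^ (1 / 2 + μ)⌋₊ k 2 r

def StepP : Prop := ∀ k : ℕ, 2 ≤ k → ∃ g : ℕ, 200 ≤ g ∧ ∃ μ₀ : ℝ, 0 < μ₀ ∧
  ∀ μ : ℝ, 0 < μ → μ ≤ μ₀ → ∀ᶠ n : ℕ in atTop, ∀ r : ℕ,
  ¬ Good ⌊(n : ℝ) ^ (1 / 2 + μ)⌋₊ k 2 r → CertAt n ⌊(n : ℝ) ^ (1 / 2 - μ)⌋₊ k 2 r →
  Good ⌊(n : ℝ) ^ (1 / 2 - 4 * μ)⌋₊ k 2 (r - r / g) ∨
    Good ⌊(n : ℝ) ^ (11 / 20 : ℝ)⌋₊ k 2 (r + 7 * (r / g))

def IterP : Prop := ∀ k : ℕ, 2 ≤ k → ∃ μ₀ : ℝ, 0 < μ₀ ∧ ∀ μ : ℝ, 0 < μ → μ ≤ μ₀ →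
  ¬ ∀ᶠ n : ℕ in atTop, ∃ r, ¬ Good ⌊(n : ℝ) ^ (1 / 2 + μ)⌋₊ k 2 r ∧
    CertAt n ⌊(n : ℝ) ^ (1 / 2 - μ)⌋₊ k 2 r

def TripP : Prop := ∀ ε : ℝ, 49 / 100 < ε → ε < 1 / 2 → ∀ (k : ℕ → ℕ) (N : ℕ),
  (∀ n, 2 ≤ k n) → MonotoneOn k (Set.Ici N) →
  ¬ ∀ᶠ n : ℕ in atTop, ∃ r, ¬ Good ⌊(n : ℝ) ^ (1 - ε)⌋₊ (k n) 3 r ∧
    CertAt n ⌊(n : ℝ) ^ ε⌋₊ (k n) 3 r

end Pool.Agent.MP_251804_lc.Ed

end

section

namespace Pool.Agent.MP_251804_lc.Ed
open Finset Filter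

theorem cleanP : CleanP := by
  classical
  intro H A d hd hec
  set p : ℕ → Prop := fun v => ((nb H {v} A).card : ℝ) ≤ 2 * d with hp
  refine ⟨A.filter p, filter_subset _ _, ?_, fun v hv => ?_⟩
  · have hsplit := card_filter_add_card_filter_not (s := A) p
    rcases (A.filter fun v => ¬ p v).eq_empty_or_nonempty with he | hne
    · rw [he, card_empty] at hsplit
      omega
    · have h1 : ∑ _v ∈ A.filter (fun v => ¬ p v), 2 * d <
          ∑ v ∈ A.filter (fun v => ¬ p v), ((nb H {v} A).card : ℝ) :=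
        sum_lt_sum_of_nonempty hne fun v hv => not_le.1 (mem_filter.1 hv).2
      have h2 : ∑ v ∈ A.filter (fun v => ¬ p v), ((nb H {v} A).card : ℝ) ≤
          ∑ v ∈ A, ((nb H {v} A).card : ℝ) :=
        sum_le_sum_of_subset_of_nonneg (filter_subset _ _) fun _ _ _ => Nat.cast_nonneg _
      have h3 : (ec H A : ℝ) = ∑ v ∈ A, ((nb H {v} A).card : ℝ) := by
        rw [ec_eq_sum]; push_cast; rfl
      rw [sum_const, nsmul_eq_mul] at h1
      have h4 : ((A.filter fun v => ¬ p v).card : ℝ) * (2 * d) < A.card * d := by linarith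
      have h5 : 2 * ((A.filter fun v => ¬ p v).card : ℝ) < A.card := by
        by_contra hc
        have := mul_le_mul_of_nonneg_right (not_lt.1 hc) hd
        linarith
      have h6 : 2 * (A.filter fun v => ¬ p v).card < A.card := by exact_mod_cast h5
      omega
  · have h1 : (nb H {v} (A.filter p)).card ≤ (nb H {v} A).card :=
      card_le_card (nb_mono _ _ (filter_subset _ _))
    have h2 : ((nb H {v} A).card : ℝ) ≤ 2 * d := (mem_filter.1 hv).2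
    exact le_trans (by exact_mod_cast h1) h2

theorem indP : IndP := by
  classical
  intro n w P Q q H hR Z hZ s z hz hs
  obtain ⟨Z0, hZ0, hc⟩ := exists_subset_card_eq hz
  have hP := hR.P0
  have hQ := hR.Q0
  have hg := greedy (H := H) hR.gr.1 (V := Z0) (D := P * z + Q + 1) (by
    intro X hX hne
    have hfew := hR.few X (hX.trans (hZ0.trans hZ))
    have h3 : (ec H X : ℝ) = ∑ v ∈ X, ((nb H {v} X).card : ℝ) := by
      rw [ec_eq_sum]; push_cast; rfl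
    obtain ⟨v, hv, hdeg⟩ := exists_le_of_sum_le hne
      (f := fun v => ((nb H {v} X).card : ℝ)) (g := fun _ => P * X.card + Q) (by
        rw [sum_const, nsmul_eq_mul, ← h3]; exact hfew)
    refine ⟨v, hv, fun Y hY hadj => ?_⟩
    have h1 : Y.card ≤ (nb H {v} X).card :=
      card_le_card fun u hu => mem_nb_one.2 ⟨hY hu, hadj u hu⟩
    have h1' : (Y.card : ℝ) ≤ (nb H {v} X).card := by exact_mod_cast h1
    have h2 : (X.card : ℝ) ≤ z := by exact_mod_cast (hc ▸ card_le_card hX)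
    have h4 := mul_le_mul_of_nonneg_left h2 hP
    linarith) s Z0 subset_rfl (by rw [hc]; exact hs) (by
      have : 0 ≤ P * z := by positivity
      linarith)
  obtain ⟨I, h1, h2, h3⟩ := hg
  refine ⟨I, h1.trans hZ0, h2, fun x hx y hy => ?_⟩
  by_cases hxy : x = y
  · subst hxy
    exact hR.gr.2 x
  · exact h3 x hx y hy hxy

theorem countP : CountP := by
  classical
  intro H k c X hc
  have hsub : X ×ˢ X ⊆ ((range k).biUnion fun i => (X ×ˢ X).filter fun e => col H c i e.1 e.2) ∪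
      ((X ×ˢ X).filter fun e => H e.1 e.2) ∪ X.image fun x => (x, x) := by
    intro e he
    by_cases h1 : e.1 = e.2
    · refine mem_union_right _ (mem_image.2 ⟨e.1, (mem_product.1 he).1, ?_⟩)
      exact Prod.ext rfl h1
    · refine mem_union_left _ ?_
      by_cases h2 : H e.1 e.2
      · exact mem_union_right _ (mem_filter.2 ⟨he, h2⟩)
      · exact mem_union_left _ (mem_biUnion.2 ⟨c {e.1, e.2}, mem_range.2 (hc _),
          mem_filter.2 ⟨he, h1, h2, rfl⟩⟩)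
  have h1 := card_le_card hsub
  rw [card_product, ← sq] at h1
  refine h1.trans ((card_union_le _ _).trans (add_le_add ((card_union_le _ _).trans
    (add_le_add (card_biUnion_le.trans (le_of_eq ?_)) (le_of_eq ?_))) card_image_le))
  · refine sum_congr rfl fun i _ => ?_
    rw [ec]
  · rw [ec]

end Pool.Agent.MP_251804_lc.Ed

end

section

namespace Pool.Agent.MP_251804_lc.Ed
open Finset Filter

open Classical in
lemma dc_Drc {β : Type*} (X : Finset ℕ) (j : ℕ) (Y : Finset β) (N : β → Finset ℕ)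
    (hN : ∀ y, N y ⊆ X) :
    ∑ T ∈ Fintype.piFinset (fun _ : Fin j => X), ((Y.filter fun y => ∀ i, T i ∈ N y).card : ℝ) =
      ∑ y ∈ Y, ((N y).card : ℝ) ^ j := by
  simp only [card_filter, Nat.cast_sum]
  rw [sum_comm]
  refine sum_congr rfl fun y _ => ?_
  rw [← Nat.cast_sum, ← card_filter]
  have : (Fintype.piFinset (fun _ : Fin j => X)).filter (fun T => ∀ i, T i ∈ N y) =
      Fintype.piFinset (fun _ : Fin j => N y) := by
    ext T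
    simp only [mem_filter, Fintype.mem_piFinset]
    exact ⟨fun h => h.2, fun h => ⟨fun i => hN y (h i), h⟩⟩
  rw [this, Fintype.card_piFinset]
  simp

lemma pm_Drc (X : Finset ℕ) (hX : X.Nonempty) (f : ℕ → ℝ) (hf : ∀ v ∈ X, 0 ≤ f v) (c : ℝ)
    (hc : 0 ≤ c) (h : c * X.card ≤ ∑ v ∈ X, f v) (j : ℕ) :
    X.card * c ^ j ≤ ∑ v ∈ X, f v ^ j := by
  have hn : (0 : ℝ) < X.card := by exact_mod_cast hX.card_pos
  rcases j with _ | j
  · simp
  · have h1 := pow_sum_le_card_mul_sum_pow hf j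
    have h2 : (c * X.card) ^ (j + 1) ≤ (∑ v ∈ X, f v) ^ (j + 1) :=
      pow_le_pow_left₀ (by positivity) h _
    have h3 : (X.card : ℝ) ^ j * (X.card * c ^ (j + 1)) ≤
        (X.card : ℝ) ^ j * ∑ v ∈ X, f v ^ (j + 1) := by
      calc (X.card : ℝ) ^ j * (X.card * c ^ (j + 1)) = (c * X.card) ^ (j + 1) := by ring
        _ ≤ _ := h2.trans h1
    exact le_of_mul_le_mul_left h3 (by positivity)

theorem drcP : DrcP := by
  classical
  intro E _ X h j δ a hX hδ ha hec hK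
  have hn : (0 : ℝ) < X.card := by exact_mod_cast hX.card_pos
  set P := Fintype.piFinset (fun _ : Fin j => X) with hP
  let A : (Fin j → ℕ) → Finset ℕ := fun T => X.filter fun v => ∀ i, T i ∈ nb E {v} X
  have hPc : (P.card : ℝ) = (X.card : ℝ) ^ j := by
    rw [hP, Fintype.card_piFinset]; simp
  have hPne : P.Nonempty := by
    rw [← card_pos]
    have : (0 : ℝ) < P.card := by rw [hPc]; positivity
    exact_mod_cast this
  have S1 : X.card * (δ * X.card) ^ j ≤ ∑ T ∈ P, ((A T).card : ℝ) := by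
    have := dc_Drc X j X (fun v => nb E {v} X) (fun v => nb_subset _ _ _)
    refine le_of_le_of_eq (pm_Drc X hX (fun v => ((nb E {v} X).card : ℝ))
      (fun v _ => by positivity) _ (by positivity) ?_ j) ?_
    · rw [ec_eq_sum] at hec
      push_cast at hec
      nlinarith
    · rw [← this]
  have S2 : ∑ T ∈ P, ((cl E h (A T)).card : ℝ) ≤ (X.card : ℝ) ^ h * a ^ j := by
    have h1 := dc_Drc X j (cl E h X) (fun K => nb E K X) (fun v => nb_subset _ _ _)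
    have h2 : ∑ T ∈ P, ((cl E h (A T)).card : ℝ) ≤ ∑ K ∈ cl E h X, ((nb E K X).card : ℝ) ^ j := by
      rw [← h1]
      refine sum_le_sum fun T hT => ?_
      refine Nat.cast_le.2 (card_le_card fun K hK' => ?_)
      obtain ⟨k1, k2, k3⟩ := mem_cl.1 hK'
      refine mem_filter.2 ⟨mem_cl.2 ⟨k1.trans (filter_subset _ _), k2, k3⟩, fun i => ?_⟩
      refine mem_nb.2 ⟨Fintype.mem_piFinset.1 hT i, fun x hx => ?_⟩
      exact (mem_nb_one.1 ((mem_filter.1 (k1 hx)).2 i)).2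
    have h3 : ∑ K ∈ cl E h X, ((nb E K X).card : ℝ) ^ j ≤ (cl E h X).card * a ^ j := by
      rw [← nsmul_eq_mul, ← sum_const]
      exact sum_le_sum fun K hK' => pow_le_pow_left₀ (by positivity) (hK K hK') _
    have h4 : ((cl E h X).card : ℝ) ≤ (X.card : ℝ) ^ h := by
      have : (cl E h X).card ≤ X.card ^ h := by
        calc (cl E h X).card ≤ (powersetCard h X).card :=
              card_le_card fun K hK' =>
                mem_powersetCard.2 ⟨(mem_cl.1 hK').1, (mem_cl.1 hK').2.1⟩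
          _ = X.card.choose h := card_powersetCard _ _
          _ ≤ X.card ^ h := Nat.choose_le_pow _ _
      exact_mod_cast this
    exact h2.trans (h3.trans (mul_le_mul_of_nonneg_right h4 (by positivity)))
  set b : ℝ := (X.card : ℝ) ^ h * (a / X.card) ^ j with hb
  have hb0 : 0 < b := by positivity
  have hbn : b * (X.card : ℝ) ^ j = (X.card : ℝ) ^ h * a ^ j := by
    rw [hb, div_pow]; field_simp
  have hd : 0 < δ ^ j * X.card := by positivity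
  have key : ∑ T ∈ P, δ ^ j * X.card * (((cl E h (A T)).card : ℝ) + b) ≤
      ∑ T ∈ P, 2 * b * ((A T).card : ℝ) := by
    rw [← mul_sum, ← mul_sum, sum_add_distrib, sum_const, nsmul_eq_mul, hPc]
    calc δ ^ j * X.card * (∑ T ∈ P, ((cl E h (A T)).card : ℝ) + (X.card : ℝ) ^ j * b)
        ≤ δ ^ j * X.card * (b * (X.card : ℝ) ^ j + (X.card : ℝ) ^ j * b) := by
          rw [hbn]; gcongr
      _ = 2 * b * (X.card * (δ * X.card) ^ j) := by ring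
      _ ≤ _ := by gcongr
  obtain ⟨T, _, hT⟩ := exists_le_of_sum_le hPne key
  have hA : ((A T).card : ℝ) ≤ X.card := Nat.cast_le.2 (card_le_card (filter_subset _ _))
  have hc0 : (0 : ℝ) ≤ (cl E h (A T)).card := by positivity
  refine ⟨A T, filter_subset _ _, ?_, ?_⟩
  · have : b * (δ ^ j * X.card) ≤ b * (2 * (A T).card) := by nlinarith
    exact le_of_mul_le_mul_left this hb0
  · have : (X.card : ℝ) * (δ ^ j * (cl E h (A T)).card) ≤ X.card * (2 * b) := by nlinarith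
    exact le_of_mul_le_mul_left this hn

end Pool.Agent.MP_251804_lc.Ed

end

section

namespace Pool.Agent.MP_251804_lc.Ed
open Finset Filter

lemma deg_Walk {E : ℕ → ℕ → Prop} {X : Finset ℕ} {δ : ℝ} (hX : X.Nonempty)
    (h : δ * X.card ^ 2 ≤ ec E X) : ∃ v ∈ X, δ * X.card ≤ (nb E {v} X).card := by
  refine exists_le_of_sum_le hX ?_
  rw [sum_const, nsmul_eq_mul]
  rw [ec_eq_sum] at h
  push_cast at h
  linarith

lemma ind_Walk (E : ℕ → ℕ → ℕ → Prop) (hE : ∀ i, Gr (E i)) (k s : ℕ) {δ : ℝ} (h0 : 0 < δ)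
    (h1 : δ ≤ 1) (N : ℕ) : ∀ (b : ℕ → ℕ) (X₀ : Finset ℕ), X₀.Nonempty →
    ∑ i ∈ range k, b i ≤ N → (∀ i < k, ¬ Has (E i) (s + b i) X₀) →
    ∃ X ⊆ X₀, δ ^ N * X₀.card ≤ X.card ∧
      ∀ i < k, ¬ Has (E i) s X ∨ (ec (E i) X : ℝ) < δ * X.card ^ 2 := by
  have base : ∀ (N : ℕ) (X₀ : Finset ℕ), δ ^ N * X₀.card ≤ X₀.card := fun N X₀ =>
    mul_le_of_le_one_left (Nat.cast_nonneg _) (pow_le_one₀ h0.le h1)
  induction N with
  | zero =>
    intro b X₀ _ hb hn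
    refine ⟨X₀, Subset.rfl, base _ _, fun i hi => Or.inl ?_⟩
    have : b i ≤ ∑ i ∈ range k, b i :=
      single_le_sum (f := b) (fun _ _ => Nat.zero_le _) (mem_range.2 hi)
    have e : b i = 0 := by omega
    simpa [e] using hn i hi
  | succ N ih =>
    intro b X₀ hX hb hn
    by_cases hc : ∀ i < k, ¬ Has (E i) s X₀ ∨ (ec (E i) X₀ : ℝ) < δ * X₀.card ^ 2
    · exact ⟨X₀, Subset.rfl, base _ _, hc⟩
    simp only [not_forall, not_or, not_not, not_lt] at hc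
    obtain ⟨i, hi, hs, hd⟩ := hc
    have hbi : 0 < b i := by
      rcases Nat.eq_zero_or_pos (b i) with e | e
      · exact absurd (by simpa [e] using hs) (hn i hi)
      · exact e
    obtain ⟨v, hv, hvd⟩ := deg_Walk hX hd
    have hXp : (0 : ℝ) < X₀.card := by exact_mod_cast hX.card_pos
    have hY : (nb (E i) {v} X₀).Nonempty := by
      rw [← card_pos]
      have : (0 : ℝ) < (nb (E i) {v} X₀).card := lt_of_lt_of_le (by positivity) hvd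
      exact_mod_cast this
    obtain ⟨X, hXs, hXc, hX2⟩ := ih (Function.update b i (b i - 1)) _ hY (by
      have e1 := sum_update_of_mem (mem_range.2 hi) b (b i - 1)
      have e2 := sum_update_of_mem (mem_range.2 hi) b (b i)
      rw [Function.update_eq_self] at e2
      omega) (by
      intro j hj hh
      by_cases hji : j = i
      · subst hji
        rw [Function.update_self] at hh
        refine hn j hj ((hh.ins (hE j).1 hv (nb_subset _ _ _) ?_ ?_).le (by omega))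
        · exact fun h => (hE j).2 v (mem_nb_one.1 h).2
        · exact fun u h => (mem_nb_one.1 h).2
      · rw [Function.update_of_ne hji] at hh
        exact hn j hj (hh.sub (nb_subset _ _ _)))
    refine ⟨X, hXs.trans (nb_subset _ _ _), le_trans ?_ hXc, hX2⟩
    rw [pow_succ, mul_assoc]
    exact mul_le_mul_of_nonneg_left hvd (by positivity)

theorem walkP : WalkP := by
  intro E hE k r h X₀ δ h0 h1 hX hn
  refine ind_Walk E hE k (r - h) h0 h1 (k * h) (fun _ => h) X₀ hX (by simp) ?_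
  exact fun i hi hh => hn i hi (hh.le (by omega))

lemma ng_Walk (hW : WalkP) (hC : CountP) {k : ℕ} (r : ℕ) (hk : 1 ≤ k) :
    ¬ Good (2 * (2 * k) ^ (k * r)) k 2 r := by
  rintro ⟨c, hc, hg⟩
  have hkR : (1 : ℝ) ≤ k := by exact_mod_cast hk
  have hgr : Gr fun _ _ => False := ⟨fun _ _ h => h, fun _ h => h⟩
  have hN : 0 < 2 * (2 * k) ^ (k * r) := by positivity
  obtain ⟨X, -, h1, h2⟩ := hW (col (fun _ _ => False) c) (col_gr hgr c) k r r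
    (range (2 * (2 * k) ^ (k * r))) (1 / (2 * k)) (by positivity)
    (by rw [div_le_one (by positivity)]; linarith) (nonempty_range_iff.2 hN.ne')
    (fun i _ ⟨S, s1, s2, s3⟩ =>
      hg S s1 s2 (monoN_of (v := i) fun a ha b hb hab => (s3 a ha b hb hab).2.2))
  have hX : (2 : ℝ) ≤ X.card := by
    refine le_trans (le_of_eq ?_) h1
    rw [card_range]
    push_cast
    rw [one_div, inv_pow]
    field_simp
  have h3 : ∀ i ∈ range k, (ec (col (fun _ _ => False) c i) X : ℝ) <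
      1 / (2 * k) * X.card ^ 2 := by
    intro i hi
    refine (h2 i (mem_range.1 hi)).resolve_left fun h => h ?_
    rw [Nat.sub_self]
    exact Has.zero _ _
  have h4 := sum_lt_sum_of_nonempty (nonempty_range_iff.2 (by omega : k ≠ 0)) h3
  have h5 := hC (fun _ _ => False) k c X hc
  have h6 : ec (fun _ _ => False) X = 0 := by simp [ec]
  rw [h6] at h5
  have h7 : (X.card : ℝ) ^ 2 ≤
      ∑ i ∈ range k, (ec (col (fun _ _ => False) c i) X : ℝ) + X.card := by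
    exact_mod_cast h5
  rw [sum_const, card_range, nsmul_eq_mul] at h4
  have h8 : (k : ℝ) * (1 / (2 * k) * X.card ^ 2) = X.card ^ 2 / 2 := by field_simp
  nlinarith

theorem esP (hW : WalkP) (hC : CountP) : EsP := by
  intro k r n ε hk hn h
  have hnR : (1 : ℝ) ≤ n := by exact_mod_cast hn
  have hkR : (1 : ℝ) ≤ k := by exact_mod_cast hk
  have h1 : ⌊(n : ℝ) ^ ε⌋₊ < 2 * (2 * k) ^ (k * r) := by
    by_contra hc
    exact ng_Walk hW hC r hk (h.mono (by omega) le_rfl le_rfl)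
  have h2 : (n : ℝ) ^ ε ≤ 2 * (2 * k) ^ (k * r) := by
    have := (Nat.floor_lt (by positivity)).1 h1
    push_cast at this
    exact this.le
  have h3 := Real.log_le_log (by positivity) h2
  rw [Real.log_rpow (by positivity), Real.log_mul (by positivity) (by positivity),
    Real.log_pow] at h3
  have h4 : Real.log 2 ≤ 1 := by
    have := Real.log_le_sub_one_of_pos (show (0 : ℝ) < 2 by norm_num)
    linarith
  push_cast at h3
  linarith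

end Pool.Agent.MP_251804_lc.Ed

end

section

namespace Pool.Agent.MP_251804_lc.Ed
open Finset Filter

theorem splitP (hC : CountP) : SplitP := by
  classical
  intro H k s c X hk hc hX hd hH
  by_cases h1 : ∃ u < k, ∀ j < k, j ≠ u → ¬ Has (col H c j) s X
  · exact Or.inl h1
  right
  push Not at h1
  obtain ⟨j1, a1, -, b1⟩ := h1 0 (by omega)
  obtain ⟨j2, a2, n2, b2⟩ := h1 j1 a1
  set R := (range k).filter fun i => ¬ Has (col H c i) s X with hR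
  have hsub : R ⊆ range k \ {j1, j2} := by
    intro i hi
    obtain ⟨h3, h4⟩ := mem_filter.1 hi
    refine mem_sdiff.2 ⟨h3, fun h5 => ?_⟩
    rcases mem_insert.1 h5 with rfl | h5
    · exact h4 b1
    · exact h4 (mem_singleton.1 h5 ▸ b2)
  have hcard : R.card + 2 ≤ k := by
    have h3 := card_le_card hsub
    rw [card_sdiff_of_subset (by
      intro i hi
      rcases mem_insert.1 hi with rfl | hi
      · exact mem_range.2 a1
      · exact mem_singleton.1 hi ▸ mem_range.2 a2), card_pair n2.symm, card_range] at h3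
    omega
  have hz : (0 : ℝ) < X.card := by exact_mod_cast card_pos.2 hX
  have hkR : (0 : ℝ) < k := by exact_mod_cast (by omega : 0 < k)
  have h3 : (X.card : ℝ) ^ 2 ≤ ∑ i ∈ range k, (ec (col H c i) X : ℝ) + ec H X + X.card := by
    exact_mod_cast hC H k c X hc
  rw [← sum_filter_add_sum_filter_not (range k) fun i => ¬ Has (col H c i) s X] at h3
  have h4 : ∑ i ∈ (range k).filter (fun i => ¬ ¬ Has (col H c i) s X), (ec (col H c i) X : ℝ) ≤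
      X.card ^ 2 / 2000 := by
    calc _ ≤ ∑ _i ∈ (range k).filter (fun i => ¬ ¬ Has (col H c i) s X),
          1 / (2000 * (k : ℝ)) * X.card ^ 2 := by
          refine sum_le_sum fun i hi => ?_
          obtain ⟨h5, h6⟩ := mem_filter.1 hi
          exact ((hd i (mem_range.1 h5)).resolve_left h6).le
      _ ≤ ∑ _i ∈ range k, 1 / (2000 * (k : ℝ)) * X.card ^ 2 :=
          sum_le_sum_of_subset_of_nonneg (filter_subset _ _) fun _ _ _ => by positivity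
      _ = _ := by
          rw [sum_const, card_range, nsmul_eq_mul]
          field_simp
  have h5 : 9991 / 10000 * (X.card : ℝ) ^ 2 ≤ ∑ i ∈ R, (ec (col H c i) X : ℝ) := by
    rw [hR]
    linarith
  have hne : R.Nonempty := by
    rw [nonempty_iff_ne_empty]
    intro h6
    rw [h6, sum_empty] at h5
    have : 0 < (X.card : ℝ) ^ 2 := by positivity
    linarith
  obtain ⟨u, hu, hmax⟩ := exists_max_image R (fun i => ec (col H c i) X) hne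
  have h6 : ∑ i ∈ R, (ec (col H c i) X : ℝ) ≤ R.card * ec (col H c u) X := by
    rw [← nsmul_eq_mul]
    exact sum_le_card_nsmul _ _ _ fun i hi => by exact_mod_cast hmax i hi
  have h7 : (R.card : ℝ) ≤ k - 2 := by
    have : (R.card : ℝ) + 2 ≤ k := by exact_mod_cast hcard
    linarith
  have h8 := card_pos.2 hne
  refine ⟨by omega, u, mem_range.1 (mem_filter.1 hu).1, (mem_filter.1 hu).2, ?_⟩
  have h9 : (R.card : ℝ) * ec (col H c u) X ≤ (k - 2) * ec (col H c u) X :=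
    mul_le_mul_of_nonneg_right h7 (by positivity)
  have h10 : 0 ≤ (X.card : ℝ) ^ 2 := by positivity
  nlinarith

theorem fillP : FillP := by
  classical
  intro H hH k u s M c Y hc hu hM h1 h2
  refine good2_of (fun a b => if H (enum Y a) (enum Y b) then u else c {enum Y a, enum Y b})
    (fun a b => by
      show (if _ then _ else _) < k
      split_ifs
      · exact hu
      · exact hc _) ?_
  intro x hx hb v hv
  have hinc : Inc s (enum Y ∘ x) := (enum_inc Y).comp hx fun i hi => (hb i hi).trans_le hM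
  have key : Has (fun a b => (if H a b then u else c {a, b}) = v ∧ a ≠ b) s Y := by
    refine ⟨image (enum Y ∘ x) (range s), ?_, hinc.card_image, ?_⟩
    · intro a ha
      obtain ⟨i, hi, rfl⟩ := mem_image.1 ha
      exact enum_mem ((hb i (mem_range.1 hi)).trans_le hM)
    · intro a ha b hb' hab
      refine ⟨?_, hab⟩
      obtain ⟨i, hi, rfl⟩ := mem_image.1 ha
      obtain ⟨j, hj, rfl⟩ := mem_image.1 hb'
      rw [mem_range] at hi hj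
      rcases lt_trichotomy i j with h3 | h3 | h3
      · exact hv i j h3 hj
      · exact absurd (by rw [h3]) hab
      · have h4 := hv j i h3 hi
        simp only [Function.comp] at h4 ⊢
        by_cases h5 : H (enum Y (x i)) (enum Y (x j))
        · rw [if_pos (hH.1 _ _ h5)] at h4
          rw [if_pos h5]
          exact h4
        · rw [if_neg fun h => h5 (hH.1 _ _ h)] at h4
          rw [if_neg h5, pair_comm]
          exact h4
  obtain ⟨S, h3, h4, h5⟩ := key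
  by_cases hvu : v = u
  · refine h1 ⟨S, h3, h4, fun a ha b hb' hab => ?_⟩
    by_cases h6 : H a b
    · exact Or.inr h6
    · have h7 := (h5 a ha b hb' hab).1
      rw [if_neg h6] at h7
      exact Or.inl ⟨hab, h6, h7.trans hvu⟩
  have h6 : ∀ a ∈ S, ∀ b ∈ S, a ≠ b → col H c v a b := by
    intro a ha b hb' hab
    have h7 := (h5 a ha b hb' hab).1
    by_cases h6 : H a b
    · rw [if_pos h6] at h7
      exact absurd h7.symm hvu
    · rw [if_neg h6] at h7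
      exact ⟨hab, h6, h7⟩
  by_cases hvk : v < k
  · exact h2 v hvk hvu ⟨S, h3, h4, h6⟩
  · refine h1 ⟨S, h3, h4, fun a ha b hb' hab => ?_⟩
    exact absurd ((h6 a ha b hb' hab).2.2 ▸ hc {a, b}) hvk

end Pool.Agent.MP_251804_lc.Ed

end

section

namespace Pool.Agent.MP_251804_lc.Ed
open Finset Filter

theorem a_Sawin : (1303 / 1000 : ℝ) ≤ (2 : ℝ) ^ (382 / 1000 : ℝ) := by
  have h : ((1303 / 1000 : ℝ)) ^ (500 : ℕ) ≤ ((2 : ℝ) ^ (382 / 1000 : ℝ)) ^ (500 : ℕ) := by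
    rw [← Real.rpow_natCast ((2 : ℝ) ^ (382 / 1000 : ℝ)) 500, ← Real.rpow_mul (by norm_num)]
    have : (382 / 1000 : ℝ) * ((500 : ℕ) : ℝ) = ((191 : ℕ) : ℝ) := by norm_num
    rw [this, Real.rpow_natCast, div_pow, div_le_iff₀ (by positivity)]
    exact_mod_cast (by decide +kernel : 1303 ^ 500 ≤ 2 ^ 191 * 1000 ^ 500)
  exact (pow_le_pow_iff_left₀ (by norm_num) (by positivity) (by norm_num)).1 h

theorem b_Sawin : (1409 / 1000 : ℝ) ≤ (2 : ℝ) ^ (495 / 1000 : ℝ) := by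
  have h : ((1409 / 1000 : ℝ)) ^ (200 : ℕ) ≤ ((2 : ℝ) ^ (495 / 1000 : ℝ)) ^ (200 : ℕ) := by
    rw [← Real.rpow_natCast ((2 : ℝ) ^ (495 / 1000 : ℝ)) 200, ← Real.rpow_mul (by norm_num)]
    have : (495 / 1000 : ℝ) * ((200 : ℕ) : ℝ) = ((99 : ℕ) : ℝ) := by norm_num
    rw [this, Real.rpow_natCast, div_pow, div_le_iff₀ (by positivity)]
    exact_mod_cast (by decide +kernel : 1409 ^ 200 ≤ 2 ^ 99 * 1000 ^ 200)
  exact (pow_le_pow_iff_left₀ (by norm_num) (by positivity) (by norm_num)).1 h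

theorem lin_Sawin (j : ℕ) : (101 / 100 : ℝ) * j ≤ 1409 / 1000 * (1303 / 1000 : ℝ) ^ j := by
  rcases lt_or_ge j 4 with h | h
  · interval_cases j <;> norm_num
  · induction j, h using Nat.le_induction with
    | base => norm_num
    | succ j hj ih =>
      have hj' : (4 : ℝ) ≤ j := by exact_mod_cast hj
      rw [pow_succ]
      push_cast
      nlinarith

theorem key_Sawin (j : ℕ) :
    (101 / 100 : ℝ) * j ≤ (2 : ℝ) ^ ((495 / 1000 : ℝ) + 382 / 1000 * j) := by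
  rw [Real.rpow_add (by norm_num), Real.rpow_mul (by norm_num), Real.rpow_natCast]
  refine (lin_Sawin j).trans ?_
  exact mul_le_mul b_Sawin (pow_le_pow_left₀ (by norm_num) a_Sawin j) (by positivity)
    (by positivity)

theorem sawinP (h1 : Base1P) (h2 : Base2P) (h3 : PullP) : SawinP := by
  obtain ⟨r0, h2⟩ := h2
  refine ⟨max r0 400, fun k r hk hr => ?_⟩
  obtain ⟨j, rfl⟩ : ∃ j, k = j + 2 := ⟨k - 2, by omega⟩
  have hj : 1 ≤ j := by omega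
  obtain ⟨M, hM, hA, hB⟩ := h2 r (le_trans (le_max_left _ _) hr)
  have hr4 : (400 : ℝ) ≤ r := by exact_mod_cast le_trans (le_max_right _ _) hr
  obtain ⟨G, hG, hG1, hG2⟩ := h1 M r (4 / 9) _ (by norm_num) (by norm_num) hA hB
  refine h3 M r _ j G _ hM hG hG1 (by positivity) hG2 ?_
  have e : (((j + 2 : ℕ) : ℝ) - 2) = j := by push_cast; ring
  rw [e]
  set x : ℝ := (101 / 100 * (j : ℝ)) ^ r with hx
  have hj' : (1 : ℝ) ≤ j := by exact_mod_cast hj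
  have hx1 : 1 ≤ x := one_le_pow₀ (by linarith)
  have hN : (⌈x⌉₊ : ℝ) ≤ 2 * x := by
    have := Nat.ceil_lt_add_one (show 0 ≤ x by linarith)
    linarith
  have hx2 : x ≤ (2 : ℝ) ^ (((495 / 1000 : ℝ) + 382 / 1000 * j) * r) := by
    rw [Real.rpow_mul (by norm_num), Real.rpow_natCast]
    exact pow_le_pow_left₀ (by positivity) (key_Sawin j) r
  have hN2 : (⌈x⌉₊ : ℝ) ≤ (2 : ℝ) ^ (1 + ((495 / 1000 : ℝ) + 382 / 1000 * j) * r) := by
    rw [Real.rpow_add (by norm_num), Real.rpow_one]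
    linarith
  have hC : ((⌈x⌉₊.choose r : ℕ) : ℝ)
      ≤ (2 : ℝ) ^ ((1 + ((495 / 1000 : ℝ) + 382 / 1000 * j) * r) * r) := by
    rw [Real.rpow_mul (by norm_num), Real.rpow_natCast]
    refine le_trans ?_ (pow_le_pow_left₀ (by positivity) hN2 r)
    exact_mod_cast Nat.choose_le_pow _ _
  have hb : ((2 : ℝ) ^ (-(382 / 1000 : ℝ) * (r : ℝ) ^ 2)) ^ j
      = (2 : ℝ) ^ (-(382 / 1000 : ℝ) * (r : ℝ) ^ 2 * j) := by
    rw [Real.rpow_mul (show (0 : ℝ) ≤ 2 by norm_num) _ (j : ℝ), Real.rpow_natCast]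
  rw [hb]
  calc 2 * (((⌈x⌉₊.choose r : ℕ) : ℝ) * (2 : ℝ) ^ (-(382 / 1000 : ℝ) * (r : ℝ) ^ 2 * j))
      ≤ 2 * ((2 : ℝ) ^ ((1 + ((495 / 1000 : ℝ) + 382 / 1000 * j) * r) * r)
          * (2 : ℝ) ^ (-(382 / 1000 : ℝ) * (r : ℝ) ^ 2 * j)) := by
        gcongr
    _ = (2 : ℝ) ^ (1 + ((1 + ((495 / 1000 : ℝ) + 382 / 1000 * j) * r) * r
          + -(382 / 1000 : ℝ) * (r : ℝ) ^ 2 * j)) := by
        rw [Real.rpow_add (by norm_num) 1, Real.rpow_one,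
          Real.rpow_add (by norm_num) (_ * (r : ℝ))]
    _ < (2 : ℝ) ^ (((r.choose 2 : ℕ) : ℝ)) := by
        refine Real.rpow_lt_rpow_of_exponent_lt (by norm_num) ?_
        rw [Nat.cast_choose_two]
        nlinarith
    _ = 2 ^ r.choose 2 := Real.rpow_natCast _ _

end Pool.Agent.MP_251804_lc.Ed

end

section

namespace Pool.Agent.MP_251804_lc.Ed
open Finset Filter

theorem nfinP (hC : CleanP) (hS : SampleP) (hN : NbP) (hF : FillP) : NfinP := by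
  intro n w P Q q H hR k u b r g M c Z d hZ hc hu hb hg hbr hoth hcl h8 hd hd2 hq
  have hr : 1 ≤ r := by
    rcases Nat.eq_zero_or_pos r with rfl | h
    · simp at hbr; omega
    · exact h
  rcases Nat.eq_zero_or_pos M with rfl | hM
  · exact good_of_lt (by omega) (by omega)
  have hP := hR.P0
  have hQ := hR.Q0
  have hq0 := hR.q0
  have hz : (0 : ℝ) < Z.card := by
    have : 0 < Z.card := by omega
    exact_mod_cast this
  have h8' : (8 : ℝ) * M ≤ Z.card := by exact_mod_cast h8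
  have hM' : (0 : ℝ) < M := by exact_mod_cast hM
  have hr' : (1 : ℝ) ≤ r := by exact_mod_cast hr
  set z : ℝ := (Z.card : ℝ) with hzdef
  set ρ : ℝ := 8 * M / z with hρ
  have hρ0 : 0 ≤ ρ := by positivity
  have hρ1 : ρ ≤ 1 := (div_le_one hz).2 h8'
  have hρz : ρ * z = 8 * M := by rw [hρ]; field_simp
  obtain ⟨A, hAZ, hA2, hdeg⟩ := hC H Z (P * z + Q) (by positivity) (hR.few Z hZ)
  have hA2' : z ≤ 2 * A.card := by rw [hzdef]; exact_mod_cast hA2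
  have h1 : (r : ℝ) * (2 * (P * z + Q)) * ρ ≤ d := by
    have e1 : (r : ℝ) * (2 * (P * z + Q)) * ρ = 2 * r * (P * (ρ * z) + Q * ρ) := by ring
    have e2 : Q * ρ ≤ Q := mul_le_of_le_one_right hQ hρ1
    rw [e1, hρz]
    have e3 : 2 * (r : ℝ) * (P * (8 * M) + Q * ρ) ≤ 2 * r * (P * (8 * M) + 8 * Q) :=
      mul_le_mul_of_nonneg_left (by linarith) (by positivity)
    calc _ ≤ _ := e3
      _ = 16 * r * (P * M + Q) := by ring
      _ ≤ d := hd2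
  have hξ0 : 0 ≤ (2 * d) ^ g * ((r : ℝ) ^ 2 * q * ρ) := by positivity
  have h2 : (r : ℝ) ^ 2 * ((2 * d) ^ g * ((r : ℝ) ^ 2 * q * ρ)) ≤ 1 / 2 := by
    have e1 : (r : ℝ) ^ 2 * ((2 * d) ^ g * ((r : ℝ) ^ 2 * q * ρ)) * z =
        (16 * r ^ 4 * q * M * (2 * d) ^ g) / 2 := by
      have : (r : ℝ) ^ 2 * ((2 * d) ^ g * ((r : ℝ) ^ 2 * q * ρ)) * z =
          r ^ 4 * (2 * d) ^ g * q * (ρ * z) := by ring
      rw [this, hρz]; ring
    have e2 : (r : ℝ) ^ 2 * ((2 * d) ^ g * ((r : ℝ) ^ 2 * q * ρ)) * z ≤ 1 / 2 * z := by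
      rw [e1]; linarith
    exact le_of_mul_le_mul_right e2 hz
  have h3 : (2 * d) ^ g * ((r : ℝ) ^ 2 * q * ρ) ≤ 1 := by
    have : (1 : ℝ) ≤ (r : ℝ) ^ 2 := one_le_pow₀ hr'
    nlinarith
  obtain ⟨B, hBne, hBw, hBS⟩ := hN H hR.gr A r g (2 * (P * z + Q)) q ρ d hg (by positivity) hq0
    hρ0 hd h1 h3 hdeg (fun x _ y _ hxy => le_trans (by
      exact_mod_cast card_le_card (nb_mono H {x, y} (hAZ.trans hZ))) (hR.cod x y hxy))
  obtain ⟨Y, hYA, hYB, hYc⟩ := hS A (B ∪ cl (col H c u) b Z) ρ hρ0 hρ1 (by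
    intro T hT
    rcases mem_union.1 hT with hT | hT
    · exact hBne T hT
    · exact card_pos.1 (by rw [(mem_cl.1 hT).2.1]; omega))
  have hw := wt_union_le hρ0 B (cl (col H c u) b Z)
  rw [wt_cl] at hw
  have hA0 : 0 ≤ ρ * A.card := by positivity
  have hBw' : wt ρ B ≤ 1 / 2 * (ρ * A.card) :=
    hBw.trans (mul_le_mul_of_nonneg_right h2 hA0)
  have hA4 : 4 * (M : ℝ) ≤ ρ * A.card := by
    have := mul_le_mul_of_nonneg_left hA2' hρ0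
    linarith
  have hMY : M ≤ Y.card := by
    have : (M : ℝ) ≤ Y.card := by linarith
    exact_mod_cast this
  refine hF H hR.gr k u r M c Y hc hu hMY ?_
    (fun j hj hju h => hoth j hj hju (h.sub (hYA.trans hAZ)))
  rintro ⟨S, hSY, hSc, hSq⟩
  obtain ⟨I, hIS, f, hI, hgf, hSI⟩ := hBS S (hSY.trans hYA) hSc.le
    (fun T hT h => hYB T (mem_union_left _ hT) (h.trans hSY))
  have hIb : I.card < b := by
    by_contra hlt
    obtain ⟨K, hKI, hKc⟩ := exists_subset_card_eq (s := I) (n := b) (by omega)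
    refine hYB K (mem_union_right _ (mem_cl.2 ⟨hKI.trans (hIS.trans (hSY.trans
      (hYA.trans hAZ))), hKc, fun x hx y hy hxy => ?_⟩)) (hKI.trans (hIS.trans hSY))
    exact (hSq x (hIS (hKI hx)) y (hIS (hKI hy)) hxy).resolve_right (hI x (hKI hx) y (hKI hy))
  have hf : f ≤ r / g := (Nat.le_div_iff_mul_le (by omega)).2 (by rw [mul_comm]; omega)
  omega

end Pool.Agent.MP_251804_lc.Ed

end

section

namespace Pool.Agent.MP_251804_lc.Ed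
open Finset Filter

lemma arith_Nas {x s L M r Z : ℝ} {g : ℕ} (hg : 1 ≤ g) (hx : 8 ≤ x) (hs : 0 < s) (hL : 0 ≤ L)
    (hL1 : 256 * L ≤ x) (hL4 : (256 * L) ^ 4 ≤ x) (hM0 : 0 ≤ M) (hM : M ≤ s * x) (hr0 : 0 ≤ r)
    (hr : r ≤ 4 * L) (hZ : s * x ^ (4 * g + 7) ≤ Z) :
    8 * M ≤ Z ∧ 1 ≤ x ^ 4 / 2 ∧ 16 * r * (x ^ 2 / s * M + x) ≤ x ^ 4 / 2 ∧
      16 * r ^ 4 * x ^ 5 * M * (2 * (x ^ 4 / 2)) ^ g ≤ Z := by
  have hx1 : (1 : ℝ) ≤ x := by linarith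
  have hx0 : (0 : ℝ) ≤ x := by linarith
  refine ⟨?_, ?_, ?_, ?_⟩
  · have h1 : x ^ 2 ≤ x ^ (4 * g + 7) := pow_le_pow_right₀ hx1 (by omega)
    have h2 : 8 * M ≤ s * x ^ 2 := by nlinarith [mul_nonneg hs.le hx0]
    nlinarith
  · have h1 : x ^ 1 ≤ x ^ 4 := pow_le_pow_right₀ hx1 (by omega)
    rw [pow_one] at h1
    linarith
  · have h1 : x ^ 2 / s * M ≤ x ^ 3 := by
      calc x ^ 2 / s * M ≤ x ^ 2 / s * (s * x) := by gcongr
        _ = x ^ 3 := by field_simp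
    have h2 : x ^ 1 ≤ x ^ 3 := pow_le_pow_right₀ hx1 (by omega)
    rw [pow_one] at h2
    have h3 : 0 ≤ x ^ 2 / s * M + x := by positivity
    have h4 : 0 ≤ x ^ 3 := by positivity
    calc 16 * r * (x ^ 2 / s * M + x) ≤ 16 * (4 * L) * (2 * x ^ 3) := by
          gcongr; linarith
      _ = (256 * L) * x ^ 3 / 2 := by ring
      _ ≤ x * x ^ 3 / 2 := by gcongr
      _ = x ^ 4 / 2 := by ring
  · have h1 : 16 * r ^ 4 ≤ x := by
      calc 16 * r ^ 4 ≤ 16 * (4 * L) ^ 4 := by gcongr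
        _ ≤ (256 * L) ^ 4 := by
          have : 0 ≤ L ^ 4 := by positivity
          nlinarith
        _ ≤ x := hL4
    calc 16 * r ^ 4 * x ^ 5 * M * (2 * (x ^ 4 / 2)) ^ g
        ≤ x * x ^ 5 * (s * x) * (2 * (x ^ 4 / 2)) ^ g := by gcongr
      _ = s * x ^ (4 * g + 7) := by
          rw [show 2 * (x ^ 4 / 2) = x ^ 4 by ring, ← pow_mul]; ring
      _ ≤ Z := hZ

theorem nasP (hN : NfinP) : NasP := by
  intro g γ μ hg hμ hγ
  filter_upwards [ev_rpow hμ 8, ev_log (η := μ / 4) (by positivity) (C := 256) (by norm_num),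
    eventually_ge_atTop 1] with n h8 hlog hn
  intro H hH k u b r c Z hZ hZc hc hu hb hr hbr hno hcl
  have hn1 : (1 : ℝ) ≤ n := by exact_mod_cast hn
  have hn0 : (0 : ℝ) < n := by linarith
  have hL : 0 ≤ Real.log n := Real.log_nonneg hn1
  have h3 : Real.log n ≤ Real.log (3 * n) := Real.log_le_log hn0 (by linarith)
  have h4 : 0 ≤ Real.log (4 * n) := Real.log_nonneg (by linarith)
  have hy : 256 * Real.log n ≤ (n : ℝ) ^ (μ / 4) := by linarith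
  have hy4 : ((n : ℝ) ^ (μ / 4)) ^ 4 = (n : ℝ) ^ μ := by
    rw [← Real.rpow_natCast, ← Real.rpow_mul hn0.le]; congr 1; push_cast; ring
  have hL1 : 256 * Real.log n ≤ (n : ℝ) ^ μ :=
    hy.trans (Real.rpow_le_rpow_of_exponent_le hn1 (by linarith))
  have hL4 : (256 * Real.log n) ^ 4 ≤ (n : ℝ) ^ μ := by
    rw [← hy4]; gcongr
  have hpow : ∀ m : ℕ, ((n : ℝ) ^ μ) ^ m = (n : ℝ) ^ (m * μ) := fun m => by
    rw [← Real.rpow_natCast, ← Real.rpow_mul hn0.le, mul_comm]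
  have hs : 0 < (n : ℝ) ^ (1 / 2 : ℝ) := by positivity
  have hM : (⌊(n : ℝ) ^ (1 / 2 + μ)⌋₊ : ℝ) ≤ (n : ℝ) ^ (1 / 2 : ℝ) * (n : ℝ) ^ μ := by
    rw [← Real.rpow_add hn0]; exact Nat.floor_le (by positivity)
  have hZ' : (n : ℝ) ^ (1 / 2 : ℝ) * ((n : ℝ) ^ μ) ^ (4 * g + 7) ≤ Z.card := by
    rw [hpow, ← Real.rpow_add hn0]
    refine le_trans (Real.rpow_le_rpow_of_exponent_le hn1 ?_) hZc
    push_cast; linarith
  obtain ⟨a1, a2, a3, a4⟩ := arith_Nas hg h8 hs hL hL1 hL4 (Nat.cast_nonneg _) hM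
    (Nat.cast_nonneg r) hr hZ'
  have hP : (n : ℝ) ^ (-(1 / 2) + 2 * μ) = ((n : ℝ) ^ μ) ^ 2 / (n : ℝ) ^ (1 / 2 : ℝ) := by
    rw [hpow, ← Real.rpow_sub hn0]; congr 1; push_cast; ring
  have hq : (n : ℝ) ^ (5 * μ) = ((n : ℝ) ^ μ) ^ 5 := by rw [hpow]; norm_num
  refine hN n _ _ _ _ H hH k u b r g _ c Z (((n : ℝ) ^ μ) ^ 4 / 2) hZ hc hu hb hg hbr hno hcl
    ?_ a2 ?_ ?_
  · exact_mod_cast a1
  · rw [hP]; exact a3
  · rw [hq]; exact a4

end Pool.Agent.MP_251804_lc.Ed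

end

section

namespace Pool.Agent.MP_251804_lc.Ed
open Finset Filter

/-- At a large `n` the two conditions force `3 ≤ r ≤ 4 log n`. -/
lemma r_bounds_ThA {μ : ℝ} (h0 : 0 < μ) (h1 : μ ≤ 1 / 100) : ∀ᶠ n : ℕ in atTop, ∀ k r : ℕ,
    2 ≤ k → ¬ Good ⌊(n : ℝ) ^ (1 / 2 + μ)⌋₊ k 2 r → CertAt n ⌊(n : ℝ) ^ (1 / 2 - μ)⌋₊ k 2 r →
    3 ≤ r ∧ (r : ℝ) ≤ 4 * Real.log n ∧ Good ⌊(n : ℝ) ^ (1 / 2 - μ)⌋₊ k 2 r := by
  filter_upwards [ev_rpow (η := 1 / 2 - μ) (by linarith) 2, ev_logge 2, eventually_ge_atTop 1]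
    with n a1 a2 hn k r hk hg hc
  have w2 : 2 ≤ ⌊(n : ℝ) ^ (1 / 2 - μ)⌋₊ := Nat.le_floor (by exact_mod_cast a1)
  have g1 := hc.good (floor_rpow_le hn (by linarith)) (by omega)
  have r3 : 2 < r := g1.lt_of_le w2
  have := r_upper (floor_rpow_le hn (a := 1 / 2 + μ) (by linarith)) r3
    (fun h => hg (h.mono le_rfl hk le_rfl))
  exact ⟨r3, by linarith, g1⟩

theorem thAP (hR : RasP) (hH : HalfP) (hW : WasP) (hN : NasP) : ThAP := by
  obtain ⟨K₀, hK⟩ := hH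
  refine ⟨max K₀ 2, fun μ h0 h1 => ?_⟩
  have h2 : μ ≤ 1 / 100 := by linarith
  filter_upwards [hR μ h0 h2, hK μ h0 h2, hW μ h0 h2,
    hN 100 (1 / 20) μ (by norm_num) h0 (by push_cast; linarith), r_bounds_ThA h0 h2,
    eventually_ge_atTop 1] with n ⟨H, hH⟩ a1 a2 a3 a4 hn k r hk hg hc
  have nR : (1 : ℝ) ≤ n := by exact_mod_cast hn
  obtain ⟨r3, r4, -⟩ := a4 k r (le_of_max_le_right hk) hg hc
  obtain ⟨c, c1, c2⟩ := cert_col hH hc
  obtain ⟨u, hu, Z, z1, z2, z3⟩ := a1 H hH k r c (le_of_max_le_left hk) c1 r3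
    (fun h => hg (h.mono (floor_rpow_le hn (by linarith)) le_rfl le_rfl)) c2
  have l0 : 0 ≤ Real.log n := Real.log_nonneg nR
  rcases a2 H hH k u ((r + 1) / 2) (r / 100) r c Z z1 z2 c1 hu (by omega) (by omega) (by linarith)
    z3 (fun j _ _ h => c2 j (h.sub z1)) with ⟨Y, y1, y2, y3⟩ | h
  · refine hg (a3 H hH k u _ r c Y (y1.trans z1) (by norm_num; exact y2) c1 hu
      (pos_of_not_has y3) r4 (by omega) (fun j _ _ h => c2 j (h.sub (y1.trans z1))) ?_)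
    rw [cl_eq_empty y3]
    simp
  · exact hg (h.mono (Nat.floor_mono (Real.rpow_le_rpow_of_exponent_le nR (by linarith)))
      le_rfl le_rfl)

end Pool.Agent.MP_251804_lc.Ed

end

section

namespace Pool.Agent.MP_251804_lc.Ed
open Finset Filter

lemma ev_const_Final {f : ℕ → ℕ} {N B : ℕ} (hf : MonotoneOn f (Set.Ici N))
    (hB : ∀ n, N ≤ n → f n < B) : ∃ a < B, ∃ n₀, f n₀ = a ∧ ∀ᶠ n in atTop, f n = a := by
  induction B with
  | zero => exact absurd (hB N le_rfl) (by omega)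
  | succ B ih =>
    by_cases h : ∃ n, N ≤ n ∧ f n = B
    · obtain ⟨n, h1, h2⟩ := h
      refine ⟨B, by omega, n, h2, ?_⟩
      filter_upwards [eventually_ge_atTop n] with m hm
      have := hf h1 (h1.trans hm) hm
      have := hB m (h1.trans hm)
      omega
    · push Not at h
      obtain ⟨a, ha, q⟩ := ih fun n hn => by have := hB n hn; have := h n hn; omega
      exact ⟨a, by omega, q⟩

lemma ev_ge_Final {f : ℕ → ℕ} {N B : ℕ} (hf : MonotoneOn f (Set.Ici N))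
    (hB : ¬ ∀ n, N ≤ n → f n < B) : ∀ᶠ n in atTop, B ≤ f n := by
  push Not at hB
  obtain ⟨n, h1, h2⟩ := hB
  filter_upwards [eventually_ge_atTop n] with m hm
  exact h2.trans (hf h1 (h1.trans hm) hm)

theorem finalP (hA : ThAP) (hB : IterP) (hT : TripP) : ∃ ε₀ : ℝ, ε₀ < 1 / 2 ∧
    ∀ ε : ℝ, ε₀ < ε → ε < 1 / 2 → ∀ k l : ℕ → ℕ, (∀ n, 2 ≤ k n) → (∀ n, 2 ≤ l n) →
      (∃ N, MonotoneOn k (Set.Ici N) ∧ MonotoneOn l (Set.Ici N)) →
      (∀ᶠ n : ℕ in atTop, (l n : ℝ) ≤ (n : ℝ) ^ ε) → ¬ Complete ε k l := by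
  obtain ⟨K₀, hK⟩ := hA
  choose! μ hμ using hB
  obtain ⟨μ₀, m0, m1, m2⟩ : ∃ μ₀ : ℝ, 0 < μ₀ ∧ μ₀ ≤ 1 / 10000 ∧
      ∀ a < K₀, 2 ≤ a → μ₀ ≤ μ a := by
    clear hK
    induction K₀ with
    | zero => exact ⟨1 / 10000, by norm_num, le_rfl, by simp⟩
    | succ K ih =>
      obtain ⟨x, x0, x1, x2⟩ := ih
      by_cases h : 2 ≤ K
      · refine ⟨min x (μ K), lt_min x0 (hμ K h).1, (min_le_left _ _).trans x1, fun a ha h2 => ?_⟩
        rcases Nat.lt_succ_iff_lt_or_eq.1 ha with h3 | rfl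
        · exact (min_le_left _ _).trans (x2 a h3 h2)
        · exact min_le_right _ _
      · exact ⟨x, x0, x1, fun a ha h2 => by omega⟩
  refine ⟨1 / 2 - μ₀, by linarith, fun ε e1 e2 k l hk hl ⟨N, hmk, hml⟩ hle hC => ?_⟩
  have hev := hC.eventually hk
  by_cases h4 : ∀ n, N ≤ n → l n < 4
  · obtain ⟨b, b4, n₀, b0, hb⟩ := ev_const_Final hml h4
    have b2 : 2 ≤ b := b0 ▸ hl n₀
    obtain rfl | rfl : b = 2 ∨ b = 3 := by omega
    · have q1 : 1 - ε = 1 / 2 + (1 / 2 - ε) := by ring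
      have q2 : ε = 1 / 2 - (1 / 2 - ε) := by ring
      by_cases hK' : ∀ n, N ≤ n → k n < K₀
      · obtain ⟨a, aK, n₁, a0, ha⟩ := ev_const_Final hmk hK'
        have a2 : 2 ≤ a := a0 ▸ hk n₁
        refine (hμ a a2).2 (1 / 2 - ε) (by linarith) (by linarith [m2 a aK a2]) ?_
        filter_upwards [hev, hb, ha] with n ⟨r, h1⟩ h2 h3
        rw [h2, h3] at h1
        exact ⟨r, by rw [← q1, ← q2]; exact h1⟩
      · obtain ⟨n, ⟨r, h1⟩, h2, h3, h5⟩ := (hev.and (hb.and ((ev_ge_Final hmk hK').and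
          (hK (1 / 2 - ε) (by linarith) (by linarith))))).exists
        rw [h2] at h1
        rw [← q1, ← q2] at h5
        exact h5 _ r h3 h1.1 h1.2
    · refine hT ε (by linarith) e2 k N hk hmk ?_
      filter_upwards [hev, hb] with n h1 h2
      rwa [h2] at h1
  · obtain ⟨C, c, c0, hm⟩ := main ε (by linarith) e2
    obtain ⟨n, h1, h2⟩ := ((hm ∅ (fun F hF => by
      rw [Set.subset_empty_iff, coe_eq_empty] at hF
      rw [hF, sum_empty]; exact c0.le) k l hk hl hle hC).and_eventually (ev_ge_Final hml h4)).exists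
    omega

end Pool.Agent.MP_251804_lc.Ed

end
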